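import Mathlib

set_option autoImplicit false
set_option linter.unusedVariables false

namespace Pool.Agent.H77.Tard.Core

/-! Integer inequalities behind the potentials of one rainbow.  `z` is the centred position of a
wire, `A` the base weight, `c` the scale, `p, q` the two lengths, `T` the centre of the closing
sweep. -/

def r (c q z : ℤ) : ℤ := (c + z) * q + 32 * z ^ 2
def r' (c q z : ℤ) : ℤ := (c + z) * q - 32 * z ^ 2
def wb (A c z : ℤ) : ℤ := A + 18 * c * z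
def eB (A c p z : ℤ) : ℤ := -(p * (16 * A * z + 144 * c * z ^ 2)) - 15 * wb A c z
def lB (A c p z : ℤ) : ℤ := eB A c p z + 30 * wb A c z
def teB (T p z : ℤ) : ℤ := T - 16 * z + p
def tlB (T z : ℤ) : ℤ := T - 16 * z + 11
/-- the line of the outer job, `δ = 8` for tapped wires -/
def LO (A c p q T δ z τ : ℤ) : ℤ := lB A c p z + p * (wb A c z - r c q z - δ) * (τ - tlB T z)
/-- the line of the inner job -/
def LI (A c p q T z τ : ℤ) : ℤ := eB A c p z + p * (wb A c z + r' c q z) * (τ - teB T p z)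

structure Par (n m A c p q : ℤ) : Prop where
  hn : 0 ≤ n
  hm : 0 ≤ m
  hc : c = 50 * (n ^ 2 + m + 1)
  hA : 150 * c ^ 2 ≤ A
  hpq : (p = 5 ∧ q = 6) ∨ (p = 6 ∧ q = 5)

variable {n m A c p q T δ : ℤ}

lemma Par.c_ge (h : Par n m A c p q) : 50 * m + 50 ≤ c := by
  have := h.hc; nlinarith [sq_nonneg n]

lemma Par.c_n2 (h : Par n m A c p q) : 50 * n ^ 2 + 50 ≤ c := by
  have := h.hc; have := h.hm; nlinarith [sq_nonneg n]

lemma Par.c_n (h : Par n m A c p q) : 50 * n ≤ c := by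
  have := h.c_n2; nlinarith [sq_nonneg (n - 1)]

lemma Par.z2 (h : Par n m A c p q) {z : ℤ} (hz : |z| ≤ n) : z ^ 2 ≤ n ^ 2 := by
  have h1 := abs_le.1 hz; nlinarith

lemma r_le (h : Par n m A c p q) {z : ℤ} (hz : |z| ≤ n) (hδ : δ ≤ 8) : r c q z + δ ≤ 7 * c := by
  have h1 := abs_le.1 hz; have h2 := h.z2 hz; have h3 := h.c_n2; have h4 := h.c_n
  have h5 := h.hn
  unfold r
  have key : 38 * n ^ 2 + 6 * n + 8 ≤ 50 * n ^ 2 + 50 := by nlinarith [sq_nonneg (n - 1)]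
  rcases h.hpq with ⟨_, rfl⟩ | ⟨_, rfl⟩ <;> nlinarith

lemma le_r (h : Par n m A c p q) {z : ℤ} (hz : |z| ≤ n) (hδ : 0 ≤ δ) : 4 * c ≤ r c q z + δ := by
  have h1 := abs_le.1 hz; have h2 := h.c_n; have h3 := h.hn
  unfold r
  rcases h.hpq with ⟨_, rfl⟩ | ⟨_, rfl⟩ <;> nlinarith [sq_nonneg z]

lemma r'_le (h : Par n m A c p q) {z : ℤ} (hz : |z| ≤ n) : r' c q z ≤ 7 * c := by
  have h1 := abs_le.1 hz; have h2 := h.c_n; have h3 := h.hn
  unfold r'
  rcases h.hpq with ⟨_, rfl⟩ | ⟨_, rfl⟩ <;> nlinarith [sq_nonneg z]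

lemma le_r' (h : Par n m A c p q) {z : ℤ} (hz : |z| ≤ n) : 4 * c ≤ r' c q z := by
  have h1 := abs_le.1 hz; have h2 := h.z2 hz; have h3 := h.c_n2; have h4 := h.c_n
  have h5 := h.hn
  unfold r'
  have key : 32 * n ^ 2 + 5 * n ≤ 50 * n ^ 2 + 50 := by nlinarith [sq_nonneg (n - 1)]
  rcases h.hpq with ⟨_, rfl⟩ | ⟨_, rfl⟩ <;> nlinarith

/-- the basic margin -/
lemma Par.margin (h : Par n m A c p q) : 240 * m + 1 ≤ 5 * c := by
  have := h.c_ge; have := h.hm; omega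

lemma LO_eB_eq (A c p q T δ z z' : ℤ) (hpq : p * q = 30) :
    LO A c p q T δ z (teB T p z') - eB A c p z' =
      144 * p * c * (z' - z) ^ 2 + 270 * c * (z' - z)
        + p * (r c q z + δ) * (16 * (z' - z) + (11 - p)) +
        (30 - p * (11 - p)) * wb A c z := by
  unfold LO lB eB teB tlB wb; ring

lemma LO_lB_eq (A c p q T δ z z' : ℤ) :
    LO A c p q T δ z (tlB T z') - lB A c p z' =
      144 * p * c * (z' - z) ^ 2 - 270 * c * (z' - z) + 16 * p * (r c q z + δ) * (z' - z) := by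
  unfold LO lB eB tlB wb; ring

lemma LI_eB_eq (A c p q T z z' : ℤ) :
    LI A c p q T z (teB T p z') - eB A c p z' =
      144 * p * c * (z' - z) ^ 2 + 270 * c * (z' - z) - 16 * p * (r' c q z) * (z' - z) := by
  unfold LI eB teB wb; ring

lemma LI_lB_eq (A c p q T z z' : ℤ) :
    LI A c p q T z (tlB T z') - lB A c p z' =
      144 * p * c * (z' - z) ^ 2 - 270 * c * (z' - z)
        + p * r' c q z * ((11 - p) - 16 * (z' - z)) - (30 - p * (11 - p)) * wb A c z := by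
  unfold LI lB eB teB tlB wb; ring

/-- (a) -/
lemma LO_eB (h : Par n m A c p q) {z z' : ℤ} (hz : |z| ≤ n) (hδ : 0 ≤ δ) (hδ' : δ ≤ 8)
    (hd : z' = z ∨ z + 2 ≤ z' ∨ z' + 2 ≤ z) :
    eB A c p z' + (240 * m + 1) ≤ LO A c p q T δ z (teB T p z') := by
  have hpq : p * q = 30 := by rcases h.hpq with ⟨rfl, rfl⟩ | ⟨rfl, rfl⟩ <;> norm_num
  have e := LO_eB_eq A c p q T δ z z' hpq
  have h1 := r_le h hz hδ'
  have h2 := le_r h hz hδ
  have h3 := h.margin
  have h4 : 0 < c := by have := h.c_n2; nlinarith [sq_nonneg n]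
  have h5 : 30 - p * (11 - p) = 0 := by rcases h.hpq with ⟨rfl, rfl⟩ | ⟨rfl, rfl⟩ <;> norm_num
  rw [h5, zero_mul, add_zero] at e
  generalize r c q z + δ = R at *
  rcases hd with rfl | hd | hd
  · simp only [sub_self] at e
    rcases h.hpq with ⟨rfl, rfl⟩ | ⟨rfl, rfl⟩ <;> nlinarith
  · obtain ⟨d, rfl⟩ : ∃ d, z' = z + d := ⟨z' - z, by ring⟩
    have hd' : 2 ≤ d := by linarith
    simp only [add_sub_cancel_left] at e
    have k1 : 0 ≤ c * d ^ 2 := by positivity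
    have k2 : 0 ≤ c * d := by positivity
    have k3 : 0 ≤ R * d := mul_nonneg (by linarith) (by linarith)
    rcases h.hpq with ⟨rfl, rfl⟩ | ⟨rfl, rfl⟩ <;> nlinarith
  · obtain ⟨d, rfl⟩ : ∃ d, z' = z - d := ⟨z - z', by ring⟩
    have hd' : 2 ≤ d := by linarith
    have e' : z - d - z = - d := by ring
    rw [e'] at e
    have k1 : 2 * (c * d) ≤ c * d ^ 2 := by nlinarith [mul_nonneg h4.le (mul_nonneg (by linarith : (0:ℤ) ≤ d) (by linarith : (0:ℤ) ≤ d - 2))]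
    have k2 : c * 2 ≤ c * d := mul_le_mul_of_nonneg_left hd' h4.le
    have k3 : R * d ≤ 7 * (c * d) := by nlinarith
    rcases h.hpq with ⟨rfl, rfl⟩ | ⟨rfl, rfl⟩ <;> nlinarith

/-- (b) -/
lemma LO_lB (h : Par n m A c p q) {z z' : ℤ} (hz : |z| ≤ n) (hδ : 0 ≤ δ) (hδ' : δ ≤ 8)
    (hd : z + 2 ≤ z' ∨ z' + 2 ≤ z) :
    lB A c p z' + (240 * m + 1) ≤ LO A c p q T δ z (tlB T z') := by
  have e := LO_lB_eq A c p q T δ z z'
  have h1 := r_le h hz hδ'
  have h2 := le_r h hz hδ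
  have h3 := h.margin
  have h4 : 0 < c := by have := h.c_n2; nlinarith [sq_nonneg n]
  generalize r c q z + δ = R at *
  rcases hd with hd | hd
  · obtain ⟨d, rfl⟩ : ∃ d, z' = z + d := ⟨z' - z, by ring⟩
    have hd' : 2 ≤ d := by linarith
    simp only [add_sub_cancel_left] at e
    have k1 : 2 * (c * d) ≤ c * d ^ 2 := by nlinarith [mul_nonneg h4.le (mul_nonneg (by linarith : (0:ℤ) ≤ d) (by linarith : (0:ℤ) ≤ d - 2))]
    have k2 : c * 2 ≤ c * d := mul_le_mul_of_nonneg_left hd' h4.le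
    have k3 : 0 ≤ R * d := mul_nonneg (by linarith) (by linarith)
    rcases h.hpq with ⟨rfl, rfl⟩ | ⟨rfl, rfl⟩ <;> nlinarith
  · obtain ⟨d, rfl⟩ : ∃ d, z' = z - d := ⟨z - z', by ring⟩
    have hd' : 2 ≤ d := by linarith
    have e' : z - d - z = - d := by ring
    rw [e'] at e
    have k1 : 2 * (c * d) ≤ c * d ^ 2 := by nlinarith [mul_nonneg h4.le (mul_nonneg (by linarith : (0:ℤ) ≤ d) (by linarith : (0:ℤ) ≤ d - 2))]
    have k2 : c * 2 ≤ c * d := mul_le_mul_of_nonneg_left hd' h4.le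
    have k3 : R * d ≤ 7 * (c * d) := by nlinarith
    rcases h.hpq with ⟨rfl, rfl⟩ | ⟨rfl, rfl⟩ <;> nlinarith

/-- (c) -/
lemma LI_eB (h : Par n m A c p q) {z z' : ℤ} (hz : |z| ≤ n)
    (hd : z + 2 ≤ z' ∨ z' + 2 ≤ z) :
    eB A c p z' + (240 * m + 1) ≤ LI A c p q T z (teB T p z') := by
  have e := LI_eB_eq A c p q T z z'
  have h1 := r'_le h hz
  have h2 := le_r' h hz
  have h3 := h.margin
  have h4 : 0 < c := by have := h.c_n2; nlinarith [sq_nonneg n]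
  generalize r' c q z = R at *
  rcases hd with hd | hd
  · obtain ⟨d, rfl⟩ : ∃ d, z' = z + d := ⟨z' - z, by ring⟩
    have hd' : 2 ≤ d := by linarith
    simp only [add_sub_cancel_left] at e
    have k1 : 2 * (c * d) ≤ c * d ^ 2 := by nlinarith [mul_nonneg h4.le (mul_nonneg (by linarith : (0:ℤ) ≤ d) (by linarith : (0:ℤ) ≤ d - 2))]
    have k2 : c * 2 ≤ c * d := mul_le_mul_of_nonneg_left hd' h4.le
    have k3 : R * d ≤ 7 * (c * d) := by nlinarith
    rcases h.hpq with ⟨rfl, rfl⟩ | ⟨rfl, rfl⟩ <;> nlinarith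
  · obtain ⟨d, rfl⟩ : ∃ d, z' = z - d := ⟨z - z', by ring⟩
    have hd' : 2 ≤ d := by linarith
    have e' : z - d - z = - d := by ring
    rw [e'] at e
    have k1 : 2 * (c * d) ≤ c * d ^ 2 := by nlinarith [mul_nonneg h4.le (mul_nonneg (by linarith : (0:ℤ) ≤ d) (by linarith : (0:ℤ) ≤ d - 2))]
    have k2 : c * 2 ≤ c * d := mul_le_mul_of_nonneg_left hd' h4.le
    have k3 : 0 ≤ R * d := mul_nonneg (by linarith) (by linarith)
    rcases h.hpq with ⟨rfl, rfl⟩ | ⟨rfl, rfl⟩ <;> nlinarith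

/-- (d) -/
lemma LI_lB (h : Par n m A c p q) {z z' : ℤ} (hz : |z| ≤ n)
    (hd : z' = z ∨ z + 2 ≤ z' ∨ z' + 2 ≤ z) :
    lB A c p z' + (240 * m + 1) ≤ LI A c p q T z (tlB T z') := by
  have e := LI_lB_eq A c p q T z z'
  have h1 := r'_le h hz
  have h2 := le_r' h hz
  have h3 := h.margin
  have h4 : 0 < c := by have := h.c_n2; nlinarith [sq_nonneg n]
  have h5 : 30 - p * (11 - p) = 0 := by rcases h.hpq with ⟨rfl, rfl⟩ | ⟨rfl, rfl⟩ <;> norm_num
  rw [h5, zero_mul, sub_zero] at e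
  generalize r' c q z = R at *
  rcases hd with rfl | hd | hd
  · simp only [sub_self] at e
    rcases h.hpq with ⟨rfl, rfl⟩ | ⟨rfl, rfl⟩ <;> nlinarith
  · obtain ⟨d, rfl⟩ : ∃ d, z' = z + d := ⟨z' - z, by ring⟩
    have hd' : 2 ≤ d := by linarith
    simp only [add_sub_cancel_left] at e
    have k1 : 2 * (c * d) ≤ c * d ^ 2 := by nlinarith [mul_nonneg h4.le (mul_nonneg (by linarith : (0:ℤ) ≤ d) (by linarith : (0:ℤ) ≤ d - 2))]
    have k2 : c * 2 ≤ c * d := mul_le_mul_of_nonneg_left hd' h4.le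
    have k3 : R * d ≤ 7 * (c * d) := by nlinarith
    rcases h.hpq with ⟨rfl, rfl⟩ | ⟨rfl, rfl⟩ <;> nlinarith
  · obtain ⟨d, rfl⟩ : ∃ d, z' = z - d := ⟨z - z', by ring⟩
    have hd' : 2 ≤ d := by linarith
    have e' : z - d - z = - d := by ring
    rw [e'] at e
    have k1 : 2 * (c * d) ≤ c * d ^ 2 := by nlinarith [mul_nonneg h4.le (mul_nonneg (by linarith : (0:ℤ) ≤ d) (by linarith : (0:ℤ) ≤ d - 2))]
    have k2 : c * 2 ≤ c * d := mul_le_mul_of_nonneg_left hd' h4.le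
    have k3 : 0 ≤ R * d := mul_nonneg (by linarith) (by linarith)
    rcases h.hpq with ⟨rfl, rfl⟩ | ⟨rfl, rfl⟩ <;> nlinarith

/-- (e) slopes increase inwards -/
lemma slope_lt (h : Par n m A c p q) {z z' : ℤ} (hz : |z| ≤ n) (hz' : |z'| ≤ n) (hδ' : δ ≤ 8)
    (hd : z + 2 ≤ z') : wb A c z + r' c q z ≤ wb A c z' - r c q z' - δ := by
  have h1 := r_le h hz' hδ'
  have h2 := r'_le h hz
  have h4 : 0 < c := by have := h.c_n2; nlinarith [sq_nonneg n]
  unfold wb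
  nlinarith

lemma slope_lt' (h : Par n m A c p q) {z : ℤ} (hz : |z| ≤ n) (hδ : 0 ≤ δ) :
    wb A c z - r c q z - δ ≤ wb A c z + r' c q z := by
  have h1 := le_r h hz hδ
  have h2 := le_r' h hz
  have h4 : 0 < c := by have := h.c_n2; nlinarith [sq_nonneg n]
  linarith

lemma line_cmp {v v' s s' t τ M : ℤ} (hp : s ≤ s') (hτ : τ ≤ t)
    (h : v' + M ≤ v) : v' + s' * (τ - t) + M ≤ v + s * (τ - t) := by
  nlinarith [mul_nonneg (sub_nonneg.2 hp) (sub_nonneg.2 hτ)]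

lemma LO_shift (A c p q T δ z τ t : ℤ) :
    LO A c p q T δ z τ = LO A c p q T δ z t + p * (wb A c z - r c q z - δ) * (τ - t) := by
  unfold LO; ring

lemma LI_shift (A c p q T z τ t : ℤ) :
    LI A c p q T z τ = LI A c p q T z t + p * (wb A c z + r' c q z) * (τ - t) := by
  unfold LI; ring

lemma LO_tl (A c p q T δ z : ℤ) : LO A c p q T δ z (tlB T z) = lB A c p z := by
  unfold LO; ring

lemma LI_te (A c p q T z : ℤ) : LI A c p q T z (teB T p z) = eB A c p z := by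
  unfold LI; ring

lemma Par.p_pos (h : Par n m A c p q) : 0 ≤ p := by rcases h.hpq with ⟨rfl, _⟩ | ⟨rfl, _⟩ <;> norm_num

/-- (g) outer lines dominate inner ones to the left of the closing slot -/
lemma LO_LO (h : Par n m A c p q) {z z' δ' τ : ℤ} (hz : |z| ≤ n) (hz' : |z'| ≤ n)
    (hδ : 0 ≤ δ) (hδ8 : δ ≤ 8) (hδ' : δ' ≤ 8) (hd : z + 2 ≤ z') (hτ : τ ≤ tlB T z') :
    LO A c p q T δ' z' τ + (240 * m + 1) ≤ LO A c p q T δ z τ := by
  rw [LO_shift A c p q T δ' z' τ (tlB T z'), LO_shift A c p q T δ z τ (tlB T z'), LO_tl]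
  apply line_cmp _ hτ (LO_lB h hz hδ hδ8 (Or.inl hd))
  have h1 := slope_lt h hz hz' hδ' hd
  have h2 := slope_lt' h hz hδ
  exact mul_le_mul_of_nonneg_left (h2.trans h1) h.p_pos

lemma LO_LI (h : Par n m A c p q) {z z' τ : ℤ} (hz : |z| ≤ n) (hz' : |z'| ≤ n)
    (hδ : 0 ≤ δ) (hδ8 : δ ≤ 8) (hd : z' = z ∨ z + 2 ≤ z') (hτ : τ ≤ teB T p z') :
    LI A c p q T z' τ + (240 * m + 1) ≤ LO A c p q T δ z τ := by
  rw [LI_shift A c p q T z' τ (teB T p z'), LO_shift A c p q T δ z τ (teB T p z'), LI_te]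
  apply line_cmp _ hτ (LO_eB h hz hδ hδ8 (by tauto))
  apply mul_le_mul_of_nonneg_left _ h.p_pos
  rcases hd with rfl | hd
  · exact slope_lt' h hz hδ
  · have h1 := slope_lt h hz hz' (le_refl 8) hd
    have h2 := slope_lt' h hz hδ
    have h3 := slope_lt' h hz' (by norm_num : (0:ℤ) ≤ 8)
    linarith

lemma LI_LO (h : Par n m A c p q) {z z' δ' τ : ℤ} (hz : |z| ≤ n) (hz' : |z'| ≤ n)
    (hδ' : δ' ≤ 8) (hd : z + 2 ≤ z') (hτ : τ ≤ tlB T z') :
    LO A c p q T δ' z' τ + (240 * m + 1) ≤ LI A c p q T z τ := by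
  rw [LO_shift A c p q T δ' z' τ (tlB T z'), LI_shift A c p q T z τ (tlB T z'), LO_tl]
  apply line_cmp _ hτ (LI_lB h hz (by tauto))
  exact mul_le_mul_of_nonneg_left (slope_lt h hz hz' hδ' hd) h.p_pos

lemma LI_LI (h : Par n m A c p q) {z z' τ : ℤ} (hz : |z| ≤ n) (hz' : |z'| ≤ n)
    (hd : z + 2 ≤ z') (hτ : τ ≤ teB T p z') :
    LI A c p q T z' τ + (240 * m + 1) ≤ LI A c p q T z τ := by
  rw [LI_shift A c p q T z' τ (teB T p z'), LI_shift A c p q T z τ (teB T p z'), LI_te]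
  apply line_cmp _ hτ (LI_eB h hz (by tauto))
  apply mul_le_mul_of_nonneg_left _ h.p_pos
  have h1 := slope_lt h hz hz' (le_refl 8) hd
  have h3 := slope_lt' h hz' (by norm_num : (0:ℤ) ≤ 8)
  linarith

/-! ### opening side -/

/-- slot values on the opening side; `a = T - 50 c + 16 z` is the start of the opening window -/
def eA (A c p q T z : ℤ) : ℤ := LO A c p q T 0 z (T - 50 * c + 16 * z + p)
def lA (A c p q T z : ℤ) : ℤ := LI A c p q T z (T - 50 * c + 16 * z + 11)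
def eT (A c p q T z : ℤ) : ℤ := LO A c p q T 8 z (T - 50 * c + 16 * z - 16 + p)
def lT (A c p q T w z : ℤ) : ℤ := eT A c p q T z + 8 * p * w
/-- weight of the local job of a tapped wire -/
def sC (A c p q w z : ℤ) : ℤ := p * (2 * (wb A c z - r c q z - 8) - w - (50 * c - 32 * z + q))
/-- line of the local job -/
def LC (A c p q T w z τ : ℤ) : ℤ :=
  eA A c p q T z + sC A c p q w z * (τ - (T - 50 * c + 16 * z + p))

lemma Par.pq (h : Par n m A c p q) : p + q = 11 := by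
  rcases h.hpq with ⟨rfl, rfl⟩ | ⟨rfl, rfl⟩ <;> norm_num

lemma Par.pq30 (h : Par n m A c p q) : p * q = 30 := by
  rcases h.hpq with ⟨rfl, rfl⟩ | ⟨rfl, rfl⟩ <;> norm_num

/-- balance in the opening main window -/
lemma lA_sub_eA (h : Par n m A c p q) (z : ℤ) :
    lA A c p q T z - eA A c p q T z = 30 * (A - 100 * c ^ 2 - 18 * c * z) := by
  unfold lA eA LI LO lB eB teB tlB wb r r'
  rcases h.hpq with ⟨rfl, rfl⟩ | ⟨rfl, rfl⟩ <;> ring

lemma eA_sub_lT (h : Par n m A c p q) (w z : ℤ) :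
    eA A c p q T z - lT A c p q T w z = 8 * sC A c p q w z := by
  unfold eA lT eT sC LO lB eB tlB wb r
  rcases h.hpq with ⟨rfl, rfl⟩ | ⟨rfl, rfl⟩ <;> ring

lemma A_big (h : Par n m A c p q) {z : ℤ} (hz : |z| ≤ n) :
    600 * c ≤ wb A c z - r c q z - 8 := by
  have h1 := r_le h hz (le_refl 8)
  have h2 := h.hA
  have h3 := h.c_n2
  have h4 := h.c_n
  have h5 := abs_le.1 hz
  have h6 := h.hn
  have h7 : 50 ≤ c := by nlinarith [sq_nonneg n]
  unfold wb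
  have h8 : - (c * n) ≤ c * z := by nlinarith
  have h9 : 50 * (c * n) ≤ c ^ 2 := by nlinarith
  nlinarith

/-- (i) -/
lemma lT_lt (h : Par n m A c p q) {w z : ℤ} (hz : |z| ≤ n) (hw : w ≤ 201 * c) :
    lT A c p q T w z + (240 * m + 1) ≤ LO A c p q T 8 z (T - 50 * c + 16 * z - 8 + p) := by
  unfold lT eT
  rw [LO_shift A c p q T 8 z (T - 50 * c + 16 * z - 8 + p) (T - 50 * c + 16 * z - 16 + p)]
  have h1 := A_big h hz
  have h3 := h.margin
  have h4 : 0 < c := by have := h.c_n2; nlinarith [sq_nonneg n]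
  rcases h.hpq with ⟨rfl, rfl⟩ | ⟨rfl, rfl⟩ <;> nlinarith

lemma eA_lt (h : Par n m A c p q) {z : ℤ} (hz : |z| ≤ n) :
    eA A c p q T z + (240 * m + 1) ≤ LO A c p q T 8 z (T - 50 * c + 16 * z + p) := by
  unfold eA LO tlB
  have h3 := h.margin
  have h4 : 0 < c := by have := h.c_n2; nlinarith [sq_nonneg n]
  have h5 := abs_le.1 hz
  have h6 := h.c_n
  have h7 := h.hn
  rcases h.hpq with ⟨rfl, rfl⟩ | ⟨rfl, rfl⟩ <;> nlinarith

/-- (h) the local line dominates the outer line from `l_a` on -/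
lemma LC_dom (h : Par n m A c p q) {w z τ : ℤ} (hz : |z| ≤ n) (hw : w ≤ 201 * c)
    (hτ : T - 50 * c + 16 * z + 11 ≤ τ) :
    LO A c p q T 8 z τ + (240 * m + 1) ≤ LC A c p q T w z τ := by
  have h1 := A_big h hz
  have h3 := h.margin
  have h4 : 0 < c := by have := h.c_n2; nlinarith [sq_nonneg n]
  have h5 := abs_le.1 hz
  have h6 := h.c_n
  have h7 := h.hn
  have hpq := h.pq
  have h8 : LO A c p q T 8 z (T - 50 * c + 16 * z + p)
      = eA A c p q T z + 8 * p * (50 * c - 32 * z + q) := by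
    unfold eA LO tlB
    have : q = 11 - p := by linarith
    subst this; ring
  rw [LO_shift A c p q T 8 z τ (T - 50 * c + 16 * z + p), h8]
  unfold LC sC
  generalize wb A c z - r c q z - 8 = W at *
  obtain ⟨t, rfl⟩ : ∃ t, τ = T - 50 * c + 16 * z + 11 + t := ⟨τ - (T - 50 * c + 16 * z + 11), by ring⟩
  have ht : 0 ≤ t := by linarith
  have g0 : 0 ≤ W - w - (50 * c - 32 * z + q) := by
    rcases h.hpq with ⟨rfl, rfl⟩ | ⟨rfl, rfl⟩ <;> nlinarith
  have g1 : 3 * c + 2 * (50 * c - 32 * z + q) ≤ W - w - (50 * c - 32 * z + q) := by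
    rcases h.hpq with ⟨rfl, rfl⟩ | ⟨rfl, rfl⟩ <;> nlinarith
  have g2 : 0 ≤ (W - w - (50 * c - 32 * z + q)) * t := mul_nonneg g0 ht
  have g3 : 0 ≤ 50 * c - 32 * z + q := by
    rcases h.hpq with ⟨rfl, rfl⟩ | ⟨rfl, rfl⟩ <;> nlinarith
  rcases h.hpq with ⟨rfl, rfl⟩ | ⟨rfl, rfl⟩ <;> nlinarith

end Pool.Agent.H77.Tard.Core
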