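import Mathlib

/-!
# The total weighted tardiness problem on one machine
-/

set_option autoImplicit false

namespace Pool.Agent.H77.Tard

/-- A job: processing time, due date, weight. -/
structure Job where
  /-- processing time -/
  p : ℕ
  /-- due date -/
  d : ℕ
  /-- weight -/
  w : ℕ

/-- Total weighted tardiness of processing the jobs of the list one after the other,
without idle time, starting at time `t`. -/
def twt : ℕ → List Job → ℕ
  | _, [] => 0
  | t, j :: l => j.w * (t + j.p - j.d) + twt (t + j.p) l

/-- Some order of the jobs of the instance `I` has total weighted tardiness at most `k`. -/
def Tardy (I : List Job) (k : ℕ) : Prop := ∃ l : List Job, l.Perm I ∧ twt 0 l ≤ k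

/-- The maximum processing time (`0` if there are no jobs). -/
def pmax (I : List Job) : ℕ := (I.map Job.p).foldr max 0

/-- The code of one binary digit. -/
def digit (b : Bool) : List Bool := if b then [true, false, false] else [false]

/-- The self-delimiting code of a natural number: its binary digits, least significant first,
each of them preceded by the mark `true`, and the end mark `false`. -/
def num (n : ℕ) : List Bool := n.bits.flatMap (fun b => true :: digit b) ++ [false]

/-- The code of a job: its processing time, due date and weight in binary. -/
def jobCode (j : Job) : List Bool := true :: (num j.p ++ true :: (num j.d ++ num j.w))

/-- The code of an instance (jobs, threshold) of the decision problem: the jobs, each of them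
preceded by the mark `true`, the end mark `false`, and the threshold, all numbers in binary. -/
def code (x : List Job × ℕ) : List Bool :=
  true :: ((x.1.flatMap (fun j => true :: jobCode j) ++ [false]) ++ num x.2)

end Pool.Agent.H77.Tard
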