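import Mathlib
import Pool.Agent.H77.Tard.Defs

set_option autoImplicit false
set_option linter.unusedSectionVars false
set_option linter.unusedSimpArgs false
set_option linter.style.haveILetI false

namespace Pool.Agent.H77.Tard

open Finset

section Family

variable {J : Type*} [Fintype J] [DecidableEq J]

/-- completion time of job `j` when the jobs are processed in the order of increasing `pos` -/
def comp (p : J → ℕ) (pos : J → ℕ) (j : J) : ℕ :=
  ∑ i ∈ univ.filter (fun i => pos i ≤ pos j), p i

lemma twt_map_pairwise (f : J → Job) (pos : J → ℕ) :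
    ∀ (L : List J) (t : ℕ), L.Pairwise (fun a b => pos a < pos b) →
      twt t (L.map f) = (L.map (fun j => (f j).w *
        (t + ((L.filter (fun i => decide (pos i ≤ pos j))).map (fun i => (f i).p)).sum
          - (f j).d))).sum := by
  intro L
  induction L with
  | nil => intro t _; simp [twt]
  | cons a L ih =>
    intro t h
    rw [List.pairwise_cons] at h
    obtain ⟨h1, h2⟩ := h
    have hf : L.filter (fun i => decide (pos i ≤ pos a)) = [] := by
      rw [List.filter_eq_nil_iff]
      intro b hb
      simpa using h1 b hb
    simp only [List.map_cons, twt, List.sum_cons]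
    rw [ih (t + (f a).p) h2]
    congr 1
    · simp [List.filter_cons, hf]
    · congr 1
      apply List.map_congr_left
      intro j hj
      have : pos a ≤ pos j := (h1 j hj).le
      simp [List.filter_cons, this, add_assoc]

lemma tardy_iff (I : List Job) (f : J → Job) (hI : (univ.val.map f : Multiset Job) = (I : Multiset Job))
    (k : ℕ) :
    Tardy I k ↔ ∃ pos : J → ℕ, Function.Injective pos ∧
      ∑ j, (f j).w * (comp (fun i => (f i).p) pos j - (f j).d) ≤ k := by
  classical
  have key : ∀ (L : List J) (pos : J → ℕ), (L : Multiset J) = univ.val →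
      L.Pairwise (fun a b => pos a < pos b) →
      twt 0 (L.map f) = ∑ j, (f j).w * (comp (fun i => (f i).p) pos j - (f j).d) := by
    intro L pos hL hp
    rw [twt_map_pairwise f pos L 0 hp]
    have h1 : ∀ g : J → ℕ, (L.map g).sum = ∑ j, g j := by
      intro g
      have : ((L : Multiset J).map g).sum = (univ.val.map g).sum := by rw [hL]
      simpa using this
    rw [h1]
    apply Finset.sum_congr rfl
    intro j _
    congr 2
    rw [Nat.zero_add]
    unfold comp
    have : (((L.filter (fun i => decide (pos i ≤ pos j))) : Multiset J)) =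
        (univ.filter (fun i => pos i ≤ pos j)).val := by
      rw [Finset.filter_val, ← hL]
      simp
    have h2 := congrArg (fun s : Multiset J => (s.map (fun i => (f i).p)).sum) this
    simp only [Multiset.map_coe, Multiset.sum_coe] at h2
    exact h2
  constructor
  · rintro ⟨l, hl, hk⟩
    have h1 : (univ.val.map f : Multiset Job) = (l : Multiset Job) := by
      rw [hI]; exact (Multiset.coe_eq_coe.2 hl.symm)
    -- lift
    have lift : ∀ (l : List Job) (s : Multiset J), s.map f = (l : Multiset Job) →
        ∃ L : List J, (L : Multiset J) = s ∧ L.map f = l := by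
      intro l
      induction l with
      | nil =>
        intro s hs
        refine ⟨[], ?_, rfl⟩
        have : s.map f = 0 := by simpa using hs
        rw [Multiset.map_eq_zero] at this
        simp [this]
      | cons b l ih =>
        intro s hs
        have : s.map f = b ::ₘ (l : Multiset Job) := by simpa using hs
        rw [← Multiset.map_eq_cons] at this
        obtain ⟨a, ha, hb, hs'⟩ := this
        obtain ⟨L, hL, hL2⟩ := ih _ hs'
        refine ⟨a :: L, ?_, ?_⟩
        · rw [← Multiset.cons_coe, hL, Multiset.cons_erase ha]
        · simp [hb, hL2]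
    obtain ⟨L, hL, hL2⟩ := lift l univ.val h1
    have hnd : L.Nodup := by
      rw [← Multiset.coe_nodup, hL]; exact univ.nodup
    have hmem : ∀ j : J, j ∈ L := by
      intro j
      rw [← Multiset.mem_coe, hL]; simp
    refine ⟨fun j => L.idxOf j, ?_, ?_⟩
    · intro a b hab
      exact (List.idxOf_inj (hmem a)).1 hab
    · rw [← key L _ hL ?_, hL2]
      · exact hk
      · rw [List.pairwise_iff_getElem]
        intro i j hi hj hij
        rw [hnd.idxOf_getElem, hnd.idxOf_getElem]
        exact hij
  · rintro ⟨pos, hinj, hk⟩
    let r : J → J → Prop := fun a b => pos a ≤ pos b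
    haveI : DecidableRel r := fun a b => inferInstanceAs (Decidable (pos a ≤ pos b))
    haveI : Std.Total r := ⟨fun a b => le_total _ _⟩
    haveI : IsTrans J r := ⟨fun a b c h1 h2 => le_trans h1 h2⟩
    let L := (univ : Finset J).toList.insertionSort r
    have hLp : L.Perm (univ : Finset J).toList := List.perm_insertionSort r _
    have hL : (L : Multiset J) = univ.val := by
      rw [Multiset.coe_eq_coe.2 hLp]; simp
    have hnd : L.Nodup := by
      rw [← Multiset.coe_nodup, hL]; exact univ.nodup
    have hpw : L.Pairwise r := List.pairwise_insertionSort r _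
    have hpw2 : L.Pairwise (fun a b => pos a < pos b) := by
      have := hpw.and hnd
      refine this.imp ?_
      intro a b h
      exact lt_of_le_of_ne h.1 (fun e => h.2 (hinj e))
    refine ⟨L.map f, ?_, ?_⟩
    · rw [← Multiset.coe_eq_coe, ← hI, ← hL]; simp
    · rw [key L pos hL hpw2]; exact hk

/-! ### basic facts on completion times -/

variable (p : J → ℕ) (pos : J → ℕ)

lemma comp_lt {i j : J} (h : pos i < pos j) : comp p pos i + p j ≤ comp p pos j := by
  unfold comp
  have hj : j ∉ univ.filter (fun a => pos a ≤ pos i) := by simp [h]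
  rw [add_comm, ← Finset.sum_insert hj]
  apply Finset.sum_le_sum_of_subset
  intro a ha
  simp only [mem_insert, mem_filter, mem_univ, true_and] at ha ⊢
  rcases ha with rfl | ha
  · exact le_rfl
  · exact (ha.trans_lt h).le

lemma le_comp (j : J) : p j ≤ comp p pos j := by
  unfold comp
  exact Finset.single_le_sum (f := p) (fun _ _ => Nat.zero_le _) (by simp)

lemma comp_le (j : J) : comp p pos j ≤ ∑ i, p i := by
  unfold comp
  exact Finset.sum_le_sum_of_subset (Finset.filter_subset _ _)

lemma sum_p_comp (hinj : Function.Injective pos) :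
    2 * ∑ j, p j * comp p pos j = (∑ j, p j) ^ 2 + ∑ j, p j ^ 2 := by
  have h1 : ∑ j, p j * comp p pos j = ∑ j, ∑ i, if pos i ≤ pos j then p j * p i else 0 := by
    apply Finset.sum_congr rfl
    intro j _
    unfold comp
    rw [Finset.mul_sum, Finset.sum_filter]
  have h2 : ∑ j, p j * comp p pos j = ∑ j, ∑ i, if pos j ≤ pos i then p j * p i else 0 := by
    rw [h1, Finset.sum_comm]
    apply Finset.sum_congr rfl; intro i _
    apply Finset.sum_congr rfl; intro j _
    split_ifs <;> ring
  have h3 : (∑ j, p j) ^ 2 = ∑ j, ∑ i, p j * p i := by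
    rw [sq, Finset.sum_mul_sum]
  have h4 : ∑ j, p j ^ 2 = ∑ j, ∑ i, if j = i then p j * p i else 0 := by
    apply Finset.sum_congr rfl; intro j _
    simp [sq]
  rw [two_mul, h3, h4]
  nth_rewrite 1 [h1]
  rw [h2, ← Finset.sum_add_distrib, ← Finset.sum_add_distrib]
  apply Finset.sum_congr rfl; intro j _
  rw [← Finset.sum_add_distrib, ← Finset.sum_add_distrib]
  apply Finset.sum_congr rfl; intro i _
  by_cases hij : j = i
  · subst hij; simp
  · have : pos i ≠ pos j := fun e => hij (hinj e).symm
    rcases lt_or_gt_of_ne this with h | h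
    · simp [h.le, not_le.2 h, hij]
    · simp [h.le, not_le.2 h, hij]

lemma comp_disj (hinj : Function.Injective pos) {i j : J} {y : ℕ}
    (hi1 : comp p pos i ≤ y + p i) (hi2 : y < comp p pos i)
    (hj1 : comp p pos j ≤ y + p j) (hj2 : y < comp p pos j) : i = j := by
  by_contra hne
  have : pos i ≠ pos j := fun e => hne (hinj e)
  rcases lt_or_gt_of_ne this with h | h
  · have := comp_lt p pos h; omega
  · have := comp_lt p pos h; omega

lemma comp_cover (hinj : Function.Injective pos) {y : ℕ} (hy : y < ∑ i, p i) :
    ∃ j, comp p pos j ≤ y + p j ∧ y < comp p pos j := by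
  classical
  -- intervals
  let I : J → Finset ℕ := fun j => Finset.Ico (comp p pos j - p j) (comp p pos j)
  have hdis : ∀ i ∈ (univ : Finset J), ∀ j ∈ (univ : Finset J), i ≠ j → Disjoint (I i) (I j) := by
    intro i _ j _ hij
    rw [Finset.disjoint_left]
    intro z hz1 hz2
    simp only [I, Finset.mem_Ico] at hz1 hz2
    exact hij (comp_disj p pos hinj (y := z) (by omega) hz1.2 (by omega) hz2.2)
  have hcard : (univ.biUnion I).card = ∑ i, p i := by
    rw [Finset.card_biUnion hdis]
    apply Finset.sum_congr rfl
    intro j _
    simp only [I, Nat.card_Ico]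
    have := le_comp p pos j
    omega
  have hsub : univ.biUnion I ⊆ Finset.range (∑ i, p i) := by
    intro z hz
    simp only [Finset.mem_biUnion, I, Finset.mem_Ico] at hz
    obtain ⟨j, _, hz1, hz2⟩ := hz
    have := comp_le p pos j
    simp only [Finset.mem_range]; omega
  have heq : univ.biUnion I = Finset.range (∑ i, p i) :=
    Finset.eq_of_subset_of_card_le hsub (by rw [hcard]; simp)
  have : y ∈ univ.biUnion I := by rw [heq]; simpa using hy
  simp only [Finset.mem_biUnion, I, Finset.mem_Ico] at this
  obtain ⟨j, _, h1, h2⟩ := this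
  exact ⟨j, by omega, h2⟩

/-- A family of disjoint intervals `[C j - p j, C j)` covering `[0, H)` is a schedule:
ordering by `C` gives exactly the completion times `C`. -/
lemma comp_of_tiling (C : J → ℕ) (H : ℕ) (hp : ∀ j, 1 ≤ p j) (hC : ∀ j, p j ≤ C j)
    (hCH : ∀ j, C j ≤ H)
    (hdisj : ∀ i j y, C i ≤ y + p i → y < C i → C j ≤ y + p j → y < C j → i = j)
    (hcov : ∀ y < H, ∃ j, C j ≤ y + p j ∧ y < C j) :
    Function.Injective C ∧ ∀ j, comp p C j = C j := by
  classical
  have hinj : Function.Injective C := by
    intro i j hij
    have h1 := hp i; have h2 := hp j; have h3 := hC i; have h4 := hC j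
    exact hdisj i j (C i - 1) (by omega) (by omega) (by omega) (by omega)
  refine ⟨hinj, ?_⟩
  intro j
  unfold comp
  let I : J → Finset ℕ := fun j => Finset.Ico (C j - p j) (C j)
  have hdis : ∀ i ∈ (univ.filter (fun i => C i ≤ C j)), ∀ k ∈ (univ.filter (fun i => C i ≤ C j)),
      i ≠ k → Disjoint (I i) (I k) := by
    intro i _ k _ hik
    rw [Finset.disjoint_left]
    intro z hz1 hz2
    simp only [I, Finset.mem_Ico] at hz1 hz2
    exact hik (hdisj i k z (by omega) hz1.2 (by omega) hz2.2)
  have hcard : ((univ.filter (fun i => C i ≤ C j)).biUnion I).card =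
      ∑ i ∈ univ.filter (fun i => C i ≤ C j), p i := by
    rw [Finset.card_biUnion hdis]
    apply Finset.sum_congr rfl
    intro k _
    simp only [I, Nat.card_Ico]
    have := hC k
    omega
  have heq : (univ.filter (fun i => C i ≤ C j)).biUnion I = Finset.range (C j) := by
    ext z
    simp only [Finset.mem_biUnion, I, Finset.mem_Ico, Finset.mem_range, mem_filter, mem_univ,
      true_and]
    constructor
    · rintro ⟨k, hk1, hk2, hk3⟩; omega
    · intro hz
      have hzH : z < H := lt_of_lt_of_le hz (hCH j)
      obtain ⟨k, hk1, hk2⟩ := hcov z hzH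
      refine ⟨k, ?_, by omega, hk2⟩
      by_contra hcon
      push Not at hcon
      have h1 := hp j; have h3 := hC j
      have : k = j := hdisj k j (C j - 1) (by omega) (by omega) (by omega) (by omega)
      subst this
      omega
  rw [← hcard, heq]; simp

end Family

end Pool.Agent.H77.Tard
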