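import Mathlib
import Pool.Agent.H77.Tard.Order

set_option autoImplicit false
set_option linter.unusedSectionVars false
set_option linter.unusedSimpArgs false
set_option linter.unusedVariables false

namespace Pool.Agent.H77.Tard

open Finset

/-- Windows, flexible jobs `F` (lengths 5, 6, 8), blocking unit jobs `X`. -/
structure Layout (F X W : Type) [Fintype F] [Fintype X] [Fintype W] where
  S : W → ℕ
  P : W → ℕ
  Q : W → ℕ
  H : ℕ
  pf : F → ℕ
  df : F → ℕ
  ef : F → ℕ
  ux : X → ℕ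
  Λ : ℕ
  hPQ : ∀ t, (P t = 5 ∧ Q t = 6) ∨ (P t = 5 ∧ Q t = 8) ∨ (P t = 6 ∧ Q t = 8)
  hpf : ∀ f, pf f = 5 ∨ pf f = 6 ∨ pf f = 8
  sep : ∀ t t', t ≠ t' → S t + P t + Q t < S t' ∨ S t' + P t' + Q t' < S t
  hor : ∀ t, S t + P t + Q t ≤ H
  uxH : ∀ x, ux x < H
  uxinj : Function.Injective ux
  uxwin : ∀ x t, ux x < S t ∨ S t + P t + Q t ≤ ux x
  uxcov : ∀ y < H, (∃ x, ux x = y) ∨ ∃ t, S t ≤ y ∧ y < S t + P t + Q t
  card : Fintype.card F = 2 * Fintype.card W
  total : ∑ f, pf f + Fintype.card X = H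

namespace Layout

variable {F X W : Type} [Fintype F] [Fintype X] [Fintype W] [DecidableEq F] [DecidableEq X]
  [DecidableEq W] (L : Layout F X W)

def p : F ⊕ X → ℕ := Sum.elim L.pf (fun _ => 1)
def d : F ⊕ X → ℕ := Sum.elim L.df (fun x => L.ux x + 1)
def w : F ⊕ X → ℕ := Sum.elim (fun f => L.Λ * L.pf f + L.ef f) (fun _ => 2 * L.Λ)

@[simp] lemma p_inl (f : F) : L.p (Sum.inl f) = L.pf f := rfl
@[simp] lemma p_inr (x : X) : L.p (Sum.inr x) = 1 := rfl
@[simp] lemma d_inl (f : F) : L.d (Sum.inl f) = L.df f := rfl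
@[simp] lemma d_inr (x : X) : L.d (Sum.inr x) = L.ux x + 1 := rfl
@[simp] lemma w_inl (f : F) : L.w (Sum.inl f) = L.Λ * L.pf f + L.ef f := rfl
@[simp] lemma w_inr (x : X) : L.w (Sum.inr x) = 2 * L.Λ := rfl

lemma total' : ∑ j, L.p j = L.H := by
  rw [Fintype.sum_sum_type]
  simp only [p_inl, p_inr, Finset.sum_const, Finset.card_univ, smul_eq_mul, mul_one]
  exact L.total

/-- twice the invariant part of the cost -/
def D2 : ℤ := (L.Λ : ℤ) * ((∑ j, (L.p j : ℤ)) ^ 2 + ∑ j, (L.p j : ℤ) ^ 2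
  - 2 * ∑ j, (L.p j : ℤ) * L.d j)

/-- modified cost of job `j` when completed at time `C` -/
def cc (j : F ⊕ X) (C : ℕ) : ℤ :=
  (L.w j : ℤ) * ((C - L.d j : ℕ) : ℤ) - (L.Λ : ℤ) * L.p j * ((C : ℤ) - L.d j)

lemma cc_inl_ge {f : F} {C : ℕ} (h : L.df f ≤ C) :
    L.cc (Sum.inl f) C = (L.ef f : ℤ) * ((C : ℤ) - L.df f) := by
  simp only [cc, w_inl, d_inl, p_inl]
  rw [Nat.cast_sub h]
  push_cast
  ring

lemma cc_inl_lt {f : F} {C : ℕ} (h : C < L.df f) : (L.Λ : ℤ) ≤ L.cc (Sum.inl f) C := by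
  simp only [cc, w_inl, d_inl, p_inl]
  rw [Nat.sub_eq_zero_of_le h.le]
  have h1 : (1 : ℤ) ≤ L.pf f := by
    rcases L.hpf f with h | h | h <;> omega
  have h2 : (1 : ℤ) ≤ (L.df f : ℤ) - C := by omega
  have h3 : (0 : ℤ) ≤ L.Λ := by positivity
  have h4 : (1 : ℤ) ≤ (L.pf f : ℤ) * ((L.df f : ℤ) - C) := by nlinarith
  push_cast
  nlinarith

lemma cc_inr (x : X) (C : ℕ) : L.cc (Sum.inr x) C = (L.Λ : ℤ) * |(C : ℤ) - (L.ux x + 1)| := by
  simp only [cc, w_inr, d_inr, p_inr]
  rcases le_total (L.ux x + 1) C with h | h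
  · rw [Nat.cast_sub h, abs_of_nonneg (by push_cast; omega)]
    push_cast; ring
  · rw [Nat.sub_eq_zero_of_le h, abs_of_nonpos (by push_cast; omega)]
    push_cast; ring

lemma cc_nonneg (j : F ⊕ X) (C : ℕ) : 0 ≤ L.cc j C := by
  rcases j with f | x
  · rcases lt_or_ge C (L.df f) with h | h
    · exact le_trans (by positivity) (L.cc_inl_lt h)
    · rw [L.cc_inl_ge h]
      have : (0 : ℤ) ≤ (C : ℤ) - L.df f := by omega
      positivity
  · rw [cc_inr]; positivity

lemma cost_eq (C : F ⊕ X → ℕ)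
    (hC : 2 * ∑ j, L.p j * C j = (∑ j, L.p j) ^ 2 + ∑ j, L.p j ^ 2) :
    2 * ((∑ j, L.w j * (C j - L.d j) : ℕ) : ℤ) = L.D2 + 2 * ∑ j, L.cc j (C j) := by
  have hC' : 2 * ∑ j, (L.p j : ℤ) * C j = (∑ j, (L.p j : ℤ)) ^ 2 + ∑ j, (L.p j : ℤ) ^ 2 := by
    exact_mod_cast hC
  have h1 : ∑ j, L.cc j (C j) = ((∑ j, L.w j * (C j - L.d j) : ℕ) : ℤ)
      - L.Λ * ((∑ j, (L.p j : ℤ) * C j) - ∑ j, (L.p j : ℤ) * L.d j) := by
    simp only [cc]
    rw [← Finset.sum_sub_distrib, Finset.mul_sum]
    push_cast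
    rw [← Finset.sum_sub_distrib]
    apply Finset.sum_congr rfl
    intro j _
    ring
  rw [h1, D2, ← hC']
  ring

/-- A filling of the windows: `x t` says whether the shorter job is processed first in window `t`,
and `τ f` is the window of the flexible job `f`. -/
def time (x : W → Bool) (τ : F → W) (f : F) : ℕ :=
  if (L.pf f = L.P (τ f) ↔ x (τ f) = true) then L.S (τ f) + L.pf f
  else L.S (τ f) + L.P (τ f) + L.Q (τ f)

structure Valid (x : W → Bool) (τ : F → W) : Prop where
  typ : ∀ f, L.pf f = L.P (τ f) ∨ L.pf f = L.Q (τ f)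
  inj : ∀ f f', τ f = τ f' → L.pf f = L.pf f' → f = f'
  rel : ∀ f, L.df f ≤ L.time x τ f

def fcost (x : W → Bool) (τ : F → W) : ℤ := ∑ f, (L.ef f : ℤ) * ((L.time x τ f : ℤ) - L.df f)

lemma mem_win_unique {t t' : W} {y : ℕ} (h1 : L.S t ≤ y) (h2 : y ≤ L.S t + L.P t + L.Q t)
    (h3 : L.S t' ≤ y) (h4 : y ≤ L.S t' + L.P t' + L.Q t') : t = t' := by
  by_contra h
  rcases L.sep t t' h with h | h <;> omega

lemma bdry {t : W} {y : ℕ} (hy : y < L.H) (h : y + 1 = L.S t ∨ y = L.S t + L.P t + L.Q t) :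
    ∃ x, L.ux x = y := by
  rcases L.uxcov y hy with h1 | ⟨t', h1, h2⟩
  · exact h1
  · exfalso
    have hne : t ≠ t' := by rintro rfl; omega
    rcases L.sep t t' hne with h3 | h3 <;> omega

theorem sound (pos : F ⊕ X → ℕ) (hinj : Function.Injective pos)
    (hcost : 2 * ((∑ j, L.w j * (comp L.p pos j - L.d j) : ℕ) : ℤ) < L.D2 + 2 * L.Λ) :
    ∃ x τ, L.Valid x τ ∧
      2 * ((∑ j, L.w j * (comp L.p pos j - L.d j) : ℕ) : ℤ) = L.D2 + 2 * L.fcost x τ := by
  classical
  have h0 := L.cost_eq (fun j => comp L.p pos j) (sum_p_comp L.p pos hinj)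
  have hsum : ∑ j, L.cc j (comp L.p pos j) < L.Λ := by linarith
  have hlt : ∀ j, L.cc j (comp L.p pos j) < L.Λ := by
    intro j
    refine lt_of_le_of_lt ?_ hsum
    exact Finset.single_le_sum (f := fun j => L.cc j (comp L.p pos j))
      (fun i _ => L.cc_nonneg i _) (mem_univ j)
  have hΛ : (0 : ℤ) < L.Λ := by
    refine lt_of_le_of_lt ?_ hsum
    exact Finset.sum_nonneg (fun i _ => L.cc_nonneg i _)
  have hux : ∀ x, comp L.p pos (Sum.inr x) = L.ux x + 1 := by
    intro x
    have h1 := hlt (Sum.inr x)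
    rw [cc_inr] at h1
    have h2 : |((comp L.p pos (Sum.inr x) : ℕ) : ℤ) - (L.ux x + 1)| < 1 := by
      by_contra h
      push Not at h
      nlinarith
    rw [Int.abs_lt_one_iff] at h2
    omega
  have hrel : ∀ f, L.df f ≤ comp L.p pos (Sum.inl f) := by
    intro f
    by_contra h
    push Not at h
    have h1 := hlt (Sum.inl f)
    have h2 := L.cc_inl_lt h
    linarith
  have hdis : ∀ {i j : F ⊕ X} {y : ℕ}, comp L.p pos i ≤ y + L.p i → y < comp L.p pos i →
      comp L.p pos j ≤ y + L.p j → y < comp L.p pos j → i = j := by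
    intro i j y h1 h2 h3 h4
    exact comp_disj L.p pos hinj h1 h2 h3 h4
  have hcov : ∀ y < L.H, ∃ j, comp L.p pos j ≤ y + L.p j ∧ y < comp L.p pos j := by
    intro y hy
    exact comp_cover L.p pos hinj (by rw [L.total']; exact hy)
  have hCH : ∀ j, comp L.p pos j ≤ L.H := by
    intro j; rw [← L.total']; exact comp_le L.p pos j
  have hpC : ∀ f, L.pf f ≤ comp L.p pos (Sum.inl f) := fun f => le_comp L.p pos (Sum.inl f)
  -- flexible cover of window points
  have hcovw : ∀ t y, L.S t ≤ y → y < L.S t + L.P t + L.Q t →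
      ∃ f, comp L.p pos (Sum.inl f) ≤ y + L.pf f ∧ y < comp L.p pos (Sum.inl f) := by
    intro t y h1 h2
    obtain ⟨j, hj1, hj2⟩ := hcov y (lt_of_lt_of_le h2 (L.hor t))
    rcases j with f | x
    · exact ⟨f, hj1, hj2⟩
    · exfalso
      rw [hux] at hj1 hj2
      simp only [p_inr] at hj1
      rcases L.uxwin x t with h | h <;> omega
  -- flexible jobs do not cover boundary points
  have hnb : ∀ t y f, (y + 1 = L.S t ∨ y = L.S t + L.P t + L.Q t) →
      comp L.p pos (Sum.inl f) ≤ y + L.pf f → y < comp L.p pos (Sum.inl f) → False := by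
    intro t y f h h1 h2
    have hy : y < L.H := lt_of_lt_of_le h2 (hCH _)
    obtain ⟨x, hx⟩ := L.bdry hy h
    have h3 : comp L.p pos (Sum.inr x) ≤ y + L.p (Sum.inr x) := by
      rw [hux]; simp only [p_inr]; omega
    have h4 : y < comp L.p pos (Sum.inr x) := by rw [hux]; omega
    have := hdis (i := Sum.inl f) (j := Sum.inr x) h1 h2 h3 h4
    exact absurd this (by simp)
  have hend : ∀ t y f, L.S t ≤ y → y < L.S t + L.P t + L.Q t →
      comp L.p pos (Sum.inl f) ≤ y + L.pf f → y < comp L.p pos (Sum.inl f) →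
      comp L.p pos (Sum.inl f) ≤ L.S t + L.P t + L.Q t := by
    intro t y f h1 h2 h3 h4
    by_contra h
    push Not at h
    exact hnb t (L.S t + L.P t + L.Q t) f (Or.inr rfl) (by omega) h
  have hwin : ∀ t, ∃ f1 f2, f1 ≠ f2 ∧ comp L.p pos (Sum.inl f1) = L.S t + L.pf f1 ∧
      comp L.p pos (Sum.inl f2) = L.S t + L.P t + L.Q t ∧
      ((L.pf f1 = L.P t ∧ L.pf f2 = L.Q t) ∨ (L.pf f1 = L.Q t ∧ L.pf f2 = L.P t)) := by
    intro t
    have hPQ := L.hPQ t
    obtain ⟨f1, a1, b1⟩ := hcovw t (L.S t) le_rfl (by omega)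
    have c1 : comp L.p pos (Sum.inl f1) = L.S t + L.pf f1 := by
      by_contra h
      have h1 := hpC f1
      exact hnb t (L.S t - 1) f1 (Or.inl (by omega)) (by omega) (by omega)
    have e1 := hend t (L.S t) f1 le_rfl (by omega) a1 b1
    have hp1 := L.hpf f1
    obtain ⟨f2, a2, b2⟩ := hcovw t (L.S t + L.pf f1) (by omega) (by omega)
    have ne12 : f1 ≠ f2 := by
      rintro rfl; omega
    have c2 : comp L.p pos (Sum.inl f2) = L.S t + L.pf f1 + L.pf f2 := by
      by_contra h
      have h1 := hpC f2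
      have := hdis (i := Sum.inl f1) (j := Sum.inl f2) (y := L.S t + L.pf f1 - 1)
        (by simp only [p_inl]; omega) (by omega) (by simp only [p_inl]; omega) (by omega)
      exact ne12 (Sum.inl_injective this)
    have e2 := hend t (L.S t + L.pf f1) f2 (by omega) (by omega) a2 b2
    have hp2 := L.hpf f2
    have e2' : comp L.p pos (Sum.inl f2) = L.S t + L.P t + L.Q t := by
      by_contra h
      obtain ⟨f3, a3, b3⟩ := hcovw t (L.S t + L.pf f1 + L.pf f2) (by omega) (by omega)
      have ne23 : f2 ≠ f3 := by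
        rintro rfl; omega
      have c3 : comp L.p pos (Sum.inl f3) = L.S t + L.pf f1 + L.pf f2 + L.pf f3 := by
        by_contra h
        have h1 := hpC f3
        have := hdis (i := Sum.inl f2) (j := Sum.inl f3) (y := L.S t + L.pf f1 + L.pf f2 - 1)
          (by simp only [p_inl]; omega) (by omega) (by simp only [p_inl]; omega) (by omega)
        exact ne23 (Sum.inl_injective this)
      have e3 := hend t (L.S t + L.pf f1 + L.pf f2) f3 (by omega) (by omega) a3 b3
      have hp3 := L.hpf f3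
      omega
    refine ⟨f1, f2, ne12, c1, e2', ?_⟩
    omega
  choose F1 F2 hne hF1 hF2 hF12 using hwin
  let x : W → Bool := fun t => decide (L.pf (F1 t) = L.P t)
  let g : W × Bool → F := fun a => if a.2 then F1 a.1 else F2 a.1
  have hgC : ∀ t b, L.S t ≤ comp L.p pos (Sum.inl (g (t, b))) ∧
      comp L.p pos (Sum.inl (g (t, b))) ≤ L.S t + L.P t + L.Q t := by
    intro t b
    have hPQ := L.hPQ t
    have h12 := hF12 t
    cases b
    · simp only [g, Bool.false_eq_true, if_false]
      rw [hF2]; omega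
    · simp only [g, if_true]
      rw [hF1]; omega
  have hginj : Function.Injective g := by
    rintro ⟨t, b⟩ ⟨t', b'⟩ h
    have h1 := hgC t b
    have h2 := hgC t' b'
    rw [h] at h1
    have ht : t = t' := L.mem_win_unique h1.1 h1.2 h2.1 h2.2
    subst ht
    have : b = b' := by
      cases b <;> cases b' <;> simp [g] at h ⊢
      · exact hne t h.symm
      · exact hne t h
    rw [this]
  have hgbij : Function.Bijective g := by
    rw [Fintype.bijective_iff_injective_and_card]
    refine ⟨hginj, ?_⟩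
    rw [L.card]; simp [mul_comm]
  have hsurj : ∀ f, ∃ t, f = F1 t ∨ f = F2 t := by
    intro f
    obtain ⟨⟨t, b⟩, rfl⟩ := hgbij.2 f
    refine ⟨t, ?_⟩
    cases b <;> simp [g]
  choose τ hτ using hsurj
  have htime : ∀ f, L.time x τ f = comp L.p pos (Sum.inl f) := by
    intro f
    have hPQ := L.hPQ (τ f)
    have h12 := hF12 (τ f)
    unfold time
    rcases hτ f with h | h
    · have e1 : L.pf f = L.pf (F1 (τ f)) := by rw [← h]
      have e2 : comp L.p pos (Sum.inl f) = L.S (τ f) + L.pf f := by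
        rw [e1, ← hF1 (τ f), ← h]
      rw [if_pos, e2]
      simp only [x, decide_eq_true_eq]
      rw [e1]
    · have e1 : L.pf f = L.pf (F2 (τ f)) := by rw [← h]
      have e2 : comp L.p pos (Sum.inl f) = L.S (τ f) + L.P (τ f) + L.Q (τ f) := by
        rw [← hF2 (τ f), ← h]
      rw [if_neg, e2]
      simp only [x, decide_eq_true_eq]
      rw [e1]
      omega
  refine ⟨x, τ, ⟨?_, ?_, ?_⟩, ?_⟩
  · intro f
    have h12 := hF12 (τ f)
    rcases hτ f with h | h
    · have e1 : L.pf f = L.pf (F1 (τ f)) := by rw [← h]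
      omega
    · have e1 : L.pf f = L.pf (F2 (τ f)) := by rw [← h]
      omega
  · intro f f' h1 h2
    have hPQ := L.hPQ (τ f)
    have h12 := hF12 (τ f)
    rcases hτ f with h | h <;> rcases hτ f' with h' | h'
    · rw [h, h', h1]
    · exfalso
      have e1 : L.pf f = L.pf (F1 (τ f)) := by rw [← h]
      have e2 : L.pf f' = L.pf (F2 (τ f)) := by rw [h1, ← h']
      omega
    · exfalso
      have e1 : L.pf f = L.pf (F2 (τ f)) := by rw [← h]
      have e2 : L.pf f' = L.pf (F1 (τ f)) := by rw [h1, ← h']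
      omega
    · rw [h, h', h1]
  · intro f
    rw [htime]; exact hrel f
  · rw [h0]
    congr 2
    rw [Fintype.sum_sum_type]
    have h2 : ∑ x, L.cc (Sum.inr x) (comp L.p pos (Sum.inr x)) = 0 := by
      apply Finset.sum_eq_zero
      intro x _
      rw [cc_inr, hux]; simp
    rw [h2, add_zero, fcost]
    apply Finset.sum_congr rfl
    intro f _
    rw [L.cc_inl_ge (hrel f), htime]

lemma time_cases {x : W → Bool} {τ : F → W} (hv : L.Valid x τ) (f : F) :
    (x (τ f) = true ∧ L.pf f = L.P (τ f) ∧ L.time x τ f = L.S (τ f) + L.P (τ f)) ∨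
    (x (τ f) = true ∧ L.pf f = L.Q (τ f) ∧ L.time x τ f = L.S (τ f) + L.P (τ f) + L.Q (τ f)) ∨
    (x (τ f) = false ∧ L.pf f = L.Q (τ f) ∧ L.time x τ f = L.S (τ f) + L.Q (τ f)) ∨
    (x (τ f) = false ∧ L.pf f = L.P (τ f) ∧
      L.time x τ f = L.S (τ f) + L.P (τ f) + L.Q (τ f)) := by
  have hPQ := L.hPQ (τ f)
  have ht := hv.typ f
  have hne : L.Q (τ f) ≠ L.P (τ f) := by omega
  unfold time
  cases hx : x (τ f) <;> rcases ht with h | h <;> simp [h, hne]

theorem complete {x : W → Bool} {τ : F → W} (hv : L.Valid x τ) :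
    ∃ pos : F ⊕ X → ℕ, Function.Injective pos ∧ (∀ f, comp L.p pos (Sum.inl f) = L.time x τ f) ∧
      (∀ u, comp L.p pos (Sum.inr u) = L.ux u + 1) ∧
      2 * ((∑ j, L.w j * (comp L.p pos j - L.d j) : ℕ) : ℤ) = L.D2 + 2 * L.fcost x τ := by
  classical
  let C : F ⊕ X → ℕ := Sum.elim (L.time x τ) (fun u => L.ux u + 1)
  have hCl : ∀ f, C (Sum.inl f) = L.time x τ f := fun _ => rfl
  have hCr : ∀ u, C (Sum.inr u) = L.ux u + 1 := fun _ => rfl
  have hbd : ∀ f, L.S (τ f) + L.pf f ≤ L.time x τ f ∧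
      L.time x τ f ≤ L.S (τ f) + L.P (τ f) + L.Q (τ f) := by
    intro f
    have h1 := hv.typ f
    unfold time
    split_ifs <;> omega
  -- surjectivity
  have hsurj : ∀ t : W, (∃ f, τ f = t ∧ L.pf f = L.P t) ∧ (∃ f, τ f = t ∧ L.pf f = L.Q t) := by
    let g : F → W × Bool := fun f => (τ f, decide (L.pf f = L.P (τ f)))
    have hginj : Function.Injective g := by
      intro f f' h
      simp only [g, Prod.mk.injEq, decide_eq_decide] at h
      apply hv.inj f f' h.1
      have h1 := hv.typ f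
      have h2 := hv.typ f'
      rw [← h.1] at h2
      have h3 := h.2
      rw [← h.1] at h3
      by_cases h4 : L.pf f = L.P (τ f)
      · rw [h4, h3.1 h4]
      · have h5 : ¬ L.pf f' = L.P (τ f) := fun e => h4 (h3.2 e)
        rcases h1 with h1 | h1
        · exact absurd h1 h4
        · rcases h2 with h2 | h2
          · exact absurd h2 h5
          · rw [h1, h2]
    have hgbij : Function.Bijective g := by
      rw [Fintype.bijective_iff_injective_and_card]
      refine ⟨hginj, ?_⟩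
      rw [L.card]; simp [mul_comm]
    intro t
    constructor
    · obtain ⟨f, hf⟩ := hgbij.2 (t, true)
      simp only [g, Prod.mk.injEq, decide_eq_true_eq] at hf
      exact ⟨f, hf.1, by rw [← hf.1]; exact hf.2⟩
    · obtain ⟨f, hf⟩ := hgbij.2 (t, false)
      simp only [g, Prod.mk.injEq, decide_eq_false_iff_not] at hf
      refine ⟨f, hf.1, ?_⟩
      rw [← hf.1]
      rcases hv.typ f with h | h
      · exact absurd h hf.2
      · exact h
  have htil := comp_of_tiling L.p C L.H
    (by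
      rintro (f | u)
      · rcases L.hpf f with h | h | h <;> simp [h]
      · simp)
    (by
      rintro (f | u)
      · rw [hCl, p_inl]; have := hbd f; omega
      · rw [hCr, p_inr]; omega)
    (by
      rintro (f | u)
      · rw [hCl]; have := hbd f; have := L.hor (τ f); omega
      · rw [hCr]; have := L.uxH u; omega)
    (by
      rintro (f | u) (f' | u') y h1 h2 h3 h4
      · rw [hCl, p_inl] at h1 h3
        rw [hCl] at h2 h4
        have b1 := hbd f
        have b2 := hbd f'
        have ht : τ f = τ f' := L.mem_win_unique (y := y) (by omega) (by omega) (by omega) (by omega)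
        have hPQ := L.hPQ (τ f)
        by_contra hne
        have hne' : L.pf f ≠ L.pf f' := fun e => hne (by rw [hv.inj f f' ht e])
        have k1 := L.time_cases hv f
        have k2 := L.time_cases hv f'
        rw [← ht] at k2
        cases hx : x (τ f)
        · simp only [hx, Bool.false_eq_true, false_and, false_or, true_and] at k1 k2
          rcases k1 with ⟨k1, k1'⟩ | ⟨k1, k1'⟩ <;> rcases k2 with ⟨k2, k2'⟩ | ⟨k2, k2'⟩ <;> omega
        · simp only [hx, Bool.true_eq_false, false_and, or_false, true_and] at k1 k2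
          rcases k1 with ⟨k1, k1'⟩ | ⟨k1, k1'⟩ <;> rcases k2 with ⟨k2, k2'⟩ | ⟨k2, k2'⟩ <;> omega
      · exfalso
        rw [hCl, p_inl] at h1
        rw [hCl] at h2
        rw [hCr, p_inr] at h3
        rw [hCr] at h4
        have b1 := hbd f
        have := L.uxwin u' (τ f)
        omega
      · exfalso
        rw [hCl, p_inl] at h3
        rw [hCl] at h4
        rw [hCr, p_inr] at h1
        rw [hCr] at h2
        have b1 := hbd f'
        have := L.uxwin u (τ f')
        omega
      · rw [hCr, p_inr] at h1 h3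
        rw [hCr] at h2 h4
        have : L.ux u = L.ux u' := by omega
        rw [L.uxinj this])
    (by
      intro y hy
      rcases L.uxcov y hy with ⟨u, hu⟩ | ⟨t, h1, h2⟩
      · refine ⟨Sum.inr u, ?_, ?_⟩
        · rw [hCr, p_inr]; omega
        · rw [hCr]; omega
      · obtain ⟨⟨f, hf1, hf2⟩, ⟨f', hf1', hf2'⟩⟩ := hsurj t
        have hPQ := L.hPQ t
        have e1 : C (Sum.inl f) = if x t = true then L.S t + L.P t else L.S t + L.P t + L.Q t := by
          rw [hCl]; unfold time; rw [hf1, hf2]; simp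
        have e2 : C (Sum.inl f') = if x t = true then L.S t + L.P t + L.Q t
            else L.S t + L.Q t := by
          rw [hCl]; unfold time; rw [hf1', hf2']
          have : L.Q t ≠ L.P t := by omega
          by_cases hx : x t = true <;> simp [this, hx]
        by_cases hx : x t = true
        · rw [if_pos hx] at e1 e2
          by_cases hy2 : y < L.S t + L.P t
          · refine ⟨Sum.inl f, ?_, ?_⟩
            · rw [e1, p_inl]; omega
            · rw [e1]; omega
          · refine ⟨Sum.inl f', ?_, ?_⟩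
            · rw [e2, p_inl]; omega
            · rw [e2]; omega
        · rw [if_neg hx] at e1 e2
          by_cases hy2 : y < L.S t + L.Q t
          · refine ⟨Sum.inl f', ?_, ?_⟩
            · rw [e2, p_inl]; omega
            · rw [e2]; omega
          · refine ⟨Sum.inl f, ?_, ?_⟩
            · rw [e1, p_inl]; omega
            · rw [e1]; omega)
  obtain ⟨hinj, hcomp⟩ := htil
  refine ⟨C, hinj, ?_, ?_, ?_⟩
  · intro f; rw [hcomp]; rfl
  · intro u; rw [hcomp]; rfl
  · rw [L.cost_eq (fun j => comp L.p C j) (sum_p_comp L.p C hinj)]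
    congr 2
    rw [Fintype.sum_sum_type]
    have h2 : ∑ u, L.cc (Sum.inr u) (comp L.p C (Sum.inr u)) = 0 := by
      apply Finset.sum_eq_zero
      intro u _
      rw [cc_inr, hcomp, hCr]; simp
    rw [h2, add_zero, fcost]
    apply Finset.sum_congr rfl
    intro f _
    rw [hcomp, hCl, L.cc_inl_ge (hv.rel f)]

end Layout

end Pool.Agent.H77.Tard
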