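import Mathlib
import Pool.Agent.H77.Tard.Fill

set_option autoImplicit false
set_option linter.unusedSectionVars false
set_option linter.unusedSimpArgs false
set_option linter.unusedVariables false

namespace Pool.Agent.H77.Tard

open Finset

namespace Layout

variable {F X W : Type} [Fintype F] [Fintype X] [Fintype W] [DecidableEq F] [DecidableEq X]
  [DecidableEq W] (L : Layout F X W)

/-- completion time of a job of length `a` in window `t`, processed first (`b = true`) or second -/
def slot (t : W) (a : ℕ) (b : Bool) : ℕ := if b then L.S t + a else L.S t + L.P t + L.Q t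

/-- is the job `f` first in its window? -/
def ear (x : W → Bool) (τ : F → W) (f : F) : Bool := decide (L.pf f = L.P (τ f) ↔ x (τ f) = true)

lemma time_eq_slot (x : W → Bool) (τ : F → W) (f : F) :
    L.time x τ f = L.slot (τ f) (L.pf f) (L.ear x τ f) := by
  unfold time slot ear
  by_cases h : (L.pf f = L.P (τ f) ↔ x (τ f) = true) <;> simp [h]

/-- reduced cost -/
def rc (V : W → ℕ → Bool → ℤ) (c : F → ℤ) (f : F) (t : W) (b : Bool) : ℤ :=
  (L.ef f : ℤ) * ((L.slot t (L.pf f) b : ℤ) - L.df f) + c f - V t (L.pf f) b

theorem fcost_eq {x : W → Bool} {τ : F → W} (hv : L.Valid x τ) (V : W → ℕ → Bool → ℤ) (c : F → ℤ)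
    (hbal : ∀ t, V t (L.P t) true + V t (L.Q t) false = V t (L.P t) false + V t (L.Q t) true) :
    L.fcost x τ = ∑ t, (V t (L.P t) true + V t (L.Q t) false) - ∑ f, c f +
      ∑ f, L.rc V c f (τ f) (L.ear x τ f) := by
  classical
  have h1 : ∑ f, V (τ f) (L.pf f) (L.ear x τ f) =
      ∑ t, (V t (L.P t) true + V t (L.Q t) false) := by
    let g : F → W × Bool := fun f => (τ f, decide (L.pf f = L.P (τ f)))
    have hginj : Function.Injective g := by
      intro f f' h
      simp only [g, Prod.mk.injEq, decide_eq_decide] at h
      apply hv.inj f f' h.1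
      have h1 := hv.typ f
      have h2 := hv.typ f'
      rw [← h.1] at h2
      have h3 := h.2
      rw [← h.1] at h3
      by_cases h4 : L.pf f = L.P (τ f)
      · rw [h4, h3.1 h4]
      · have h5 : ¬ L.pf f' = L.P (τ f) := fun e => h4 (h3.2 e)
        rcases h1 with h1 | h1
        · exact absurd h1 h4
        · rcases h2 with h2 | h2
          · exact absurd h2 h5
          · rw [h1, h2]
    have hgbij : Function.Bijective g := by
      rw [Fintype.bijective_iff_injective_and_card]
      refine ⟨hginj, ?_⟩
      rw [L.card]; simp [mul_comm]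
    let U : W × Bool → ℤ := fun a => if a.2 then V a.1 (L.P a.1) (x a.1)
      else V a.1 (L.Q a.1) (!(x a.1))
    have h2 : ∀ f, V (τ f) (L.pf f) (L.ear x τ f) = U (g f) := by
      intro f
      have hPQ := L.hPQ (τ f)
      have hne : L.Q (τ f) ≠ L.P (τ f) := by omega
      simp only [U, g, ear]
      rcases hv.typ f with h | h
      · rw [h]; simp
      · rw [h]; simp [hne]
    rw [Finset.sum_congr rfl (fun f _ => h2 f)]
    rw [hgbij.sum_comp U]
    rw [Fintype.sum_prod_type]
    apply Finset.sum_congr rfl
    intro t _
    have := hbal t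
    simp only [U, Fintype.sum_bool, if_true, Bool.false_eq_true, if_false]
    cases x t
    · simp only [Bool.not_false]; linarith
    · simp only [Bool.not_true]
  unfold fcost rc
  rw [← h1, ← Finset.sum_sub_distrib, ← Finset.sum_add_distrib]
  apply Finset.sum_congr rfl
  intro f _
  rw [time_eq_slot]
  ring

end Layout

end Pool.Agent.H77.Tard
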