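import Mathlib
import Pool.Agent.H77.Tard.Core
import Pool.Agent.H77.Tard.Dual

set_option autoImplicit false
set_option linter.unusedSectionVars false
set_option linter.unusedSimpArgs false
set_option linter.unusedVariables false

namespace Pool.Agent.H77.Tard.Inst

open Finset

/-! The instance built from `n` vertices, `m` edges; `tv (2k), tv (2k+1)` are the end points of
edge `k`. -/

section raw

variable (n m : ℕ) (tv : ℕ → ℕ)

/-- scale -/
def sc : ℕ := 50 * (n ^ 2 + m + 1)
/-- time between consecutive sweeps -/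
def NN : ℕ := 50 * sc n m
/-- position of vertex `i` in sweep `s` -/
def pos (s i : ℕ) : ℕ := if s % 2 = 0 then i else n - 1 - i
/-- start of the main window of vertex `i` in sweep `s` -/
def St (s i : ℕ) : ℕ := s * NN n m + 32 * pos n s i + 16
/-- length class linking sweeps `s` and `s + 1` -/
def pp (s : ℕ) : ℕ := if s % 2 = 0 then 5 else 6
/-- the other length -/
def qq (s : ℕ) : ℕ := if s % 2 = 0 then 6 else 5
/-- centred position -/
def zz (s i : ℕ) : ℤ := 2 * (pos n s i : ℤ) - ((n : ℤ) - 1)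
/-- base weight of sweep `s` -/
def AA (s : ℕ) : ℤ := 50 * (sc n m : ℤ) ^ 2 * (2 * s + 1)
/-- weight per unit length at the main window of vertex `i` in sweep `s` -/
def om (s i : ℕ) : ℤ := AA n m s - 18 * sc n m * zz n s i
/-- weight parameter of the tap window of sweep `s` -/
def wT (s : ℕ) : ℤ :=
  if s % 2 = 0 then 2 * NN n m + 64 * ((tv s : ℤ) + tv (s + 1) - ((n : ℤ) - 1)) else 4 * NN n m + 1
def dl (s i : ℕ) : ℤ := if i = tv s then 8 else 0
/-- weight of the inner job of wire `i` between sweeps `s` and `s + 1` -/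
def wI (s i : ℕ) : ℤ :=
  pp s * (Core.wb (AA n m (s + 1)) (sc n m) (zz n s i) + Core.r' (sc n m) (qq s) (zz n s i))
/-- weight of the outer job -/
def wO (s i : ℕ) : ℤ :=
  pp s * (Core.wb (AA n m (s + 1)) (sc n m) (zz n s i) - Core.r (sc n m) (qq s) (zz n s i)
    - dl tv s i)
/-- weight of the local job of the tapped wire -/
def wC (s : ℕ) : ℤ :=
  Core.sC (AA n m (s + 1)) (sc n m) (pp s) (qq s) (wT n m tv s) (zz n s (tv s))
/-- weights of the two gadget jobs -/
def wD (s : ℕ) : ℤ := if s % 2 = 0 then 32 * NN n m - 32 else 32 * NN n m + 48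

/-- centre of the closing sweep `s + 1` -/
def TT (s : ℕ) : ℤ := 16 + (s + 1) * NN n m + 16 * ((n : ℤ) - 1)

def eAs (s i : ℕ) : ℤ := Core.eA (AA n m (s + 1)) (sc n m) (pp s) (qq s) (TT n m s) (zz n s i)
def lAs (s i : ℕ) : ℤ := Core.lA (AA n m (s + 1)) (sc n m) (pp s) (qq s) (TT n m s) (zz n s i)
def eBs (s i : ℕ) : ℤ := Core.eB (AA n m (s + 1)) (sc n m) (pp s) (zz n s i)
def lBs (s i : ℕ) : ℤ := Core.lB (AA n m (s + 1)) (sc n m) (pp s) (zz n s i)
def eTs (s : ℕ) : ℤ :=
  Core.eT (AA n m (s + 1)) (sc n m) (pp s) (qq s) (TT n m s) (zz n s (tv s))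
def lTs (s : ℕ) : ℤ :=
  Core.lT (AA n m (s + 1)) (sc n m) (pp s) (qq s) (TT n m s) (wT n m tv s) (zz n s (tv s))

/-- gadget potentials -/
def Gs (s : ℕ) (b : Bool) : ℤ :=
  if s % 2 = 0 then (if b then 0 else 40 * wT n m tv s)
  else (32 * NN n m - 32) * ((St n m s (tv s) : ℤ) - St n m (s - 1) (tv (s - 1)) + 6)
    - (if b then 48 * wT n m tv s else 0)

/-- potential and era of the slots of main windows -/
def VM (s i a : ℕ) (b : Bool) : ℤ :=
  if a = pp s then
    (if s < 2 * m then (if b then eAs n m s i else lAs n m s i)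
      else (if b then 0 else 30 * om n m s i))
  else (if s = 0 then (if b then 0 else 30 * om n m s i)
      else (if b then eBs n m (s - 1) i else lBs n m (s - 1) i))

def VT (s a : ℕ) (b : Bool) : ℤ :=
  if a = 8 then Gs n m tv s b else (if b then eTs n m tv s else lTs n m tv s)

def EM (s i a : ℕ) : ℕ :=
  if a = pp s then (if s < 2 * m then n + s else n + s + i) else (if s = 0 then i else n + (s - 1))

def ET (s a : ℕ) : ℕ := if a = 8 then s / 2 else n + s

end raw

inductive Wn (n m : ℕ) : Type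
  | M (s : Fin (2 * m + 1)) (i : Fin n) : Wn n m
  | T (s : Fin (2 * m)) : Wn n m
  deriving DecidableEq

inductive Fl (n m : ℕ) : Type
  | L0 (i : Fin n) : Fl n m
  | LL (i : Fin n) : Fl n m
  | I (s : Fin (2 * m)) (i : Fin n) : Fl n m
  | O (s : Fin (2 * m)) (i : Fin n) : Fl n m
  | C (s : Fin (2 * m)) : Fl n m
  | D (s : Fin (2 * m)) : Fl n m
  deriving DecidableEq

def wnEquiv (n m : ℕ) : Wn n m ≃ (Fin (2 * m + 1) × Fin n) ⊕ Fin (2 * m) where
  toFun w := match w with
    | .M s i => Sum.inl (s, i)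
    | .T s => Sum.inr s
  invFun x := match x with
    | Sum.inl (s, i) => .M s i
    | Sum.inr s => .T s
  left_inv w := by cases w <;> rfl
  right_inv x := by rcases x with ⟨s, i⟩ | s <;> rfl

def flEquiv (n m : ℕ) : Fl n m ≃
    Fin n ⊕ Fin n ⊕ (Fin (2 * m) × Fin n) ⊕ (Fin (2 * m) × Fin n) ⊕ Fin (2 * m) ⊕ Fin (2 * m) where
  toFun w := match w with
    | .L0 i => Sum.inl i
    | .LL i => Sum.inr (Sum.inl i)
    | .I s i => Sum.inr (Sum.inr (Sum.inl (s, i)))
    | .O s i => Sum.inr (Sum.inr (Sum.inr (Sum.inl (s, i))))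
    | .C s => Sum.inr (Sum.inr (Sum.inr (Sum.inr (Sum.inl s))))
    | .D s => Sum.inr (Sum.inr (Sum.inr (Sum.inr (Sum.inr s))))
  invFun x := match x with
    | Sum.inl i => .L0 i
    | Sum.inr (Sum.inl i) => .LL i
    | Sum.inr (Sum.inr (Sum.inl (s, i))) => .I s i
    | Sum.inr (Sum.inr (Sum.inr (Sum.inl (s, i)))) => .O s i
    | Sum.inr (Sum.inr (Sum.inr (Sum.inr (Sum.inl s)))) => .C s
    | Sum.inr (Sum.inr (Sum.inr (Sum.inr (Sum.inr s)))) => .D s
  left_inv w := by cases w <;> rfl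
  right_inv x := by rcases x with i | i | ⟨s, i⟩ | ⟨s, i⟩ | s | s <;> rfl

instance (n m : ℕ) : Fintype (Wn n m) := Fintype.ofEquiv _ (wnEquiv n m).symm
instance (n m : ℕ) : Fintype (Fl n m) := Fintype.ofEquiv _ (flEquiv n m).symm

lemma card_Wn (n m : ℕ) : Fintype.card (Wn n m) = (2 * m + 1) * n + 2 * m := by
  rw [Fintype.card_congr (wnEquiv n m)]; simp

lemma card_Fl (n m : ℕ) : Fintype.card (Fl n m) = 2 * Fintype.card (Wn n m) := by
  rw [card_Wn, Fintype.card_congr (flEquiv n m)]; simp; ring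

lemma sum_Fl {M : Type} [AddCommMonoid M] (n m : ℕ) (g : Fl n m → M) :
    ∑ f, g f = ∑ i, g (.L0 i) + (∑ i, g (.LL i) + (∑ s, ∑ i, g (.I s i) +
      (∑ s, ∑ i, g (.O s i) + (∑ s, g (.C s) + ∑ s, g (.D s))))) := by
  rw [← (flEquiv n m).symm.sum_comp g]
  simp only [Fintype.sum_sum_type, Fintype.sum_prod_type]
  rfl

lemma sum_Wn {M : Type} [AddCommMonoid M] (n m : ℕ) (g : Wn n m → M) :
    ∑ f, g f = ∑ s, ∑ i, g (.M s i) + ∑ s, g (.T s) := by
  rw [← (wnEquiv n m).symm.sum_comp g]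
  simp only [Fintype.sum_sum_type, Fintype.sum_prod_type]
  rfl

section data

variable {n m : ℕ} (tv : ℕ → ℕ)

/-- start of a window -/
def wS : Wn n m → ℕ
  | .M s i => St n m s i
  | .T s => St n m s (tv s) - 16

def wP : Wn n m → ℕ
  | .M _ _ => 5
  | .T s => pp s

def wQ : Wn n m → ℕ
  | .M _ _ => 6
  | .T _ => 8

/-- lengths of the flexible jobs -/
def fp : Fl n m → ℕ
  | .L0 _ => 6
  | .LL _ => 5
  | .I s _ => pp s
  | .O s _ => pp s
  | .C s => pp s
  | .D _ => 8

/-- due dates -/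
def fd : Fl n m → ℕ
  | .L0 i => St n m 0 i + 6
  | .LL i => St n m (2 * m) i + 5
  | .I s i => St n m s i + 11
  | .O s i => if (i : ℕ) = tv s then St n m s i - 16 + pp s else St n m s i + pp s
  | .C s => St n m s (tv s) - 8 + pp s
  | .D s => if (s : ℕ) % 2 = 0 then St n m s (tv s) - 8 else St n m (s - 1) (tv (s - 1)) - 3

/-- weights (as integers) -/
def fw : Fl n m → ℤ
  | .L0 i => 6 * om n m 0 i
  | .LL i => 5 * om n m (2 * m) i
  | .I s i => wI n m s i
  | .O s i => wO n m tv s i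
  | .C s => wC n m tv s
  | .D s => wD n m s

/-- potentials of slots -/
def V0 : Wn n m → ℕ → Bool → ℤ
  | .M s i, a, b => VM n m s i a b
  | .T s, a, b => VT n m tv s a b

def era : Wn n m → ℕ → ℕ
  | .M s i, a => EM n m s i a
  | .T s, a => ET n s a

def fera : Fl n m → ℕ
  | .L0 i => i
  | .LL i => n + 2 * m + i
  | .I s _ => n + s
  | .O s _ => n + s
  | .C s => n + s
  | .D s => s / 2

/-- value of the job's line at its due date -/
def fc : Fl n m → ℤ
  | .L0 _ => 0
  | .LL _ => 0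
  | .I s i => lAs n m s i
  | .O s i => if (i : ℕ) = tv s then eTs n m tv s else eAs n m s i
  | .C s => lTs n m tv s
  | .D s => if (s : ℕ) % 2 = 0 then 0 else 40 * wT n m tv (s - 1)

/-- completion time in a window -/
def wslot (w : Wn n m) (a : ℕ) (b : Bool) : ℕ :=
  if b then wS tv w + a else wS tv w + wP w + wQ w

end data

end Pool.Agent.H77.Tard.Inst
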