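import Mathlib
import Pool.Agent.H77.Tard.Inst

set_option autoImplicit false
set_option linter.unusedSectionVars false
set_option linter.unusedSimpArgs false
set_option linter.unusedVariables false

namespace Pool.Agent.H77.Tard.Inst

open Finset

section basic

variable {n m : ℕ} {tv : ℕ → ℕ}

lemma pos_lt {s i : ℕ} (hi : i < n) : pos n s i < n := by
  unfold pos; split_ifs <;> omega

lemma pos_inj {s i i' : ℕ} (hi : i < n) (hi' : i' < n) (h : pos n s i = pos n s i') : i = i' := by
  unfold pos at h; split_ifs at h <;> omega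

lemma pos_succ {s i : ℕ} (hi : i < n) : pos n (s + 1) i + pos n s i + 1 = n := by
  unfold pos
  rcases Nat.mod_two_eq_zero_or_one s with h | h
  · have h' : (s + 1) % 2 = 1 := by omega
    simp only [h, h', if_true]; simp; omega
  · have h' : (s + 1) % 2 = 0 := by omega
    simp only [h, h', if_true]; simp; omega

lemma NN_ge (n m : ℕ) : 32 * n + 100 ≤ NN n m := by
  unfold NN sc
  nlinarith [sq_nonneg ((n : ℤ) - 1), Nat.zero_le (n * n), Nat.zero_le n, sq_nonneg (n - 1), Nat.le_self_pow (two_ne_zero) n]

lemma zz_succ {s i : ℕ} (hi : i < n) : zz n (s + 1) i = - zz n s i := by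
  have := pos_succ (s := s) hi
  unfold zz; omega

lemma zz_abs {s i : ℕ} (hi : i < n) : |zz n s i| ≤ n := by
  have := pos_lt (s := s) hi
  rw [abs_le]; unfold zz; omega

lemma zz_lt {s i i' : ℕ} (h : pos n s i < pos n s i') : zz n s i + 2 ≤ zz n s i' := by
  unfold zz; omega

lemma zz_trich {s i i' : ℕ} (hi : i < n) (hi' : i' < n) (h : i ≠ i') :
    zz n s i + 2 ≤ zz n s i' ∨ zz n s i' + 2 ≤ zz n s i := by
  have : pos n s i ≠ pos n s i' := fun e => h (pos_inj hi hi' e)
  rcases lt_or_gt_of_ne this with h | h
  · left; exact zz_lt h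
  · right; exact zz_lt h

lemma St_succ {s i : ℕ} (hi : i < n) : (St n m (s + 1) i : ℤ) = TT n m s - 16 * zz n s i := by
  have := pos_succ (s := s) hi
  unfold St TT zz
  push_cast
  have : (pos n (s + 1) i : ℤ) = n - 1 - pos n s i := by omega
  rw [this]; ring

lemma St_eq {s i : ℕ} : (St n m s i : ℤ) = TT n m s - 50 * sc n m + 16 * zz n s i := by
  unfold St TT zz NN
  push_cast
  ring

lemma par (s : ℕ) : Core.Par n m (AA n m (s + 1)) (sc n m) (pp s) (qq s) where
  hn := by positivity
  hm := by positivity
  hc := by unfold sc; push_cast; ring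
  hA := by
    unfold AA
    push_cast
    have : (0 : ℤ) ≤ (sc n m : ℤ) ^ 2 * s := by positivity
    nlinarith
  hpq := by
    unfold pp qq
    split_ifs
    · left; norm_num
    · right; norm_num

lemma pp_val (s : ℕ) : pp s = 5 ∨ pp s = 6 := by unfold pp; split_ifs <;> simp

lemma pp_eq_iff (s s' : ℕ) : pp s = pp s' ↔ s % 2 = s' % 2 := by
  unfold pp; split_ifs <;> omega

end basic

section pot

variable {n m : ℕ} {tv : ℕ → ℕ}

/-- classification of the slots of length class `pp s` with respect to the rainbow `s` -/
lemma slot_cases (htv : ∀ s < 2 * m, tv s < n) {s : ℕ} (hs : s < 2 * m) (w : Wn n m) (b : Bool)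
    (hw : pp s = wP w ∨ pp s = wQ w) :
    wslot tv w (pp s) b < s * NN n m ∨
    n + s < era w (pp s) ∨
    (era w (pp s) = n + s ∧
      ((∃ (s' : Fin (2 * m + 1)) (i : Fin n), w = .M s' i ∧ (s' : ℕ) = s ∧ b = true ∧
          V0 tv w (pp s) b = eAs n m s i ∧
          (wslot tv w (pp s) b : ℤ) = TT n m s - 50 * sc n m + 16 * zz n s i + pp s) ∨
       (∃ (s' : Fin (2 * m + 1)) (i : Fin n), w = .M s' i ∧ (s' : ℕ) = s ∧ b = false ∧
          V0 tv w (pp s) b = lAs n m s i ∧
          (wslot tv w (pp s) b : ℤ) = TT n m s - 50 * sc n m + 16 * zz n s i + 11) ∨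
       (∃ (s' : Fin (2 * m + 1)) (i : Fin n), w = .M s' i ∧ (s' : ℕ) = s + 1 ∧ b = true ∧
          V0 tv w (pp s) b = eBs n m s i ∧
          (wslot tv w (pp s) b : ℤ) = TT n m s - 16 * zz n s i + pp s) ∨
       (∃ (s' : Fin (2 * m + 1)) (i : Fin n), w = .M s' i ∧ (s' : ℕ) = s + 1 ∧ b = false ∧
          V0 tv w (pp s) b = lBs n m s i ∧
          (wslot tv w (pp s) b : ℤ) = TT n m s - 16 * zz n s i + 11) ∨
       (∃ (s' : Fin (2 * m)), w = .T s' ∧ (s' : ℕ) = s ∧ b = true ∧
          V0 tv w (pp s) b = eTs n m tv s ∧
          (wslot tv w (pp s) b : ℤ) = TT n m s - 50 * sc n m + 16 * zz n s (tv s) - 16 + pp s) ∨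
       (∃ (s' : Fin (2 * m)), w = .T s' ∧ (s' : ℕ) = s ∧ b = false ∧
          V0 tv w (pp s) b = lTs n m tv s ∧
          (wslot tv w (pp s) b : ℤ) =
            TT n m s - 50 * sc n m + 16 * zz n s (tv s) - 8 + pp s))) := by
  have hNN := NN_ge n m
  rcases w with ⟨s', i⟩ | s'
  · -- main window
    have hi := i.2
    have hpos := pos_lt (s := (s' : ℕ)) hi
    rcases lt_trichotomy (s' : ℕ) s with h | h | h
    · left
      have h1 : ((s' : ℕ) + 1) * NN n m ≤ s * NN n m := Nat.mul_le_mul_right _ h
      have h2 := pp_val s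
      simp only [wslot, wS, wP, wQ, St]
      rw [add_mul, one_mul] at h1
      split_ifs <;> omega
    · right; right
      have e1 : pp s = pp (s' : ℕ) := by rw [h]
      refine ⟨?_, ?_⟩
      · simp only [era, EM, h, if_true, hs]
      · cases b
        · right; left
          refine ⟨s', i, rfl, h, rfl, ?_, ?_⟩
          · simp only [V0, VM, h, if_true, hs]; simp
          · simp only [wslot, wS, wP, wQ]
            rw [h]
            have := St_eq (n := n) (m := m) (s := s) (i := i)
            push_cast
            rw [this]; ring_nf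
        · left
          refine ⟨s', i, rfl, h, rfl, ?_, ?_⟩
          · simp only [V0, VM, h, if_true, hs]
          · simp only [wslot, wS, wP, wQ, if_true]
            rw [h]
            have := St_eq (n := n) (m := m) (s := s) (i := i)
            push_cast
            rw [this]
    · rcases Nat.lt_or_ge (s + 1) (s' : ℕ) with h' | h'
      · right; left
        simp only [era, EM]
        have h0 : (s' : ℕ) ≠ 0 := by omega
        split_ifs <;> omega
      · have h2 : (s' : ℕ) = s + 1 := by omega
        have e1 : ¬ (pp s = pp (s + 1)) := by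
          rw [pp_eq_iff]; omega
        have e0 : ¬ ((s' : ℕ) = 0) := by omega
        right; right
        refine ⟨?_, ?_⟩
        · simp only [era, EM, h2]
          rw [if_neg e1, if_neg (by omega)]; omega
        · cases b
          · right; right; right; left
            refine ⟨s', i, rfl, h2, rfl, ?_, ?_⟩
            · simp only [V0, VM, h2]
              rw [if_neg e1, if_neg (by omega)]; simp
            · simp only [wslot, wS, wP, wQ]
              rw [h2]
              have := St_succ (n := n) (m := m) (s := s) hi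
              push_cast
              rw [this]; ring_nf
          · right; right; left
            refine ⟨s', i, rfl, h2, rfl, ?_, ?_⟩
            · simp only [V0, VM, h2]
              rw [if_neg e1, if_neg (by omega)]; simp
            · simp only [wslot, wS, wP, wQ, if_true]
              rw [h2]
              have := St_succ (n := n) (m := m) (s := s) hi
              push_cast
              rw [this]
  · -- tap window
    have hts := htv s' s'.2
    have hpos := pos_lt (s := (s' : ℕ)) hts
    have h8 : pp s ≠ 8 := by rcases pp_val s with h | h <;> omega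
    have hpar : pp s = pp (s' : ℕ) := by
      rcases hw with h | h
      · exact h
      · exact absurd h h8
    rcases lt_trichotomy (s' : ℕ) s with h | h | h
    · left
      have h1 : ((s' : ℕ) + 1) * NN n m ≤ s * NN n m := Nat.mul_le_mul_right _ h
      have h2 := pp_val s
      have h3 := pp_val s'
      simp only [wslot, wS, wP, wQ, St]
      rw [add_mul, one_mul] at h1
      split_ifs <;> omega
    · right; right
      refine ⟨?_, ?_⟩
      · simp only [era, ET, h8, if_false, h]
      · have hge : 16 ≤ St n m s (tv s) := by unfold St; omega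
        cases b
        · right; right; right; right; right
          refine ⟨s', rfl, h, rfl, ?_, ?_⟩
          · simp only [V0, VT, h8, if_false, h]; simp
          · simp only [wslot, wS, wP, wQ]
            rw [h]
            have := St_eq (n := n) (m := m) (s := s) (i := tv s)
            push_cast [Nat.cast_sub hge]
            rw [this]; ring_nf
        · right; right; right; right; left
          refine ⟨s', rfl, h, rfl, ?_, ?_⟩
          · simp only [V0, VT, h8, if_false, h]; simp
          · simp only [wslot, wS, wP, wQ, if_true]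
            rw [h]
            have := St_eq (n := n) (m := m) (s := s) (i := tv s)
            push_cast [Nat.cast_sub hge]
            rw [this]
    · right; left
      simp only [era, ET, h8, if_false]
      omega

end pot

section jobs

variable {n m : ℕ} (tv : ℕ → ℕ)

def rc0 (f : Fl n m) (w : Wn n m) (b : Bool) : ℤ :=
  fw tv f * ((wslot tv w (fp f) b : ℤ) - fd tv f) + fc tv f - V0 tv w (fp f) b

/-- intended slots -/
def Intd : Fl n m → Wn n m → Bool → Prop
  | .L0 i, .M s' i', _ => (s' : ℕ) = 0 ∧ i' = i
  | .LL i, .M s' i', _ => (s' : ℕ) = 2 * m ∧ i' = i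
  | .I s i, .M s' i', b => i' = i ∧ (((s' : ℕ) = s ∧ b = false) ∨ ((s' : ℕ) = s + 1 ∧ b = true))
  | .O s i, .M s' i', b => i' = i ∧
      (((i : ℕ) ≠ tv s ∧ (s' : ℕ) = s ∧ b = true) ∨ ((s' : ℕ) = s + 1 ∧ b = false))
  | .O s i, .T s', b => (i : ℕ) = tv s ∧ (s' : ℕ) = s ∧ b = true
  | .C s, .M s' i', b => (i' : ℕ) = tv s ∧ (s' : ℕ) = s ∧ b = true
  | .C s, .T s', b => (s' : ℕ) = s ∧ b = false
  | .D s, .T s', b => ((s : ℕ) % 2 = 0 ∧ (((s' : ℕ) = s ∧ b = true) ∨ (s' : ℕ) = s + 1)) ∨
      ((s : ℕ) % 2 = 1 ∧ (((s' : ℕ) + 1 = s ∧ b = false) ∨ (s' : ℕ) = s))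
  | _, _, _ => False

/-- penalty of intended slots -/
def pen : Fl n m → Wn n m → Bool → ℤ
  | .D s, .T s', b => if ((s : ℕ) % 2 = 0 ∧ (s' : ℕ) = s + 1 ∧ b = true) ∨
      ((s : ℕ) % 2 = 1 ∧ (s' : ℕ) = s ∧ b = false) then 240 else 0
  | _, _, _ => 0

/-- the claim for one job -/
def Good (f : Fl n m) : Prop := ∀ (w : Wn n m) (b : Bool), (fp f = wP w ∨ fp f = wQ w) →
  fd tv f ≤ wslot tv w (fp f) b →
  fera f < era w (fp f) ∨ (fera f = era w (fp f) ∧
    ((Intd tv f w b ∧ rc0 tv f w b = pen f w b) ∨ 240 * (m : ℤ) + 1 ≤ rc0 tv f w b))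

variable {tv}

lemma teB_eq (s i : ℕ) : Core.teB (TT n m s) (pp s) (zz n s i) =
    TT n m s - 16 * zz n s i + pp s := rfl

lemma early_lt (s : ℕ) {i i' : ℕ} (hi : i < n) (hi' : i' < n) :
    TT n m s - 50 * sc n m + 16 * zz n s i + 11 ≤ TT n m s - 16 * zz n s i' := by
  have h1 := abs_le.1 (zz_abs (s := s) hi)
  have h2 := abs_le.1 (zz_abs (s := s) hi')
  have h3 := NN_ge n m
  unfold NN at h3
  omega

/-- the line of an inner job -/
lemma line_I (s : Fin (2 * m)) (i : Fin n) (τ : ℤ) :
    fw tv (.I s i) * (τ - fd tv (.I s i)) + fc tv (.I s i) =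
      Core.LI (AA n m (s + 1)) (sc n m) (pp s) (qq s) (TT n m s) (zz n s i) τ := by
  simp only [fw, fd, fc, wI, lAs, Core.lA]
  have := St_eq (n := n) (m := m) (s := s) (i := i)
  push_cast
  rw [this, Core.LI_shift _ _ _ _ _ _ τ (TT n m s - 50 * sc n m + 16 * zz n s i + 11)]
  ring

lemma line_O (s : Fin (2 * m)) (i : Fin n) (τ : ℤ) :
    fw tv (.O s i) * (τ - fd tv (.O s i)) + fc tv (.O s i) =
      Core.LO (AA n m (s + 1)) (sc n m) (pp s) (qq s) (TT n m s) (dl tv s i) (zz n s i) τ := by
  have := St_eq (n := n) (m := m) (s := s) (i := i)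
  have hge : 16 ≤ St n m s i := by unfold St; omega
  by_cases h : (i : ℕ) = tv s
  · simp only [fw, fd, fc, wO, dl, h, if_true, eTs, Core.eT]
    rw [h] at this hge
    push_cast [Nat.cast_sub hge]
    rw [this, Core.LO_shift _ _ _ _ _ _ _ τ
      (TT n m s - 50 * sc n m + 16 * zz n s (tv s) - 16 + pp s)]
    ring
  · simp only [fw, fd, fc, wO, dl, h, if_false, eAs, Core.eA]
    push_cast
    rw [this, Core.LO_shift _ _ _ _ _ _ _ τ
      (TT n m s - 50 * sc n m + 16 * zz n s i + pp s)]
    ring

lemma line_C (htv : ∀ s < 2 * m, tv s < n) (s : Fin (2 * m)) (τ : ℤ) :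
    fw tv (.C s : Fl n m) * (τ - fd tv (.C s : Fl n m)) + fc tv (.C s : Fl n m) =
      Core.LC (AA n m (s + 1)) (sc n m) (pp s) (qq s) (TT n m s) (wT n m tv s)
        (zz n s (tv s)) τ := by
  have := St_eq (n := n) (m := m) (s := s) (i := tv s)
  have hge : 8 ≤ St n m s (tv s) := by unfold St; omega
  have e := Core.eA_sub_lT (T := TT n m s) (par (n := n) (m := m) s) (wT n m tv s) (zz n s (tv s))
  simp only [fw, fd, fc, wC, lTs]
  push_cast [Nat.cast_sub hge]
  rw [this]
  unfold Core.LC
  linarith

lemma wT_le (htv : ∀ s < 2 * m, tv s < n) {s : ℕ} (hs : s < 2 * m) :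
    wT n m tv s ≤ 201 * sc n m := by
  unfold wT NN
  have h3 : 50 * n ≤ sc n m := by
    unfold sc
    have := Nat.le_self_pow (two_ne_zero) n
    nlinarith
  have hpos : 0 < sc n m := by unfold sc; positivity
  split_ifs with h
  · have h1 := htv s hs
    have h2 := htv (s + 1) (by omega)
    push_cast
    omega
  · push_cast; omega

lemma wT_nonneg (htv : ∀ s < 2 * m, tv s < n) {s : ℕ} (hs : s < 2 * m) :
    0 ≤ wT n m tv s := by
  unfold wT NN
  have h3 : 50 * n ≤ sc n m := by
    unfold sc
    have := Nat.le_self_pow (two_ne_zero) n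
    nlinarith
  split_ifs with h
  · push_cast
    omega
  · push_cast; omega

lemma good_I (htv : ∀ s < 2 * m, tv s < n) (s : Fin (2 * m)) (i : Fin n) :
    Good tv (.I s i : Fl n m) := by
  intro w b hw hd
  have hL := line_I (tv := tv) s i (wslot tv w (pp s) b)
  have hrc : rc0 tv (.I s i) w b = Core.LI (AA n m (s + 1)) (sc n m) (pp s) (qq s) (TT n m s)
      (zz n s i) (wslot tv w (pp s) b) - V0 tv w (pp s) b := by
    rw [← hL]; rfl
  have hz := zz_abs (s := (s : ℕ)) i.2
  have hpar := par (n := n) (m := m) s
  have hdd : (TT n m s - 50 * sc n m + 16 * zz n s i + 11 : ℤ) ≤ wslot tv w (pp s) b := by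
    have h1 : (fd tv (.I s i : Fl n m) : ℤ) ≤ (wslot tv w (pp s) b : ℤ) := by exact_mod_cast hd
    simp only [fd] at h1
    push_cast at h1
    rw [St_eq] at h1
    linarith
  have hpv := pp_val s
  rcases slot_cases htv s.2 w b hw with h | h | ⟨he, h⟩
  · exfalso
    have : s * NN n m ≤ fd tv (.I s i : Fl n m) := by
      simp only [fd, St]; omega
    have h2 : fd tv (.I s i : Fl n m) ≤ wslot tv w (pp s) b := hd
    omega
  · left; exact h
  · right
    refine ⟨he.symm, ?_⟩
    rcases h with ⟨s', i', rfl, hs', rfl, hV, ht⟩ | ⟨s', i', rfl, hs', rfl, hV, ht⟩ |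
      ⟨s', i', rfl, hs', rfl, hV, ht⟩ | ⟨s', i', rfl, hs', rfl, hV, ht⟩ |
      ⟨s', rfl, hs', rfl, hV, ht⟩ | ⟨s', rfl, hs', rfl, hV, ht⟩
    · -- opener early
      by_cases hii : (i' : ℕ) = i
      · exfalso; rw [ht, hii] at hdd; rcases hpv with h | h <;> rw [h] at hdd <;> push_cast at hdd <;> linarith
      · have hz' := zz_abs (s := (s : ℕ)) i'.2
        rcases zz_trich (s := (s : ℕ)) i.2 i'.2 (fun e => hii e.symm) with h | h
        · right
          rw [hrc, hV, ht]
          have e0 := early_lt (n := n) (m := m) s i'.2 i'.2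
          have := Core.LI_LO (δ' := 0) (T := TT n m s)
            (τ := TT n m s - 50 * sc n m + 16 * zz n s i' + pp s) hpar hz hz'
            (by norm_num) h (by unfold Core.tlB; rcases hpv with h | h <;> rw [h] <;> push_cast <;> linarith)
          unfold eAs Core.eA
          linarith
        · exfalso; rw [ht] at hdd; rcases hpv with h | h <;> rw [h] at hdd <;> push_cast at hdd <;> linarith
    · by_cases hii : (i' : ℕ) = i
      · left
        have : i' = i := Fin.ext hii
        subst this
        refine ⟨by simp [Intd, hs'], ?_⟩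
        rw [hrc, hV, ht]; simp [lAs, Core.lA, pen]
      · have hz' := zz_abs (s := (s : ℕ)) i'.2
        rcases zz_trich (s := (s : ℕ)) i.2 i'.2 (fun e => hii e.symm) with h | h
        · right
          rw [hrc, hV, ht]
          have e0 := early_lt (n := n) (m := m) s i'.2 i'.2
          have := Core.LI_LI (T := TT n m s)
            (τ := TT n m s - 50 * sc n m + 16 * zz n s i' + 11) hpar hz hz'
            h (by unfold Core.teB; rcases hpv with h | h <;> rw [h] <;> push_cast <;> linarith)
          unfold lAs Core.lA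
          linarith
        · exfalso; rw [ht] at hdd; linarith
    · by_cases hii : (i' : ℕ) = i
      · left
        have : i' = i := Fin.ext hii
        subst this
        refine ⟨by simp [Intd, hs'], ?_⟩
        rw [hrc, hV, ht]
        have := Core.LI_te (AA n m (s + 1)) (sc n m) (pp s) (qq s) (TT n m s) (zz n s i')
        rw [teB_eq] at this
        rw [this]; simp [eBs, pen]
      · right
        rw [hrc, hV, ht]
        have := Core.LI_eB (T := TT n m s) hpar hz (zz_trich (s := (s : ℕ)) i.2 i'.2 (fun e => hii e.symm))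
        rw [teB_eq] at this
        unfold eBs; linarith
    · right
      rw [hrc, hV, ht]
      have hd' : zz n s i' = zz n s i ∨ zz n s i + 2 ≤ zz n s i' ∨ zz n s i' + 2 ≤ zz n s i := by
        by_cases hii : (i' : ℕ) = i
        · left; rw [hii]
        · right; exact zz_trich (s := (s : ℕ)) i.2 i'.2 (fun e => hii e.symm)
      have := Core.LI_lB (T := TT n m s) hpar hz hd'
      unfold Core.tlB at this
      unfold lBs; linarith
    · have htz := htv s s.2
      have hz' := zz_abs (s := (s : ℕ)) htz
      by_cases hii : tv s = i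
      · exfalso; rw [ht, hii] at hdd; rcases hpv with h | h <;> rw [h] at hdd <;> push_cast at hdd <;> linarith
      · rcases zz_trich (s := (s : ℕ)) i.2 htz (fun e => hii e.symm) with h | h
        · right
          rw [hrc, hV, ht]
          have e0 := early_lt (n := n) (m := m) s htz htz
          have := Core.LI_LO (δ' := 8) (T := TT n m s)
            (τ := TT n m s - 50 * sc n m + 16 * zz n s (tv s) - 16 + pp s) hpar hz hz'
            (by norm_num) h (by unfold Core.tlB; rcases hpv with h | h <;> rw [h] <;> push_cast <;> linarith)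
          unfold eTs Core.eT
          linarith
        · exfalso; rw [ht] at hdd; rcases hpv with h | h <;> rw [h] at hdd <;> push_cast at hdd <;> linarith
    · have htz := htv s s.2
      have hz' := zz_abs (s := (s : ℕ)) htz
      by_cases hii : tv s = i
      · exfalso; rw [ht, hii] at hdd; rcases hpv with h | h <;> rw [h] at hdd <;> push_cast at hdd <;> linarith
      · rcases zz_trich (s := (s : ℕ)) i.2 htz (fun e => hii e.symm) with h | h
        · right
          rw [hrc, hV, ht]
          have e0 := early_lt (n := n) (m := m) s htz htz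
          have := Core.LI_LO (δ' := 8) (T := TT n m s)
            (τ := TT n m s - 50 * sc n m + 16 * zz n s (tv s) - 8 + pp s) hpar hz hz'
            (by norm_num) h (by unfold Core.tlB; rcases hpv with h | h <;> rw [h] <;> push_cast <;> linarith)
          have h2 := Core.lT_lt (T := TT n m s) (w := wT n m tv s) hpar hz' (wT_le htv s.2)
          unfold lTs
          linarith
        · exfalso; rw [ht] at hdd; rcases hpv with h | h <;> rw [h] at hdd <;> push_cast at hdd <;> linarith

lemma dl_cases (s i : ℕ) : (i = tv s ∧ dl tv s i = 8) ∨ (i ≠ tv s ∧ dl tv s i = 0) := by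
  unfold dl; by_cases h : i = tv s
  · left; simp [h]
  · right; simp [h]

lemma good_O (htv : ∀ s < 2 * m, tv s < n) (s : Fin (2 * m)) (i : Fin n) :
    Good tv (.O s i : Fl n m) := by
  intro w b hw hd
  have hL := line_O (tv := tv) s i (wslot tv w (pp s) b)
  have hrc : rc0 tv (.O s i) w b = Core.LO (AA n m (s + 1)) (sc n m) (pp s) (qq s) (TT n m s)
      (dl tv s i) (zz n s i) (wslot tv w (pp s) b) - V0 tv w (pp s) b := by
    rw [← hL]; rfl
  have hz := zz_abs (s := (s : ℕ)) i.2
  have hpar := par (n := n) (m := m) s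
  have hδ : 0 ≤ dl tv s i ∧ dl tv s i ≤ 8 := by
    rcases dl_cases (tv := tv) s i with h | h <;> rw [h.2] <;> norm_num
  have hge : 16 ≤ St n m s i := by unfold St; omega
  have hdd0 : (TT n m s - 50 * sc n m + 16 * zz n s i - 16 + pp s : ℤ) ≤
      wslot tv w (pp s) b := by
    have h1 : (fd tv (.O s i : Fl n m) : ℤ) ≤ (wslot tv w (pp s) b : ℤ) := by exact_mod_cast hd
    simp only [fd] at h1
    split_ifs at h1
    · push_cast [Nat.cast_sub hge] at h1
      rw [St_eq] at h1
      linarith
    · push_cast at h1
      rw [St_eq] at h1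
      linarith
  have hpv := pp_val s
  rcases slot_cases htv s.2 w b hw with h | h | ⟨he, h⟩
  · exfalso
    have : s * NN n m ≤ fd tv (.O s i : Fl n m) := by
      simp only [fd, St]; split_ifs <;> omega
    have h2 : fd tv (.O s i : Fl n m) ≤ wslot tv w (pp s) b := hd
    omega
  · left; exact h
  · right
    refine ⟨he.symm, ?_⟩
    rcases h with ⟨s', i', rfl, hs', rfl, hV, ht⟩ | ⟨s', i', rfl, hs', rfl, hV, ht⟩ |
      ⟨s', i', rfl, hs', rfl, hV, ht⟩ | ⟨s', i', rfl, hs', rfl, hV, ht⟩ |
      ⟨s', rfl, hs', rfl, hV, ht⟩ | ⟨s', rfl, hs', rfl, hV, ht⟩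
    · -- opener early
      by_cases hii : (i' : ℕ) = i
      · have : i' = i := Fin.ext hii
        subst this
        rcases dl_cases (tv := tv) s i' with ⟨h, h'⟩ | ⟨h, h'⟩
        · right
          rw [hrc, hV, ht, h']
          have := Core.eA_lt (T := TT n m s) hpar hz
          unfold eAs; linarith
        · left
          refine ⟨by simp [Intd, hs', h], ?_⟩
          rw [hrc, hV, ht, h']; simp [eAs, Core.eA, pen]
      · have hz' := zz_abs (s := (s : ℕ)) i'.2
        rcases zz_trich (s := (s : ℕ)) i.2 i'.2 (fun e => hii e.symm) with h | h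
        · right
          rw [hrc, hV, ht]
          have e0 := early_lt (n := n) (m := m) s i'.2 i'.2
          have := Core.LO_LO (δ' := 0) (T := TT n m s)
            (τ := TT n m s - 50 * sc n m + 16 * zz n s i' + pp s) hpar hz hz' hδ.1 hδ.2
            (by norm_num) h (by unfold Core.tlB; rcases hpv with h | h <;> rw [h] <;> push_cast <;> linarith)
          unfold eAs Core.eA
          linarith
        · exfalso; rw [ht] at hdd0; linarith
    · have hz' := zz_abs (s := (s : ℕ)) i'.2
      have hcase : zz n s i' = zz n s i ∨ zz n s i + 2 ≤ zz n s i' := by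
        by_cases hii : (i' : ℕ) = i
        · left; rw [hii]
        · rcases zz_trich (s := (s : ℕ)) i.2 i'.2 (fun e => hii e.symm) with h | h
          · right; exact h
          · exfalso; rw [ht] at hdd0; rcases hpv with h | h <;> rw [h] at hdd0 <;> push_cast at hdd0 <;> linarith
      right
      rw [hrc, hV, ht]
      have e0 := early_lt (n := n) (m := m) s i'.2 i'.2
      have := Core.LO_LI (T := TT n m s)
        (τ := TT n m s - 50 * sc n m + 16 * zz n s i' + 11) hpar hz hz' hδ.1 hδ.2
        hcase (by unfold Core.teB; rcases hpv with h | h <;> rw [h] <;> push_cast <;> linarith)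
      unfold lAs Core.lA
      linarith
    · right
      rw [hrc, hV, ht]
      have hd' : zz n s i' = zz n s i ∨ zz n s i + 2 ≤ zz n s i' ∨ zz n s i' + 2 ≤ zz n s i := by
        by_cases hii : (i' : ℕ) = i
        · left; rw [hii]
        · right; exact zz_trich (s := (s : ℕ)) i.2 i'.2 (fun e => hii e.symm)
      have := Core.LO_eB (T := TT n m s) hpar hz hδ.1 hδ.2 hd'
      rw [teB_eq] at this
      unfold eBs; linarith
    · by_cases hii : (i' : ℕ) = i
      · left
        have : i' = i := Fin.ext hii
        subst this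
        refine ⟨by simp [Intd, hs'], ?_⟩
        rw [hrc, hV, ht]
        have := Core.LO_tl (AA n m (s + 1)) (sc n m) (pp s) (qq s) (TT n m s) (dl tv s i')
          (zz n s i')
        unfold Core.tlB at this
        rw [this]; simp [lBs, pen]
      · right
        rw [hrc, hV, ht]
        have := Core.LO_lB (T := TT n m s) hpar hz hδ.1 hδ.2
          (zz_trich (s := (s : ℕ)) i.2 i'.2 (fun e => hii e.symm))
        unfold Core.tlB at this
        unfold lBs; linarith
    · have htz := htv s s.2
      have hz' := zz_abs (s := (s : ℕ)) htz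
      by_cases hii : tv s = i
      · left
        have h8 : dl tv s i = 8 := by unfold dl; rw [if_pos hii.symm]
        refine ⟨by simp [Intd, hs', hii.symm], ?_⟩
        rw [hrc, hV, ht, h8, ← hii]; simp [eTs, Core.eT, pen]
      · rcases zz_trich (s := (s : ℕ)) i.2 htz (fun e => hii e.symm) with h | h
        · right
          rw [hrc, hV, ht]
          have e0 := early_lt (n := n) (m := m) s htz htz
          have := Core.LO_LO (δ' := 8) (T := TT n m s)
            (τ := TT n m s - 50 * sc n m + 16 * zz n s (tv s) - 16 + pp s) hpar hz hz' hδ.1 hδ.2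
            (by norm_num) h (by unfold Core.tlB; rcases hpv with h | h <;> rw [h] <;> push_cast <;> linarith)
          unfold eTs Core.eT
          linarith
        · exfalso; rw [ht] at hdd0; linarith
    · have htz := htv s s.2
      have hz' := zz_abs (s := (s : ℕ)) htz
      have h2 := Core.lT_lt (T := TT n m s) (w := wT n m tv s) hpar hz' (wT_le htv s.2)
      by_cases hii : tv s = i
      · right
        have h8 : dl tv s i = 8 := by unfold dl; rw [if_pos hii.symm]
        rw [hrc, hV, ht, h8, ← hii]
        unfold lTs; linarith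
      · rcases zz_trich (s := (s : ℕ)) i.2 htz (fun e => hii e.symm) with h | h
        · right
          rw [hrc, hV, ht]
          have e0 := early_lt (n := n) (m := m) s htz htz
          have := Core.LO_LO (δ' := 8) (T := TT n m s)
            (τ := TT n m s - 50 * sc n m + 16 * zz n s (tv s) - 8 + pp s) hpar hz hz' hδ.1 hδ.2
            (by norm_num) h (by unfold Core.tlB; rcases hpv with h | h <;> rw [h] <;> push_cast <;> linarith)
          unfold lTs
          linarith
        · exfalso; rw [ht] at hdd0; linarith

lemma good_C (htv : ∀ s < 2 * m, tv s < n) (s : Fin (2 * m)) :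
    Good tv (.C s : Fl n m) := by
  intro w b hw hd
  have hL := line_C (n := n) (m := m) htv s (wslot tv w (pp s) b)
  have hrc : rc0 tv (.C s) w b = Core.LC (AA n m (s + 1)) (sc n m) (pp s) (qq s) (TT n m s)
      (wT n m tv s) (zz n s (tv s)) (wslot tv w (pp s) b) - V0 tv w (pp s) b := by
    rw [← hL]; rfl
  have htz := htv s s.2
  have hz := zz_abs (s := (s : ℕ)) htz
  have hpar := par (n := n) (m := m) s
  have hwT := wT_le htv s.2
  have hge : 16 ≤ St n m s (tv s) := by unfold St; omega
  have hdd0 : (TT n m s - 50 * sc n m + 16 * zz n s (tv s) - 8 + pp s : ℤ) ≤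
      wslot tv w (pp s) b := by
    have h1 : (fd tv (.C s : Fl n m) : ℤ) ≤ (wslot tv w (pp s) b : ℤ) := by exact_mod_cast hd
    simp only [fd] at h1
    push_cast [Nat.cast_sub (show 8 ≤ St n m s (tv s) by omega)] at h1
    rw [St_eq] at h1
    linarith
  have hpv := pp_val s
  have e00 := early_lt (n := n) (m := m) s htz htz
  rcases slot_cases htv s.2 w b hw with h | h | ⟨he, h⟩
  · exfalso
    have : s * NN n m ≤ fd tv (.C s : Fl n m) := by
      simp only [fd, St]; omega
    have h2 : fd tv (.C s : Fl n m) ≤ wslot tv w (pp s) b := hd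
    omega
  · left; exact h
  · right
    refine ⟨he.symm, ?_⟩
    rcases h with ⟨s', i', rfl, hs', rfl, hV, ht⟩ | ⟨s', i', rfl, hs', rfl, hV, ht⟩ |
      ⟨s', i', rfl, hs', rfl, hV, ht⟩ | ⟨s', i', rfl, hs', rfl, hV, ht⟩ |
      ⟨s', rfl, hs', rfl, hV, ht⟩ | ⟨s', rfl, hs', rfl, hV, ht⟩
    · -- opener early
      by_cases hii : (i' : ℕ) = tv s
      · left
        refine ⟨by simp [Intd, hs', hii], ?_⟩
        rw [hrc, hV, ht, hii]; simp [eAs, Core.LC, pen]
      · have hz' := zz_abs (s := (s : ℕ)) i'.2
        rcases zz_trich (s := (s : ℕ)) htz i'.2 (fun e => hii e.symm) with h | h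
        · right
          rw [hrc, hV, ht]
          have e0 := early_lt (n := n) (m := m) s i'.2 i'.2
          have h1 := Core.LO_LO (δ := 8) (δ' := 0) (T := TT n m s)
            (τ := TT n m s - 50 * sc n m + 16 * zz n s i' + pp s) hpar hz hz' (by norm_num)
            le_rfl
            (by norm_num) h (by unfold Core.tlB; rcases hpv with h | h <;> rw [h] <;> push_cast <;> linarith)
          have h2 := Core.LC_dom (T := TT n m s) (w := wT n m tv s)
            (τ := TT n m s - 50 * sc n m + 16 * zz n s i' + pp s) hpar hz hwT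
            (by rcases hpv with h | h <;> rw [h] <;> push_cast <;> linarith)
          have h3 := hpar.hm
          unfold eAs Core.eA
          linarith
        · exfalso; rw [ht] at hdd0; linarith
    · have hz' := zz_abs (s := (s : ℕ)) i'.2
      have hcase : zz n s i' = zz n s (tv s) ∨ zz n s (tv s) + 2 ≤ zz n s i' := by
        by_cases hii : (i' : ℕ) = tv s
        · left; rw [hii]
        · rcases zz_trich (s := (s : ℕ)) htz i'.2 (fun e => hii e.symm) with h | h
          · right; exact h
          · exfalso; rw [ht] at hdd0; rcases hpv with h | h <;> rw [h] at hdd0 <;> push_cast at hdd0 <;> linarith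
      right
      rw [hrc, hV, ht]
      have e0 := early_lt (n := n) (m := m) s i'.2 i'.2
      have h1 := Core.LO_LI (δ := 8) (T := TT n m s)
        (τ := TT n m s - 50 * sc n m + 16 * zz n s i' + 11) hpar hz hz' (by norm_num) le_rfl
        hcase (by unfold Core.teB; rcases hpv with h | h <;> rw [h] <;> push_cast <;> linarith)
      have h2 := Core.LC_dom (T := TT n m s) (w := wT n m tv s)
        (τ := TT n m s - 50 * sc n m + 16 * zz n s i' + 11) hpar hz hwT
        (by rcases hcase with h | h <;> linarith)
      have h3 := hpar.hm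
      unfold lAs Core.lA
      linarith
    · right
      rw [hrc, hV, ht]
      have e0 := early_lt (n := n) (m := m) s htz i'.2
      have hd' : zz n s i' = zz n s (tv s) ∨ zz n s (tv s) + 2 ≤ zz n s i' ∨
          zz n s i' + 2 ≤ zz n s (tv s) := by
        by_cases hii : (i' : ℕ) = tv s
        · left; rw [hii]
        · right; exact zz_trich (s := (s : ℕ)) htz i'.2 (fun e => hii e.symm)
      have h1 := Core.LO_eB (δ := 8) (T := TT n m s) hpar hz (by norm_num) le_rfl hd'
      rw [teB_eq] at h1
      have h2 := Core.LC_dom (T := TT n m s) (w := wT n m tv s)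
        (τ := TT n m s - 16 * zz n s i' + pp s) hpar hz hwT
        (by rcases hpv with h | h <;> rw [h] <;> push_cast <;> linarith)
      have h3 := hpar.hm
      unfold eBs; linarith
    · right
      rw [hrc, hV, ht]
      have e0 := early_lt (n := n) (m := m) s htz i'.2
      have h2 := Core.LC_dom (T := TT n m s) (w := wT n m tv s)
        (τ := TT n m s - 16 * zz n s i' + 11) hpar hz hwT
        (by linarith)
      by_cases hii : (i' : ℕ) = tv s
      · have := Core.LO_tl (AA n m (s + 1)) (sc n m) (pp s) (qq s) (TT n m s) 8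
          (zz n s (tv s))
        unfold Core.tlB at this
        rw [hii] at h2 ⊢
        unfold lBs; linarith
      · have h1 := Core.LO_lB (δ := 8) (T := TT n m s) hpar hz (by norm_num) le_rfl
          (zz_trich (s := (s : ℕ)) htz i'.2 (fun e => hii e.symm))
        unfold Core.tlB at h1
        have h3 := hpar.hm
        unfold lBs; linarith
    · exfalso; rw [ht] at hdd0; linarith
    · left
      refine ⟨by simp [Intd, hs'], ?_⟩
      have e := Core.eA_sub_lT (T := TT n m s) hpar (wT n m tv s) (zz n s (tv s))
      rw [hrc, hV, ht]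
      simp only [pen]
      unfold Core.LC lTs
      linarith

lemma om_pos (htv : ∀ s < 2 * m, tv s < n) {s i : ℕ} (hi : i < n) :
    18 * (sc n m : ℤ) * n ≤ om n m s i := by
  have hz := abs_le.1 (zz_abs (s := s) hi)
  unfold om AA
  have h3 : (50 : ℤ) * n ≤ sc n m := by
    have h := par (n := n) (m := m) 0
    exact h.c_n
  have h0 : (0 : ℤ) ≤ n := by positivity
  have h4 : (0 : ℤ) ≤ (sc n m : ℤ) ^ 2 * s := by positivity
  have h5 : (sc n m : ℤ) * zz n s i ≤ sc n m * n := mul_le_mul_of_nonneg_left hz.2 (by positivity)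
  have h6 : (sc n m : ℤ) * n * 50 ≤ (sc n m : ℤ) ^ 2 := by nlinarith
  nlinarith

lemma good_L0 (i : Fin n) : Good tv (.L0 i : Fl n m) := by
  intro w b hw hd
  rcases w with ⟨s', i'⟩ | s'
  · -- main
    by_cases h0 : (s' : ℕ) = 0
    · have hpp : ¬ (6 = pp (s' : ℕ)) := by rw [h0]; decide
      have hera : era (.M s' i' : Wn n m) 6 = i' := by
        simp only [era, EM]
        rw [if_neg hpp, if_pos h0]
      have hV : V0 tv (.M s' i' : Wn n m) 6 b = if b then 0 else 30 * om n m s' i' := by
        simp only [V0, VM]
        rw [if_neg hpp, if_pos h0]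
      by_cases hii : i' = i
      · right
        subst hii
        refine ⟨hera.symm, Or.inl ⟨by simp [Intd, h0], ?_⟩⟩
        show 6 * om n m 0 i' * ((wslot tv (Wn.M s' i') 6 b : ℤ) - ((St n m 0 i' + 6 : ℕ) : ℤ)) + 0
          - V0 tv (Wn.M s' i') 6 b = 0
        rw [hV, h0]
        cases b
        · simp only [wslot, wS, wP, wQ, h0]
          push_cast; simp; ring
        · simp only [wslot, wS, wP, wQ, h0]
          push_cast; simp
      · -- different vertex in sweep 0
        have hne : (i' : ℕ) ≠ i := fun e => hii (Fin.ext e)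
        left
        show (i : ℕ) < era (Wn.M s' i') 6
        rw [hera]
        simp only [fp, fd, wslot, wS, wP, wQ, St, pos, h0] at hd
        cases b <;> simp at hd <;> omega
    · left
      show (i : ℕ) < era (Wn.M s' i') 6
      simp only [era, EM]
      have := i.2
      split_ifs <;> omega
  · -- tap windows contain length 6 only in odd sweeps
    left
    have := i.2
    show (i : ℕ) < era (Wn.T s') 6
    simp only [era, ET]
    rw [if_neg (by norm_num)]
    omega

lemma good_LL (htv : ∀ s < 2 * m, tv s < n) (i : Fin n) : Good tv (.LL i : Fl n m) := by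
  intro w b hw hd
  have hNN := NN_ge n m
  have hi := i.2
  rcases w with ⟨s', i'⟩ | s'
  · have hi' := i'.2
    by_cases h0 : (s' : ℕ) = 2 * m
    · have hpp : 5 = pp (s' : ℕ) := by rw [h0]; unfold pp; rw [if_pos (by omega)]
      have hera : era (.M s' i' : Wn n m) 5 = n + 2 * m + i' := by
        simp only [era, EM]
        rw [if_pos hpp, if_neg (by omega), h0]
      have hV : V0 tv (.M s' i' : Wn n m) 5 b = if b then 0 else 30 * om n m s' i' := by
        simp only [V0, VM]
        rw [if_pos hpp, if_neg (by omega)]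
      by_cases hii : i' = i
      · right
        subst hii
        refine ⟨hera.symm, Or.inl ⟨by simp [Intd, h0], ?_⟩⟩
        show 5 * om n m (2 * m) i' * ((wslot tv (Wn.M s' i') 5 b : ℤ)
          - ((St n m (2 * m) i' + 5 : ℕ) : ℤ)) + 0 - V0 tv (Wn.M s' i') 5 b = 0
        rw [hV, h0]
        cases b
        · simp only [wslot, wS, wP, wQ, h0]
          push_cast; simp; ring
        · simp only [wslot, wS, wP, wQ, h0]
          push_cast; simp
      · have hne : (i' : ℕ) ≠ i := fun e => hii (Fin.ext e)
        left
        show n + 2 * m + (i : ℕ) < era (Wn.M s' i') 5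
        rw [hera]
        have e1 : (2 * m) % 2 = 0 := by omega
        simp only [fp, fd, wslot, wS, wP, wQ, St, pos, h0, e1, if_true] at hd
        cases b <;> simp at hd <;> omega
    · exfalso
      have hs' := s'.2
      have hlt : (s' : ℕ) + 1 ≤ 2 * m := by omega
      have h1 : ((s' : ℕ) + 1) * NN n m ≤ (2 * m) * NN n m := Nat.mul_le_mul_right _ hlt
      have hp := pos_lt (s := (s' : ℕ)) hi'
      simp only [fp, fd, wslot, wS, wP, wQ, St] at hd
      rw [add_mul, one_mul] at h1
      cases b <;> simp at hd <;> omega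
  · exfalso
    have hs' := s'.2
    have hlt : (s' : ℕ) + 1 ≤ 2 * m := by omega
    have h1 : ((s' : ℕ) + 1) * NN n m ≤ (2 * m) * NN n m := Nat.mul_le_mul_right _ hlt
    have hp := pos_lt (s := (s' : ℕ)) (htv s' s'.2)
    have hpv := pp_val s'
    simp only [fp, fd, wslot, wS, wP, wQ, St] at hd
    rw [add_mul, one_mul] at h1
    cases b <;> simp at hd <;> omega

/-- times of the gadget: distance of the two tap windows of an edge -/
lemma St_diff (htv : ∀ s < 2 * m, tv s < n) {s : ℕ} (hs : s + 1 < 2 * m) (h0 : s % 2 = 0) :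
    (St n m (s + 1) (tv (s + 1)) : ℤ) - St n m s (tv s) =
      NN n m - 32 * ((tv s : ℤ) + tv (s + 1) - ((n : ℤ) - 1)) := by
  have h1 := htv (s + 1) hs
  have e1 : (s + 1) % 2 = 1 := by omega
  have e2 : (pos n (s + 1) (tv (s + 1)) : ℤ) = n - 1 - tv (s + 1) := by
    unfold pos; rw [e1]; simp; omega
  have e3 : pos n s (tv s) = tv s := by unfold pos; rw [if_pos h0]
  unfold St
  push_cast
  rw [e2, e3]; ring

lemma NN_big (n m : ℕ) : (2500 : ℤ) * n + 2500 * m ≤ NN n m := by
  unfold NN sc
  have := Nat.le_self_pow (two_ne_zero) n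
  have h : (n : ℤ) ≤ (n : ℤ) ^ 2 := by exact_mod_cast this
  push_cast
  nlinarith

lemma rc0_D_T (s s' : Fin (2 * m)) (b : Bool) : rc0 tv (.D s : Fl n m) (.T s' : Wn n m) b =
    fw tv (.D s : Fl n m) * ((wslot tv (.T s' : Wn n m) 8 b : ℤ) - (fd tv (.D s : Fl n m) : ℕ))
      + fc tv (.D s : Fl n m) - Gs n m tv s' b := by
  simp only [rc0, fp, V0, VT, if_true]

lemma wslot_T_false (s : Fin (2 * m)) : wslot tv (.T s : Wn n m) 8 false =
    St n m s (tv s) - 16 + pp s + 8 := by
  simp only [wslot, wS, wP, wQ]; simp

lemma wslot_T_true (s : Fin (2 * m)) : wslot tv (.T s : Wn n m) 8 true =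
    St n m s (tv s) - 16 + 8 := by
  simp only [wslot, wS, wP, wQ]; simp

lemma era_T8 (s : Fin (2 * m)) : era (.T s : Wn n m) 8 = (s : ℕ) / 2 := by simp [era, ET]

lemma good_D_even (htv : ∀ s < 2 * m, tv s < n) (s : Fin (2 * m)) (h0 : (s : ℕ) % 2 = 0) :
    Good tv (.D s : Fl n m) := by
  intro w b hw hd
  have hs := s.2
  have hNN := NN_ge n m
  have hst := htv s s.2
  have hge : 16 ≤ St n m s (tv s) := by unfold St; omega
  have hfd : fd tv (.D s : Fl n m) = St n m s (tv s) - 8 := by
    simp only [fd]; rw [if_pos h0]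
  have hfc : fc tv (.D s : Fl n m) = 0 := by
    simp only [fc]; rw [if_pos h0]
  have hfw : fw tv (.D s : Fl n m) = 32 * NN n m - 32 := by
    simp only [fw, wD]; rw [if_pos h0]
  rcases w with ⟨s', i'⟩ | s'
  · exfalso; rcases hw with h | h <;> simp [fp, wP, wQ] at h
  · have hera := era_T8 (n := n) s'
    have hfp : fp (.D s : Fl n m) = 8 := rfl
    rw [hfp] at hd
    rw [hfp]
    have hfe : fera (.D s : Fl n m) = (s : ℕ) / 2 := rfl
    rw [hfe]
    have hst' := htv s' s'.2
    rcases lt_trichotomy (s' : ℕ) s with h | h | h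
    · exfalso
      have h1 : ((s' : ℕ) + 1) * NN n m ≤ s * NN n m := Nat.mul_le_mul_right _ h
      have hp := pos_lt (s := (s' : ℕ)) hst'
      have hpv := pp_val s'
      rw [hfd] at hd
      rw [add_mul, one_mul] at h1
      cases b
      · rw [wslot_T_false] at hd
        unfold St at hd; omega
      · rw [wslot_T_true] at hd
        unfold St at hd; omega
    · -- same window
      have hss : s' = s := Fin.ext h
      subst hss
      right
      refine ⟨hera.symm, ?_⟩
      have e1 : pp (s' : ℕ) = 5 := by unfold pp; rw [if_pos h0]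
      cases b
      · right
        have e2 : Gs n m tv s' false = 40 * wT n m tv s' := by
          unfold Gs; rw [if_pos h0]; simp
        have e4 : wT n m tv s' ≤ 2 * NN n m + 64 * n := by
          unfold wT; rw [if_pos h0]
          have := htv (s' + 1) (by omega)
          omega
        rw [rc0_D_T, hfw, hfc, hfd, wslot_T_false, e1, e2]
        push_cast [Nat.cast_sub hge, Nat.cast_sub (show 8 ≤ St n m s' (tv s') by omega)]
        have h5 := NN_big n m
        have hm1 : 1 ≤ m := by omega
        have hn1 : 1 ≤ n := by omega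
        have hm1' : (1 : ℤ) ≤ m := by exact_mod_cast hm1
        have hn1' : (1 : ℤ) ≤ n := by exact_mod_cast hn1
        generalize (NN n m : ℤ) = N at *
        generalize wT n m tv s' = W at *
        linarith
      · left
        refine ⟨by simp [Intd, h0], ?_⟩
        have hpen : pen (.D s' : Fl n m) (.T s') true = 0 := by
          simp only [pen]; rw [if_neg (by omega)]
        have e2 : Gs n m tv s' true = 0 := by
          unfold Gs; rw [if_pos h0]; simp
        rw [hpen, rc0_D_T, hfw, hfc, hfd, wslot_T_true, e2]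
        push_cast [Nat.cast_sub hge, Nat.cast_sub (show 8 ≤ St n m s' (tv s') by omega)]
        ring
    · rcases Nat.lt_or_ge (s + 1) (s' : ℕ) with h' | h'
      · left
        rw [hera]; omega
      · have h2 : (s' : ℕ) = s + 1 := by omega
        right
        refine ⟨?_, ?_⟩
        · rw [hera]; omega
        · left
          refine ⟨?_, ?_⟩
          · simp only [Intd]; left; exact ⟨h0, Or.inr h2⟩
          · have hs1 : (s : ℕ) + 1 < 2 * m := by rw [← h2]; exact s'.2
            have hdiff := St_diff (n := n) (m := m) htv hs1 h0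
            have hge' : 16 ≤ St n m (s + 1) (tv (s + 1)) := by unfold St; omega
            have e0 : ¬ ((s : ℕ) + 1) % 2 = 0 := by omega
            have e1 : pp ((s : ℕ) + 1) = 6 := by unfold pp; rw [if_neg e0]
            have e5 : wT n m tv (s + 1) = 4 * NN n m + 1 := by unfold wT; rw [if_neg e0]
            have e4 : ∀ b : Bool, Gs n m tv s' b = (32 * NN n m - 32) *
                ((St n m (s + 1) (tv (s + 1)) : ℤ) - St n m s (tv s) + 6)
                - (if b then 48 * (4 * (NN n m : ℤ) + 1) else 0) := by
              intro b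
              unfold Gs; rw [h2, if_neg e0, e5]; simp
            cases b
            · have hpen : pen (.D s : Fl n m) (.T s') false = 0 := by
                simp only [pen]; rw [if_neg (by simp; omega)]
              rw [hpen, rc0_D_T, hfw, hfc, hfd, wslot_T_false, e4, h2, e1]
              push_cast [Nat.cast_sub hge', Nat.cast_sub (show 8 ≤ St n m s (tv s) by omega)]
              try simp only [Bool.false_eq_true, if_false]
              ring
            · have hpen : pen (.D s : Fl n m) (.T s') true = 240 := by
                simp only [pen]; rw [if_pos (by simp; omega)]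
              rw [hpen, rc0_D_T, hfw, hfc, hfd, wslot_T_true, e4, h2]
              push_cast [Nat.cast_sub hge', Nat.cast_sub (show 8 ≤ St n m s (tv s) by omega)]
              try simp only [if_true]
              ring

lemma good_D_odd (htv : ∀ s < 2 * m, tv s < n) (s : Fin (2 * m)) (h0 : (s : ℕ) % 2 = 1) :
    Good tv (.D s : Fl n m) := by
  intro w b hw hd
  have hs := s.2
  have hNN := NN_ge n m
  obtain ⟨s0, hs0⟩ : ∃ s0, (s : ℕ) = s0 + 1 := ⟨s - 1, by omega⟩
  have h00 : s0 % 2 = 0 := by omega
  have h0' : ¬ (s0 + 1) % 2 = 0 := by omega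
  have hs01 : s0 + 1 < 2 * m := by omega
  have hst0 := htv s0 (by omega)
  have hge0 : 16 ≤ St n m s0 (tv s0) := by unfold St; omega
  have hge1 : 16 ≤ St n m (s0 + 1) (tv (s0 + 1)) := by unfold St; omega
  have hfd : fd tv (.D s : Fl n m) = St n m s0 (tv s0) - 3 := by
    simp only [fd]; rw [hs0, if_neg h0']; simp
  have hfc : fc tv (.D s : Fl n m) = 40 * wT n m tv s0 := by
    simp only [fc]; rw [hs0, if_neg h0']; simp
  have hfw : fw tv (.D s : Fl n m) = 32 * NN n m + 48 := by
    simp only [fw, wD]; rw [hs0, if_neg h0']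
  have hdiff := St_diff (n := n) (m := m) htv hs01 h00
  have e5 : wT n m tv (s0 + 1) = 4 * NN n m + 1 := by unfold wT; rw [if_neg h0']
  have e6 : wT n m tv s0 = 2 * NN n m + 64 * ((tv s0 : ℤ) + tv (s0 + 1) - ((n : ℤ) - 1)) := by
    unfold wT; rw [if_pos h00]
  rcases w with ⟨s', i'⟩ | s'
  · exfalso; rcases hw with h | h <;> simp [fp, wP, wQ] at h
  · have hera := era_T8 (n := n) s'
    have hst' := htv s' s'.2
    have hfp : fp (.D s : Fl n m) = 8 := rfl
    rw [hfp] at hd
    rw [hfp]
    have hfe : fera (.D s : Fl n m) = (s : ℕ) / 2 := rfl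
    rw [hfe]
    rcases lt_trichotomy (s' : ℕ) s0 with h | h | h
    · exfalso
      have h1 : ((s' : ℕ) + 1) * NN n m ≤ s0 * NN n m := Nat.mul_le_mul_right _ h
      have hp := pos_lt (s := (s' : ℕ)) hst'
      have hpv := pp_val s'
      rw [hfd] at hd
      rw [add_mul, one_mul] at h1
      cases b
      · rw [wslot_T_false] at hd
        unfold St at hd; omega
      · rw [wslot_T_true] at hd
        unfold St at hd; omega
    · -- first window
      right
      refine ⟨?_, ?_⟩
      · rw [hera]; omega
      cases b
      · left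
        refine ⟨?_, ?_⟩
        · simp only [Intd]; right; exact ⟨h0, Or.inl ⟨by omega, trivial⟩⟩
        · have hpen : pen (.D s : Fl n m) (.T s') false = 0 := by
            simp only [pen]; rw [if_neg (by omega)]
          have e2 : Gs n m tv s' false = 40 * wT n m tv s0 := by
            unfold Gs; rw [h, if_pos h00]; simp
          have e1 : pp s0 = 5 := by unfold pp; rw [if_pos h00]
          rw [hpen, rc0_D_T, hfw, hfc, hfd, wslot_T_false, e2, h, e1]
          push_cast [Nat.cast_sub hge0, Nat.cast_sub (show 3 ≤ St n m s0 (tv s0) by omega)]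
          ring
      · exfalso
        rw [hfd, wslot_T_true, h] at hd
        omega
    · rcases Nat.lt_or_ge (s0 + 1) (s' : ℕ) with h' | h'
      · left
        rw [hera]; omega
      · have h2 : (s' : ℕ) = s0 + 1 := by omega
        right
        refine ⟨?_, ?_⟩
        · rw [hera]; omega
        · left
          refine ⟨?_, ?_⟩
          · simp only [Intd]; right; exact ⟨h0, Or.inr (by omega)⟩
          · have e4 : ∀ b : Bool, Gs n m tv s' b = (32 * NN n m - 32) *
                ((St n m (s0 + 1) (tv (s0 + 1)) : ℤ) - St n m s0 (tv s0) + 6)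
                - (if b then 48 * (4 * (NN n m : ℤ) + 1) else 0) := by
              intro b
              unfold Gs; rw [h2, if_neg h0', e5]; simp
            have e1 : pp (s0 + 1) = 6 := by unfold pp; rw [if_neg h0']
            obtain ⟨D, hD⟩ : ∃ D : ℤ, (St n m (s0 + 1) (tv (s0 + 1)) : ℤ) =
              St n m s0 (tv s0) + D := ⟨_, (add_sub_cancel _ _).symm⟩
            have hD' : 2 * D = 4 * NN n m - wT n m tv s0 := by
              rw [hD] at hdiff; rw [e6]; linarith
            have hw' : wT n m tv s0 = 4 * NN n m - 2 * D := by linarith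
            cases b
            · have hpen : pen (.D s : Fl n m) (.T s') false = 240 := by
                simp only [pen]; rw [if_pos (by right; exact ⟨h0, by omega, trivial⟩)]
              rw [hpen, rc0_D_T, hfw, hfc, hfd, wslot_T_false, e4, h2, e1]
              push_cast [Nat.cast_sub hge1, Nat.cast_sub (show 3 ≤ St n m s0 (tv s0) by omega)]
              rw [hD, hw']
              try simp only [Bool.false_eq_true, if_false]
              ring
            · have hpen : pen (.D s : Fl n m) (.T s') true = 0 := by
                simp only [pen]; rw [if_neg (by simp; omega)]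
              rw [hpen, rc0_D_T, hfw, hfc, hfd, wslot_T_true, e4, h2]
              push_cast [Nat.cast_sub hge1, Nat.cast_sub (show 3 ≤ St n m s0 (tv s0) by omega)]
              rw [hD, hw']
              try simp only [if_true]
              ring

theorem good (htv : ∀ s < 2 * m, tv s < n) (f : Fl n m) : Good tv f := by
  rcases f with i | i | ⟨s, i⟩ | ⟨s, i⟩ | s | s
  · exact good_L0 i
  · exact good_LL htv i
  · exact good_I htv s i
  · exact good_O htv s i
  · exact good_C htv s
  · rcases Nat.mod_two_eq_zero_or_one (s : ℕ) with h | h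
    · exact good_D_even htv s h
    · exact good_D_odd htv s h

end jobs

end Pool.Agent.H77.Tard.Inst
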