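import Mathlib
import Pool.Agent.H77.Tard.Pot

set_option autoImplicit false
set_option linter.unusedSectionVars false
set_option linter.unusedSimpArgs false
set_option linter.unusedVariables false

namespace Pool.Agent.H77.Tard.Inst

open Finset

/-- horizon -/
def HH (n m : ℕ) : ℕ := 2 * m * NN n m + 32 * n

/-- is the time unit `[y, y+1)` inside one of the windows? -/
def inWin (n m : ℕ) (tv : ℕ → ℕ) (y : ℕ) : Bool :=
  (List.range (2 * m + 1)).any (fun s => (List.range n).any (fun i =>
    decide (St n m s i ≤ y ∧ y < St n m s i + 11))) ||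
  (List.range (2 * m)).any (fun s =>
    decide (St n m s (tv s) - 16 ≤ y ∧ y < St n m s (tv s) - 16 + pp s + 8))

/-- the blocked time units -/
def fixL (n m : ℕ) (tv : ℕ → ℕ) : List ℕ := (List.range (HH n m)).filter (fun y => !inWin n m tv y)

section lay

variable {n m : ℕ} {tv : ℕ → ℕ}

lemma inWin_iff (y : ℕ) : inWin n m tv y = true ↔
    ∃ t : Wn n m, wS tv t ≤ y ∧ y < wS tv t + wP t + wQ t := by
  unfold inWin
  simp only [Bool.or_eq_true, List.any_eq_true, List.mem_range, decide_eq_true_eq]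
  constructor
  · rintro (⟨s, hs, i, hi, h1, h2⟩ | ⟨s, hs, h1, h2⟩)
    · refine ⟨.M ⟨s, hs⟩ ⟨i, hi⟩, ?_⟩
      simp only [wS, wP, wQ]; omega
    · refine ⟨.T ⟨s, hs⟩, ?_⟩
      simp only [wS, wP, wQ]; omega
  · rintro ⟨⟨s, i⟩ | s, h1, h2⟩
    · left
      refine ⟨s, s.2, i, i.2, ?_⟩
      simp only [wS, wP, wQ] at h1 h2; omega
    · right
      refine ⟨s, s.2, ?_⟩
      simp only [wS, wP, wQ] at h1 h2; omega

lemma mem_fixL (y : ℕ) : y ∈ fixL n m tv ↔ y < HH n m ∧
    ∀ t : Wn n m, ¬ (wS tv t ≤ y ∧ y < wS tv t + wP t + wQ t) := by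
  unfold fixL
  rw [List.mem_filter, List.mem_range]
  have := inWin_iff (n := n) (m := m) (tv := tv) y
  constructor
  · rintro ⟨h1, h2⟩
    refine ⟨h1, ?_⟩
    intro t ht
    have : inWin n m tv y = true := this.2 ⟨t, ht⟩
    rw [this] at h2; simp at h2
  · rintro ⟨h1, h2⟩
    refine ⟨h1, ?_⟩
    by_contra h
    have h' : inWin n m tv y = true := by
      cases hh : inWin n m tv y
      · rw [hh] at h; simp at h
      · rfl
    obtain ⟨t, ht⟩ := this.1 h'
    exact h2 t ht

lemma fixL_nodup : (fixL n m tv).Nodup := List.Nodup.filter _ List.nodup_range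

lemma wPQ (t : Wn n m) : (wP t = 5 ∧ wQ t = 6) ∨ (wP t = 5 ∧ wQ t = 8) ∨ (wP t = 6 ∧ wQ t = 8) := by
  rcases t with ⟨s, i⟩ | s
  · left; simp [wP, wQ]
  · rcases pp_val s with h | h <;> simp [wP, wQ, h]

/-- every window lies in its block -/
lemma block (htv : ∀ s < 2 * m, tv s < n) (t : Wn n m) : ∃ s j, s ≤ 2 * m ∧ j < n ∧
    ((∃ (s' : Fin (2 * m + 1)) (i : Fin n), t = .M s' i ∧ (s' : ℕ) = s ∧ pos n s i = j ∧
      wS tv t = s * NN n m + 32 * j + 16) ∨
     (∃ s' : Fin (2 * m), t = .T s' ∧ (s' : ℕ) = s ∧ pos n s (tv s) = j ∧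
      wS tv t = s * NN n m + 32 * j)) := by
  rcases t with ⟨s, i⟩ | s
  · refine ⟨s, pos n s i, by omega, pos_lt i.2, Or.inl ⟨s, i, rfl, rfl, rfl, ?_⟩⟩
    simp only [wS, St]
  · refine ⟨s, pos n s (tv s), by omega, pos_lt (htv s s.2), Or.inr ⟨s, rfl, rfl, rfl, ?_⟩⟩
    simp only [wS, St]; omega

lemma lay_sep (htv : ∀ s < 2 * m, tv s < n) (t t' : Wn n m) (hne : t ≠ t') :
    wS tv t + wP t + wQ t < wS tv t' ∨ wS tv t' + wP t' + wQ t' < wS tv t := by
  have hNN := NN_ge n m
  obtain ⟨s, j, hs, hj, h⟩ := block htv t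
  obtain ⟨s', j', hs', hj', h'⟩ := block htv t'
  have hPQ := wPQ t
  have hPQ' := wPQ t'
  have bd : s * NN n m + 32 * j ≤ wS tv t ∧ wS tv t + wP t + wQ t ≤ s * NN n m + 32 * j + 27 := by
    rcases h with ⟨a, b, e1, e2, e3, e4⟩ | ⟨a, e1, e2, e3, e4⟩
    · rw [e4, e1]; simp only [wP, wQ]; omega
    · rw [e4]; omega
  have bd' : s' * NN n m + 32 * j' ≤ wS tv t' ∧
      wS tv t' + wP t' + wQ t' ≤ s' * NN n m + 32 * j' + 27 := by
    rcases h' with ⟨a, b, e1, e2, e3, e4⟩ | ⟨a, e1, e2, e3, e4⟩
    · rw [e4, e1]; simp only [wP, wQ]; omega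
    · rw [e4]; omega
  rcases lt_trichotomy s s' with hss | hss | hss
  · left
    have h1 : (s + 1) * NN n m ≤ s' * NN n m := Nat.mul_le_mul_right _ hss
    rw [add_mul, one_mul] at h1
    omega
  · subst hss
    rcases lt_trichotomy j j' with hjj | hjj | hjj
    · left; omega
    · subst hjj
      rcases h with ⟨a, b, e1, e2, e3, e4⟩ | ⟨a, e1, e2, e3, e4⟩ <;>
      rcases h' with ⟨a', b', e1', e2', e3', e4'⟩ | ⟨a', e1', e2', e3', e4'⟩
      · exfalso
        apply hne
        have : a = a' := Fin.ext (by omega)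
        subst this
        have : (b : ℕ) = b' := pos_inj b.2 b'.2 (by rw [e3, e3'])
        have : b = b' := Fin.ext this
        subst this
        rw [e1, e1']
      · right; rw [e4, e4']; omega
      · left; rw [e4, e4']; omega
      · exfalso
        apply hne
        have : a = a' := Fin.ext (by omega)
        subst this
        rw [e1, e1']
    · right; omega
  · right
    have h1 : (s' + 1) * NN n m ≤ s * NN n m := Nat.mul_le_mul_right _ hss
    rw [add_mul, one_mul] at h1
    omega

lemma lay_hor (htv : ∀ s < 2 * m, tv s < n) (t : Wn n m) :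
    wS tv t + wP t + wQ t ≤ HH n m := by
  obtain ⟨s, j, hs, hj, h⟩ := block htv t
  have hPQ := wPQ t
  have bd : s * NN n m + 32 * j ≤ wS tv t ∧ wS tv t + wP t + wQ t ≤ s * NN n m + 32 * j + 27 := by
    rcases h with ⟨a, b, e1, e2, e3, e4⟩ | ⟨a, e1, e2, e3, e4⟩
    · rw [e4, e1]; simp only [wP, wQ]; omega
    · rw [e4]; omega
  have h1 : s * NN n m ≤ 2 * m * NN n m := Nat.mul_le_mul_right _ hs
  unfold HH
  omega

lemma sum_pp (m : ℕ) : ∑ s : Fin (2 * m), pp s = 11 * m := by
  rw [Fin.sum_univ_eq_sum_range (fun s => pp s) (2 * m)]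
  induction m with
  | zero => simp
  | succ k ih =>
    rw [show 2 * (k + 1) = 2 * k + 1 + 1 by ring, Finset.sum_range_succ, Finset.sum_range_succ, ih]
    have h1 : pp (2 * k) = 5 := by unfold pp; rw [if_pos (by omega)]
    have h2 : pp (2 * k + 1) = 6 := by unfold pp; rw [if_neg (by omega)]
    rw [h1, h2]; ring

lemma sum_fp (n m : ℕ) : ∑ f : Fl n m, fp f = ∑ t : Wn n m, (wP t + wQ t) := by
  rw [sum_Fl, sum_Wn]
  simp only [fp, wP, wQ, Finset.sum_const, Finset.card_univ, Fintype.card_fin, smul_eq_mul,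
    Finset.sum_add_distrib]
  rw [← Finset.mul_sum, sum_pp]
  ring

lemma total_eq (htv : ∀ s < 2 * m, tv s < n) :
    ∑ f : Fl n m, fp f + (fixL n m tv).length = HH n m := by
  classical
  rw [sum_fp]
  let I : Wn n m → Finset ℕ := fun t => Finset.Ico (wS tv t) (wS tv t + wP t + wQ t)
  have hdis : ∀ i ∈ (univ : Finset (Wn n m)), ∀ k ∈ (univ : Finset (Wn n m)),
      i ≠ k → Disjoint (I i) (I k) := by
    intro i _ k _ hik
    rw [Finset.disjoint_left]
    intro z hz1 hz2
    simp only [I, Finset.mem_Ico] at hz1 hz2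
    rcases lay_sep htv i k hik with h | h <;> omega
  have hcard : (univ.biUnion I).card = ∑ t : Wn n m, (wP t + wQ t) := by
    rw [Finset.card_biUnion hdis]
    apply Finset.sum_congr rfl
    intro k _
    simp only [I, Nat.card_Ico]
    omega
  have hfix : (fixL n m tv).toFinset = Finset.range (HH n m) \ univ.biUnion I := by
    ext y
    rw [List.mem_toFinset, mem_fixL]
    simp only [Finset.mem_sdiff, Finset.mem_range, Finset.mem_biUnion, I, Finset.mem_Ico,
      mem_univ, true_and, not_exists]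
  have hsub : univ.biUnion I ⊆ Finset.range (HH n m) := by
    intro y
    simp only [Finset.mem_range, Finset.mem_biUnion, I, Finset.mem_Ico, mem_univ, true_and]
    rintro ⟨t, h1, h2⟩
    have := lay_hor htv t
    omega
  have hlen : (fixL n m tv).length = (fixL n m tv).toFinset.card :=
    (List.toFinset_card_of_nodup fixL_nodup).symm
  rw [hlen, hfix, Finset.card_sdiff_of_subset hsub, hcard, Finset.card_range]
  have := Finset.card_le_card hsub
  rw [hcard, Finset.card_range] at this
  omega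

/-- the layout of the instance -/
def lay (htv : ∀ s < 2 * m, tv s < n) (Lam : ℕ) :
    Layout (Fl n m) (Fin (fixL n m tv).length) (Wn n m) where
  S := wS tv
  P := wP
  Q := wQ
  H := HH n m
  pf := fp
  df := fd tv
  ef := fun f => (fw tv f).toNat
  ux := fun x => (fixL n m tv)[x]
  Λ := Lam
  hPQ := wPQ
  hpf := by
    intro f
    rcases f with i | i | ⟨s, i⟩ | ⟨s, i⟩ | s | s <;> simp only [fp]
    · simp
    · simp
    · rcases pp_val s with h | h <;> simp [h]
    · rcases pp_val s with h | h <;> simp [h]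
    · rcases pp_val s with h | h <;> simp [h]
    · simp
  sep := lay_sep htv
  hor := lay_hor htv
  uxH := by
    intro x
    have : (fixL n m tv)[x] ∈ fixL n m tv := List.getElem_mem _
    exact ((mem_fixL _).1 this).1
  uxinj := by
    intro x y h
    have := (List.Nodup.getElem_inj_iff fixL_nodup).1 h
    exact Fin.ext this
  uxwin := by
    intro x t
    have : (fixL n m tv)[x] ∈ fixL n m tv := List.getElem_mem _
    have h := ((mem_fixL _).1 this).2 t
    omega
  uxcov := by
    intro y hy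
    by_cases h : y ∈ fixL n m tv
    · left
      obtain ⟨i, hi, he⟩ := List.getElem_of_mem h
      exact ⟨⟨i, hi⟩, he⟩
    · right
      rw [mem_fixL] at h
      push Not at h
      obtain ⟨t, h1, h2⟩ := h hy
      exact ⟨t, h1, h2⟩
  card := card_Fl n m
  total := by rw [Fintype.card_fin]; exact total_eq htv

/-! balance -/

lemma VM_bal {s i a : ℕ} (hs : s ≤ 2 * m) (hi : i < n) (ha : a = 5 ∨ a = 6) :
    VM n m s i a false - VM n m s i a true = 30 * om n m s i := by
  unfold VM
  by_cases h : a = pp s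
  · rw [if_pos h, if_pos h]
    by_cases h2 : s < 2 * m
    · rw [if_pos h2, if_pos h2]
      simp only [Bool.false_eq_true, if_false, if_true]
      unfold lAs eAs
      rw [Core.lA_sub_eA (par s)]
      unfold om AA; push_cast; ring
    · rw [if_neg h2, if_neg h2]; simp
  · rw [if_neg h, if_neg h]
    by_cases h2 : s = 0
    · rw [if_pos h2, if_pos h2]; simp
    · rw [if_neg h2, if_neg h2]
      obtain ⟨k, rfl⟩ : ∃ k, s = k + 1 := ⟨s - 1, by omega⟩
      simp only [Bool.false_eq_true, if_false, if_true, Nat.add_sub_cancel]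
      unfold lBs eBs Core.lB om
      rw [zz_succ hi]
      unfold Core.wb; ring

lemma VT_bal {s a : ℕ} (ha : a = pp s ∨ a = 8) :
    VT n m tv s a false - VT n m tv s a true = 8 * pp s * wT n m tv s := by
  unfold VT
  rcases ha with h | h
  · have h8 : a ≠ 8 := by rcases pp_val s with h' | h' <;> omega
    rw [if_neg h8, if_neg h8]
    simp only [Bool.false_eq_true, if_false, if_true]
    unfold lTs eTs Core.lT; ring
  · rw [if_pos h, if_pos h]
    unfold Gs pp
    by_cases h0 : s % 2 = 0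
    · rw [if_pos h0, if_pos h0, if_pos h0]; simp
    · rw [if_neg h0, if_neg h0, if_neg h0]; simp

lemma bal (t : Wn n m) : V0 tv t (wP t) true + V0 tv t (wQ t) false =
    V0 tv t (wP t) false + V0 tv t (wQ t) true := by
  rcases t with ⟨s, i⟩ | s
  · have h1 := VM_bal (n := n) (m := m) (s := s) (i := i) (a := 5) (by omega) i.2 (Or.inl rfl)
    have h2 := VM_bal (n := n) (m := m) (s := s) (i := i) (a := 6) (by omega) i.2 (Or.inr rfl)
    simp only [V0, wP, wQ]
    linarith
  · have h1 := VT_bal (n := n) (m := m) (tv := tv) (s := s) (a := pp s) (Or.inl rfl)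
    have h2 := VT_bal (n := n) (m := m) (tv := tv) (s := s) (a := 8) (Or.inr rfl)
    simp only [V0, wP, wQ]
    linarith

end lay

end Pool.Agent.H77.Tard.Inst
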