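import Mathlib
import Pool.Agent.H77.Tard.Lay

set_option autoImplicit false
set_option linter.unusedSectionVars false
set_option linter.unusedSimpArgs false
set_option linter.unusedVariables false

namespace Pool.Agent.H77.Tard

open Finset

namespace Layout

variable {F X W : Type} [Fintype F] [Fintype X] [Fintype W] [DecidableEq F] [DecidableEq X]
  [DecidableEq W] (L : Layout F X W)

lemma Valid.surj {L : Layout F X W} {x : W → Bool} {τ : F → W} (hv : L.Valid x τ) (t : W) {a : ℕ}
    (ha : a = L.P t ∨ a = L.Q t) : ∃ f, τ f = t ∧ L.pf f = a := by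
  let g : F → W × Bool := fun f => (τ f, decide (L.pf f = L.P (τ f)))
  have hginj : Function.Injective g := by
    intro f f' h
    simp only [g, Prod.mk.injEq, decide_eq_decide] at h
    apply hv.inj f f' h.1
    have h1 := hv.typ f
    have h2 := hv.typ f'
    rw [← h.1] at h2
    have h3 := h.2
    rw [← h.1] at h3
    by_cases h4 : L.pf f = L.P (τ f)
    · rw [h4, h3.1 h4]
    · have h5 : ¬ L.pf f' = L.P (τ f) := fun e => h4 (h3.2 e)
      rcases h1 with h1 | h1
      · exact absurd h1 h4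
      · rcases h2 with h2 | h2
        · exact absurd h2 h5
        · rw [h1, h2]
  have hgbij : Function.Bijective g := by
    rw [Fintype.bijective_iff_injective_and_card]
    refine ⟨hginj, ?_⟩
    rw [L.card]; simp [mul_comm]
  rcases ha with rfl | rfl
  · obtain ⟨f, hf⟩ := hgbij.2 (t, true)
    simp only [g, Prod.mk.injEq, decide_eq_true_eq] at hf
    exact ⟨f, hf.1, by rw [← hf.1]; exact hf.2⟩
  · obtain ⟨f, hf⟩ := hgbij.2 (t, false)
    simp only [g, Prod.mk.injEq, decide_eq_false_iff_not] at hf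
    refine ⟨f, hf.1, ?_⟩
    rw [← hf.1]
    rcases hv.typ f with h | h
    · exact absurd h hf.2
    · exact h

end Layout

namespace Inst

variable {n m : ℕ} {tv : ℕ → ℕ}

lemma sc_n (n m : ℕ) : (50 : ℤ) * n ≤ sc n m := (par (n := n) (m := m) 0).c_n

lemma fw_nonneg (htv : ∀ s < 2 * m, tv s < n) (f : Fl n m) : 0 ≤ fw tv f := by
  have hc : (0 : ℤ) ≤ sc n m := by positivity
  have hcn := sc_n n m
  rcases f with i | i | ⟨s, i⟩ | ⟨s, i⟩ | s | s
  · simp only [fw]
    have := om_pos (n := n) (m := m) htv (s := 0) i.2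
    have : (0 : ℤ) ≤ 18 * (sc n m : ℤ) * n := by positivity
    linarith
  · simp only [fw]
    have := om_pos (n := n) (m := m) htv (s := 2 * m) i.2
    have : (0 : ℤ) ≤ 18 * (sc n m : ℤ) * n := by positivity
    linarith
  · simp only [fw, wI]
    have hp := par (n := n) (m := m) s
    have hz := zz_abs (s := (s : ℕ)) i.2
    have h1 := Core.A_big hp hz
    have h2 := Core.le_r' hp hz
    have h3 := Core.le_r hp hz (le_refl 0)
    apply mul_nonneg (by positivity)
    linarith
  · simp only [fw, wO]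
    have hp := par (n := n) (m := m) s
    have hz := zz_abs (s := (s : ℕ)) i.2
    have h1 := Core.A_big hp hz
    apply mul_nonneg (by positivity)
    rcases dl_cases (tv := tv) s i with h | h <;> rw [h.2] <;> linarith
  · simp only [fw, wC, Core.sC]
    have hp := par (n := n) (m := m) s
    have hz := zz_abs (s := (s : ℕ)) (htv s s.2)
    have h1 := Core.A_big hp hz
    have h2 := wT_le (n := n) (m := m) htv s.2
    have h3 := abs_le.1 hz
    have h4 : (qq (s : ℕ) : ℤ) ≤ 6 := by unfold qq; split_ifs <;> norm_num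
    have h5 : (50 : ℤ) ≤ sc n m := by
      have := hp.c_n2; nlinarith [sq_nonneg (n : ℤ)]
    apply mul_nonneg (by positivity)
    linarith
  · simp only [fw, wD]
    have := NN_ge n m
    split_ifs <;> omega

/-- the era-shifted potentials -/
def VH (tv : ℕ → ℕ) (H : ℤ) (t : Wn n m) (a : ℕ) (b : Bool) : ℤ := V0 tv t a b - H * era t a
def cH (tv : ℕ → ℕ) (H : ℤ) (f : Fl n m) : ℤ := fc tv f - H * fera f

lemma slot_eq (htv : ∀ s < 2 * m, tv s < n) (Lam : ℕ) (t : Wn n m) (a : ℕ) (b : Bool) :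
    (lay htv Lam).slot t a b = wslot tv t a b := rfl

lemma rc_eq (htv : ∀ s < 2 * m, tv s < n) (Lam : ℕ) (H : ℤ) (f : Fl n m) (t : Wn n m) (b : Bool) :
    (lay htv Lam).rc (VH tv H) (cH tv H) f t b =
      rc0 tv f t b + H * ((era t (fp f) : ℤ) - fera f) := by
  have h1 : (((lay htv Lam).ef f : ℕ) : ℤ) = fw tv f := Int.toNat_of_nonneg (fw_nonneg htv f)
  unfold Layout.rc
  rw [h1, slot_eq]
  show fw tv f * ((wslot tv t (fp f) b : ℤ) - fd tv f) + cH tv H f - VH tv H t (fp f) b = _
  unfold cH VH rc0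
  ring

lemma exists_H (htv : ∀ s < 2 * m, tv s < n) (Lam : ℕ) : ∃ H : ℤ,
    ∀ (f : Fl n m) (t : Wn n m) (b : Bool), (fp f = wP t ∨ fp f = wQ t) →
      fd tv f ≤ wslot tv t (fp f) b →
      (Intd tv f t b ∧ (lay htv Lam).rc (VH tv H) (cH tv H) f t b = pen f t b) ∨
      240 * (m : ℤ) + 1 ≤ (lay htv Lam).rc (VH tv H) (cH tv H) f t b := by
  refine ⟨240 * (m : ℤ) + 1 + ∑ f : Fl n m, ∑ t : Wn n m, ∑ b : Bool, |rc0 tv f t b|, ?_⟩
  set H : ℤ := 240 * (m : ℤ) + 1 + ∑ f : Fl n m, ∑ t : Wn n m, ∑ b : Bool, |rc0 tv f t b| with hH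
  intro f t b hw hd
  have hbound : |rc0 tv f t b| ≤ ∑ f : Fl n m, ∑ t : Wn n m, ∑ b : Bool, |rc0 tv f t b| := by
    have h1 : |rc0 tv f t b| ≤ ∑ b : Bool, |rc0 tv f t b| :=
      Finset.single_le_sum (f := fun b => |rc0 tv f t b|) (fun _ _ => abs_nonneg _) (mem_univ b)
    have h2 : ∑ b : Bool, |rc0 tv f t b| ≤ ∑ t : Wn n m, ∑ b : Bool, |rc0 tv f t b| :=
      Finset.single_le_sum (f := fun t => ∑ b : Bool, |rc0 tv f t b|)
        (fun _ _ => Finset.sum_nonneg (fun _ _ => abs_nonneg _)) (mem_univ t)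
    have h3 : ∑ t : Wn n m, ∑ b : Bool, |rc0 tv f t b| ≤
        ∑ f : Fl n m, ∑ t : Wn n m, ∑ b : Bool, |rc0 tv f t b| :=
      Finset.single_le_sum (f := fun f => ∑ t : Wn n m, ∑ b : Bool, |rc0 tv f t b|)
        (fun _ _ => Finset.sum_nonneg (fun _ _ => Finset.sum_nonneg (fun _ _ => abs_nonneg _)))
        (mem_univ f)
    exact h1.trans (h2.trans h3)
  have hH0 : 0 ≤ H := by
    have := abs_nonneg (rc0 tv f t b)
    have : (0 : ℤ) ≤ m := by positivity
    linarith
  rw [rc_eq]
  rcases good htv f t b hw hd with h | ⟨he, h | h⟩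
  · right
    have h1 : (1 : ℤ) ≤ (era t (fp f) : ℤ) - fera f := by
      have : (fera f : ℤ) < era t (fp f) := by exact_mod_cast h
      linarith
    have h2 : H ≤ H * ((era t (fp f) : ℤ) - fera f) := by nlinarith
    have h3 := neg_abs_le (rc0 tv f t b)
    linarith
  · left
    refine ⟨h.1, ?_⟩
    rw [he, sub_self, mul_zero, add_zero]; exact h.2
  · right
    rw [he, sub_self, mul_zero, add_zero]; exact h

/-- the part of the cost that does not depend on the filling -/
def base (tv : ℕ → ℕ) (H : ℤ) : ℤ :=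
  ∑ t : Wn n m, (VH tv H t (wP t) true + VH tv H t (wQ t) false) - ∑ f : Fl n m, cH tv H f

lemma fcost_eq' (htv : ∀ s < 2 * m, tv s < n) (Lam : ℕ) (H : ℤ) {x : Wn n m → Bool}
    {τ : Fl n m → Wn n m} (hv : (lay htv Lam).Valid x τ) :
    (lay htv Lam).fcost x τ = base (n := n) (m := m) tv H +
      ∑ f, (lay htv Lam).rc (VH tv H) (cH tv H) f (τ f) ((lay htv Lam).ear x τ f) := by
  rw [(lay htv Lam).fcost_eq hv (VH tv H) (cH tv H)]
  · rfl
  · intro t
    have h := bal (tv := tv) t
    show VH tv H t (wP t) true + VH tv H t (wQ t) false =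
      VH tv H t (wP t) false + VH tv H t (wQ t) true
    unfold VH
    linarith

/-- number of uncut edges -/
def uncut (m : ℕ) (tv : ℕ → ℕ) (χ : ℕ → Bool) : ℕ :=
  ((List.range m).filter (fun k => χ (tv (2 * k)) == χ (tv (2 * k + 1)))).length

lemma uncut_eq_sum (m : ℕ) (tv : ℕ → ℕ) (χ : ℕ → Bool) :
    (240 * (uncut m tv χ : ℤ)) = ∑ k ∈ Finset.range m,
      (if χ (tv (2 * k)) = χ (tv (2 * k + 1)) then (240 : ℤ) else 0) := by
  unfold uncut
  induction m with
  | zero => simp
  | succ k ih =>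
    rw [List.range_succ, List.filter_append, List.length_append, Finset.sum_range_succ, ← ih]
    push_cast
    by_cases h : χ (tv (2 * k)) = χ (tv (2 * k + 1))
    · simp [h]; ring
    · simp [h]

lemma sum_pairs (m : ℕ) (g : ℕ → ℤ) : ∑ s : Fin (2 * m), g s =
    ∑ k ∈ Finset.range m, (g (2 * k) + g (2 * k + 1)) := by
  rw [Fin.sum_univ_eq_sum_range (fun s => g s) (2 * m)]
  induction m with
  | zero => simp
  | succ k ih =>
    rw [show 2 * (k + 1) = 2 * k + 1 + 1 by ring, Finset.sum_range_succ, Finset.sum_range_succ,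
      Finset.sum_range_succ, ih]
    ring

end Inst

end Pool.Agent.H77.Tard
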