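import Mathlib
import Pool.Agent.H77.Tard.Cut

set_option autoImplicit false
set_option linter.unusedSectionVars false
set_option linter.unusedSimpArgs false
set_option linter.unusedVariables false

namespace Pool.Agent.H77.Tard.Inst

open Finset

variable {n m : ℕ} {tv : ℕ → ℕ}

lemma val_same {s : ℕ} (hs : s < 2 * m) (s' : Fin (2 * m + 1)) (i : Fin n) (h : (s' : ℕ) = s)
    (b : Bool) :
    era (.M s' i : Wn n m) (pp s) = n + s ∧
    V0 tv (.M s' i : Wn n m) (pp s) b = (if b then eAs n m s i else lAs n m s i) ∧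
    (wslot tv (.M s' i : Wn n m) (pp s) b : ℤ) =
      TT n m s - 50 * sc n m + 16 * zz n s i + (if b then (pp s : ℤ) else 11) := by
  have := St_eq (n := n) (m := m) (s := s) (i := i)
  refine ⟨?_, ?_, ?_⟩
  · simp only [era, EM, h, if_true, hs]
  · simp only [V0, VM, h, if_true, hs]
  · simp only [wslot, wS, wP, wQ]
    rw [h]
    cases b
    · push_cast
      try simp only [Bool.false_eq_true, if_false]
      rw [this]; ring
    · push_cast
      try simp only [if_true]
      rw [this]

lemma val_next {s : ℕ} (s' : Fin (2 * m + 1)) (i : Fin n) (h : (s' : ℕ) = s + 1)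
    (b : Bool) :
    era (.M s' i : Wn n m) (pp s) = n + s ∧
    V0 tv (.M s' i : Wn n m) (pp s) b = (if b then eBs n m s i else lBs n m s i) ∧
    (wslot tv (.M s' i : Wn n m) (pp s) b : ℤ) =
      TT n m s - 16 * zz n s i + (if b then (pp s : ℤ) else 11) := by
  have e1 : ¬ (pp s = pp (s + 1)) := by
    rw [pp_eq_iff]; omega
  have := St_succ (n := n) (m := m) (s := s) i.2
  refine ⟨?_, ?_, ?_⟩
  · simp only [era, EM, h]
    rw [if_neg e1, if_neg (by omega)]; omega
  · simp only [V0, VM, h]
    rw [if_neg e1, if_neg (by omega)]; simp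
  · simp only [wslot, wS, wP, wQ]
    rw [h]
    cases b
    · push_cast
      try simp only [Bool.false_eq_true, if_false]
      rw [this]; ring
    · push_cast
      try simp only [if_true]
      rw [this]

lemma val_tap (htv : ∀ s < 2 * m, tv s < n) {s : ℕ} (s' : Fin (2 * m)) (h : (s' : ℕ) = s)
    (b : Bool) :
    era (.T s' : Wn n m) (pp s) = n + s ∧
    V0 tv (.T s' : Wn n m) (pp s) b = (if b then eTs n m tv s else lTs n m tv s) ∧
    (wslot tv (.T s' : Wn n m) (pp s) b : ℤ) =
      TT n m s - 50 * sc n m + 16 * zz n s (tv s) - (if b then 16 else 8) + pp s := by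
  have h8 : pp s ≠ 8 := by rcases pp_val s with h | h <;> omega
  have hge : 16 ≤ St n m s (tv s) := by unfold St; omega
  have := St_eq (n := n) (m := m) (s := s) (i := tv s)
  refine ⟨?_, ?_, ?_⟩
  · simp only [era, ET, h8, if_false, h]
  · simp only [V0, VT, h8, if_false, h]
  · simp only [wslot, wS, wP, wQ]
    rw [h]
    cases b
    · push_cast [Nat.cast_sub hge]
      try simp only [Bool.false_eq_true, if_false]
      rw [this]; ring
    · push_cast [Nat.cast_sub hge]
      try simp only [if_true]
      rw [this]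

lemma intd_rc0 (htv : ∀ s < 2 * m, tv s < n) (f : Fl n m) (w : Wn n m) (b : Bool)
    (hint : Intd tv f w b) (hw : fp f = wP w ∨ fp f = wQ w)
    (hd : fd tv f ≤ wslot tv w (fp f) b) :
    fera f = era w (fp f) ∧ rc0 tv f w b = pen f w b := by
  rcases f with i | i | ⟨s, i⟩ | ⟨s, i⟩ | s | s
  · -- L0
    rcases w with ⟨s', i'⟩ | s' <;> simp only [Intd] at hint
    obtain ⟨h0, rfl⟩ := hint
    have hpp : ¬ (6 = pp (s' : ℕ)) := by rw [h0]; decide
    have hV : V0 tv (.M s' i' : Wn n m) 6 b = if b then 0 else 30 * om n m s' i' := by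
      simp only [V0, VM]
      rw [if_neg hpp, if_pos h0]
    refine ⟨?_, ?_⟩
    · show (i' : ℕ) = era (Wn.M s' i' : Wn n m) 6
      simp only [era, EM]
      rw [if_neg hpp, if_pos h0]
    · show 6 * om n m 0 i' * ((wslot tv (Wn.M s' i') 6 b : ℤ) - ((St n m 0 i' + 6 : ℕ) : ℤ)) + 0
          - V0 tv (Wn.M s' i') 6 b = 0
      rw [hV, h0]
      cases b
      · simp only [wslot, wS, wP, wQ, h0]
        push_cast; simp; ring
      · simp only [wslot, wS, wP, wQ, h0]
        push_cast; simp
  · -- LL
    rcases w with ⟨s', i'⟩ | s' <;> simp only [Intd] at hint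
    obtain ⟨h0, rfl⟩ := hint
    have hpp : 5 = pp (s' : ℕ) := by rw [h0]; unfold pp; rw [if_pos (by omega)]
    have hV : V0 tv (.M s' i' : Wn n m) 5 b = if b then 0 else 30 * om n m s' i' := by
      simp only [V0, VM]
      rw [if_pos hpp, if_neg (by omega)]
    refine ⟨?_, ?_⟩
    · show n + 2 * m + (i' : ℕ) = era (Wn.M s' i' : Wn n m) 5
      simp only [era, EM]
      rw [if_pos hpp, if_neg (by omega), h0]
    · show 5 * om n m (2 * m) i' * ((wslot tv (Wn.M s' i') 5 b : ℤ)
          - ((St n m (2 * m) i' + 5 : ℕ) : ℤ)) + 0 - V0 tv (Wn.M s' i') 5 b = 0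
      rw [hV, h0]
      cases b
      · simp only [wslot, wS, wP, wQ, h0]
        push_cast; simp; ring
      · simp only [wslot, wS, wP, wQ, h0]
        push_cast; simp
  · -- I
    have hL := line_I (tv := tv) s i (wslot tv w (pp s) b)
    have hrc : rc0 tv (.I s i) w b = Core.LI (AA n m (s + 1)) (sc n m) (pp s) (qq s) (TT n m s)
        (zz n s i) (wslot tv w (pp s) b) - V0 tv w (pp s) b := by
      rw [← hL]; rfl
    rcases w with ⟨s', i'⟩ | s' <;> simp only [Intd] at hint
    obtain ⟨rfl, ⟨h1, rfl⟩ | ⟨h1, rfl⟩⟩ := hint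
    · obtain ⟨he, hV, ht⟩ := val_same (tv := tv) s.2 s' i' h1 false
      refine ⟨he.symm, ?_⟩
      rw [hrc, hV, ht]; simp [lAs, Core.lA, pen]
    · obtain ⟨he, hV, ht⟩ := val_next (tv := tv) s' i' h1 true
      refine ⟨he.symm, ?_⟩
      rw [hrc, hV, ht]
      have := Core.LI_te (AA n m (s + 1)) (sc n m) (pp s) (qq s) (TT n m s) (zz n s i')
      rw [teB_eq] at this
      simp only [if_true]
      rw [this]; simp [eBs, pen]
  · -- O
    have hL := line_O (tv := tv) s i (wslot tv w (pp s) b)
    have hrc : rc0 tv (.O s i) w b = Core.LO (AA n m (s + 1)) (sc n m) (pp s) (qq s) (TT n m s)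
        (dl tv s i) (zz n s i) (wslot tv w (pp s) b) - V0 tv w (pp s) b := by
      rw [← hL]; rfl
    rcases w with ⟨s', i'⟩ | s' <;> simp only [Intd] at hint
    · obtain ⟨rfl, ⟨h0, h1, rfl⟩ | ⟨h1, rfl⟩⟩ := hint
      · obtain ⟨he, hV, ht⟩ := val_same (tv := tv) s.2 s' i' h1 true
        refine ⟨he.symm, ?_⟩
        have h' : dl tv s i' = 0 := by unfold dl; rw [if_neg h0]
        rw [hrc, hV, ht, h']; simp [eAs, Core.eA, pen]
      · obtain ⟨he, hV, ht⟩ := val_next (tv := tv) s' i' h1 false
        refine ⟨he.symm, ?_⟩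
        rw [hrc, hV, ht]
        have := Core.LO_tl (AA n m (s + 1)) (sc n m) (pp s) (qq s) (TT n m s) (dl tv s i')
          (zz n s i')
        unfold Core.tlB at this
        simp only [Bool.false_eq_true, if_false]
        rw [this]; simp [lBs, pen]
    · obtain ⟨h0, h1, rfl⟩ := hint
      obtain ⟨he, hV, ht⟩ := val_tap htv s' h1 true
      refine ⟨he.symm, ?_⟩
      have h8 : dl tv s i = 8 := by unfold dl; rw [if_pos h0]
      rw [hrc, hV, ht, h8, h0]; simp [eTs, Core.eT, pen]
  · -- C
    have hL := line_C (n := n) (m := m) htv s (wslot tv w (pp s) b)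
    have hrc : rc0 tv (.C s) w b = Core.LC (AA n m (s + 1)) (sc n m) (pp s) (qq s) (TT n m s)
        (wT n m tv s) (zz n s (tv s)) (wslot tv w (pp s) b) - V0 tv w (pp s) b := by
      rw [← hL]; rfl
    rcases w with ⟨s', i'⟩ | s' <;> simp only [Intd] at hint
    · obtain ⟨h0, h1, rfl⟩ := hint
      obtain ⟨he, hV, ht⟩ := val_same (tv := tv) s.2 s' i' h1 true
      refine ⟨he.symm, ?_⟩
      rw [hrc, hV, ht, h0]; simp [eAs, Core.LC, pen]
    · obtain ⟨h1, rfl⟩ := hint
      obtain ⟨he, hV, ht⟩ := val_tap htv s' h1 false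
      refine ⟨he.symm, ?_⟩
      have e := Core.eA_sub_lT (T := TT n m s) (par (n := n) (m := m) s) (wT n m tv s) (zz n s (tv s))
      rw [hrc, hV, ht]
      simp only [pen, Bool.false_eq_true, if_false]
      unfold Core.LC lTs
      linarith
  · -- D
    rcases w with ⟨s', i'⟩ | s' <;> simp only [Intd] at hint
    have hera := era_T8 (n := n) s'
    have hst := htv s s.2
    have hst' := htv s' s'.2
    have hge : 16 ≤ St n m s (tv s) := by unfold St; omega
    rcases hint with ⟨h0, hint⟩ | ⟨h0, hint⟩
    · have hfd : fd tv (.D s : Fl n m) = St n m s (tv s) - 8 := by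
        simp only [fd]; rw [if_pos h0]
      have hfc : fc tv (.D s : Fl n m) = 0 := by
        simp only [fc]; rw [if_pos h0]
      have hfw : fw tv (.D s : Fl n m) = 32 * NN n m - 32 := by
        simp only [fw, wD]; rw [if_pos h0]
      refine ⟨?_, ?_⟩
      · show (s : ℕ) / 2 = era (.T s' : Wn n m) 8
        rw [hera]; omega
      rcases hint with ⟨h1, rfl⟩ | h2
      · have hss : s' = s := Fin.ext h1
        subst hss
        have hpen : pen (.D s' : Fl n m) (.T s') true = 0 := by
          simp only [pen]; rw [if_neg (by omega)]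
        have e2 : Gs n m tv s' true = 0 := by
          unfold Gs; rw [if_pos h0]; simp
        rw [hpen, rc0_D_T, hfw, hfc, hfd, wslot_T_true, e2]
        push_cast [Nat.cast_sub hge, Nat.cast_sub (show 8 ≤ St n m s' (tv s') by omega)]
        ring
      · have hs1 : (s : ℕ) + 1 < 2 * m := by rw [← h2]; exact s'.2
        have hdiff := St_diff (n := n) (m := m) htv hs1 h0
        have hge' : 16 ≤ St n m (s + 1) (tv (s + 1)) := by unfold St; omega
        have e0 : ¬ ((s : ℕ) + 1) % 2 = 0 := by omega
        have e1 : pp ((s : ℕ) + 1) = 6 := by unfold pp; rw [if_neg e0]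
        have e5 : wT n m tv (s + 1) = 4 * NN n m + 1 := by unfold wT; rw [if_neg e0]
        have e4 : ∀ b : Bool, Gs n m tv s' b = (32 * NN n m - 32) *
            ((St n m (s + 1) (tv (s + 1)) : ℤ) - St n m s (tv s) + 6)
            - (if b then 48 * (4 * (NN n m : ℤ) + 1) else 0) := by
          intro b
          unfold Gs; rw [h2, if_neg e0, e5]; simp
        cases b
        · have hpen : pen (.D s : Fl n m) (.T s') false = 0 := by
            simp only [pen]; rw [if_neg (by simp; omega)]
          rw [hpen, rc0_D_T, hfw, hfc, hfd, wslot_T_false, e4, h2, e1]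
          push_cast [Nat.cast_sub hge', Nat.cast_sub (show 8 ≤ St n m s (tv s) by omega)]
          try simp only [Bool.false_eq_true, if_false]
          ring
        · have hpen : pen (.D s : Fl n m) (.T s') true = 240 := by
            simp only [pen]; rw [if_pos (by simp; omega)]
          rw [hpen, rc0_D_T, hfw, hfc, hfd, wslot_T_true, e4, h2]
          push_cast [Nat.cast_sub hge', Nat.cast_sub (show 8 ≤ St n m s (tv s) by omega)]
          try simp only [if_true]
          ring
    · have hs := s.2
      obtain ⟨s0, hs0⟩ : ∃ s0, (s : ℕ) = s0 + 1 := ⟨s - 1, by omega⟩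
      have h00 : s0 % 2 = 0 := by omega
      have h0' : ¬ (s0 + 1) % 2 = 0 := by omega
      have hs01 : s0 + 1 < 2 * m := by omega
      have hst0 := htv s0 (by omega)
      have hge0 : 16 ≤ St n m s0 (tv s0) := by unfold St; omega
      have hge1 : 16 ≤ St n m (s0 + 1) (tv (s0 + 1)) := by unfold St; omega
      have hfd : fd tv (.D s : Fl n m) = St n m s0 (tv s0) - 3 := by
        simp only [fd]; rw [hs0, if_neg h0']; simp
      have hfc : fc tv (.D s : Fl n m) = 40 * wT n m tv s0 := by
        simp only [fc]; rw [hs0, if_neg h0']; simp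
      have hfw : fw tv (.D s : Fl n m) = 32 * NN n m + 48 := by
        simp only [fw, wD]; rw [hs0, if_neg h0']
      have hdiff := St_diff (n := n) (m := m) htv hs01 h00
      have e5 : wT n m tv (s0 + 1) = 4 * NN n m + 1 := by unfold wT; rw [if_neg h0']
      have e6 : wT n m tv s0 = 2 * NN n m + 64 * ((tv s0 : ℤ) + tv (s0 + 1) - ((n : ℤ) - 1)) := by
        unfold wT; rw [if_pos h00]
      refine ⟨?_, ?_⟩
      · show (s : ℕ) / 2 = era (.T s' : Wn n m) 8
        rw [hera]; omega
      rcases hint with ⟨h1, rfl⟩ | h2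
      · have h : (s' : ℕ) = s0 := by omega
        have hpen : pen (.D s : Fl n m) (.T s') false = 0 := by
          simp only [pen]; rw [if_neg (by omega)]
        have e2 : Gs n m tv s' false = 40 * wT n m tv s0 := by
          unfold Gs; rw [h, if_pos h00]; simp
        have e1 : pp s0 = 5 := by unfold pp; rw [if_pos h00]
        rw [hpen, rc0_D_T, hfw, hfc, hfd, wslot_T_false, e2, h, e1]
        push_cast [Nat.cast_sub hge0, Nat.cast_sub (show 3 ≤ St n m s0 (tv s0) by omega)]
        ring
      · have h2 : (s' : ℕ) = s0 + 1 := by omega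
        have e4 : ∀ b : Bool, Gs n m tv s' b = (32 * NN n m - 32) *
            ((St n m (s0 + 1) (tv (s0 + 1)) : ℤ) - St n m s0 (tv s0) + 6)
            - (if b then 48 * (4 * (NN n m : ℤ) + 1) else 0) := by
          intro b
          unfold Gs; rw [h2, if_neg h0', e5]; simp
        have e1 : pp (s0 + 1) = 6 := by unfold pp; rw [if_neg h0']
        obtain ⟨D, hD⟩ : ∃ D : ℤ, (St n m (s0 + 1) (tv (s0 + 1)) : ℤ) =
          St n m s0 (tv s0) + D := ⟨_, (add_sub_cancel _ _).symm⟩
        have hD' : 2 * D = 4 * NN n m - wT n m tv s0 := by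
          rw [hD] at hdiff; rw [e6]; linarith
        have hw' : wT n m tv s0 = 4 * NN n m - 2 * D := by linarith
        cases b
        · have hpen : pen (.D s : Fl n m) (.T s') false = 240 := by
            simp only [pen]; rw [if_pos (by right; exact ⟨h0, by omega, trivial⟩)]
          rw [hpen, rc0_D_T, hfw, hfc, hfd, wslot_T_false, e4, h2, e1]
          push_cast [Nat.cast_sub hge1, Nat.cast_sub (show 3 ≤ St n m s0 (tv s0) by omega)]
          rw [hD, hw']
          try simp only [Bool.false_eq_true, if_false]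
          ring
        · have hpen : pen (.D s : Fl n m) (.T s') true = 0 := by
            simp only [pen]; rw [if_neg (by simp; omega)]
          rw [hpen, rc0_D_T, hfw, hfc, hfd, wslot_T_true, e4, h2]
          push_cast [Nat.cast_sub hge1, Nat.cast_sub (show 3 ≤ St n m s0 (tv s0) by omega)]
          rw [hD, hw']
          try simp only [if_true]
          ring

lemma intd_rc (htv : ∀ s < 2 * m, tv s < n) (Lam : ℕ) (H : ℤ) (f : Fl n m) (w : Wn n m) (b : Bool)
    (hint : Intd tv f w b) (hw : fp f = wP w ∨ fp f = wQ w)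
    (hd : fd tv f ≤ wslot tv w (fp f) b) :
    (lay htv Lam).rc (VH tv H) (cH tv H) f w b = pen f w b := by
  obtain ⟨h1, h2⟩ := intd_rc0 htv f w b hint hw hd
  rw [rc_eq, h1, h2, sub_self, mul_zero, add_zero]

end Pool.Agent.H77.Tard.Inst
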