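import Mathlib
import Pool.Agent.H77.Tard.Cut

set_option autoImplicit false
set_option linter.unusedSectionVars false
set_option linter.unusedSimpArgs false
set_option linter.unusedVariables false

namespace Pool.Agent.H77.Tard.Inst

open Finset

variable {n m : ℕ} {tv : ℕ → ℕ}

/-- first-in-window bit of a length class -/
def eb (x : Wn n m → Bool) (t : Wn n m) (a : ℕ) : Bool := decide (a = wP t ↔ x t = true)

lemma eb_P (x : Wn n m → Bool) (t : Wn n m) : eb x t (wP t) = x t := by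
  unfold eb; cases x t <;> simp

lemma eb_Q (x : Wn n m → Bool) (t : Wn n m) : eb x t (wQ t) = !(x t) := by
  unfold eb
  have : wQ t ≠ wP t := by have := wPQ t; omega
  cases x t <;> simp [this]

lemma ear_eq (htv : ∀ s < 2 * m, tv s < n) (Lam : ℕ) (x : Wn n m → Bool) (τ : Fl n m → Wn n m)
    (f : Fl n m) : (lay htv Lam).ear x τ f = eb x (τ f) (fp f) := by
  unfold Layout.ear eb; rfl

/-- all jobs in intended slots -/
structure AllInt (tv : ℕ → ℕ) (x : Wn n m → Bool) (τ : Fl n m → Wn n m) : Prop where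
  inj : ∀ f f', τ f = τ f' → fp f = fp f' → f = f'
  surj : ∀ (t : Wn n m) (a : ℕ), (a = wP t ∨ a = wQ t) → ∃ f, τ f = t ∧ fp f = a
  int : ∀ f, Intd tv f (τ f) (eb x (τ f) (fp f))

section

variable {x : Wn n m → Bool} {τ : Fl n m → Wn n m} (h : AllInt tv x τ)
include h

lemma open_slot (s : Fin (2 * m)) (s' : Fin (2 * m + 1)) (hs : (s' : ℕ) = s) (i : Fin n) :
    (eb x (.M s' i) (pp s) = false ∧ τ (.I s i) = .M s' i) ∨
    (eb x (.M s' i) (pp s) = true ∧ (i : ℕ) ≠ tv s ∧ τ (.O s i) = .M s' i) ∨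
    (eb x (.M s' i) (pp s) = true ∧ (i : ℕ) = tv s ∧ τ (.C s) = .M s' i) := by
  have hpv := pp_val s
  obtain ⟨f, hf1, hf2⟩ := h.surj (.M s' i) (pp s) (by simp only [wP, wQ]; exact hpv)
  have hint := h.int f
  rw [hf1, hf2] at hint
  have hs2 := s.2
  rcases f with i' | i' | ⟨s'', i'⟩ | ⟨s'', i'⟩ | s'' | s''
  · simp only [Intd] at hint
    exfalso
    have : (s : ℕ) = 0 := by omega
    rw [this] at hf2; revert hf2; simp [fp, pp]
  · simp only [Intd] at hint
    exfalso; omega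
  · simp only [Intd] at hint
    have hpar : pp (s'' : ℕ) = pp s := hf2
    rw [pp_eq_iff] at hpar
    obtain ⟨rfl, h1 | h1⟩ := hint
    · left
      have : s'' = s := Fin.ext (by omega)
      subst this
      exact ⟨h1.2, hf1⟩
    · exfalso; omega
  · simp only [Intd] at hint
    have hpar : pp (s'' : ℕ) = pp s := hf2
    rw [pp_eq_iff] at hpar
    obtain ⟨rfl, h1 | h1⟩ := hint
    · right; left
      have : s'' = s := Fin.ext (by omega)
      subst this
      exact ⟨h1.2.2, h1.1, hf1⟩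
    · exfalso; omega
  · simp only [Intd] at hint
    right; right
    have : s'' = s := Fin.ext (by omega)
    subst this
    exact ⟨hint.2.2, hint.1, hf1⟩
  · simp only [Intd] at hint

lemma close_slot (s : Fin (2 * m)) (s' : Fin (2 * m + 1)) (hs : (s' : ℕ) = s + 1) (i : Fin n) :
    (eb x (.M s' i) (pp s) = true ∧ τ (.I s i) = .M s' i) ∨
    (eb x (.M s' i) (pp s) = false ∧ τ (.O s i) = .M s' i) := by
  have hpv := pp_val s
  obtain ⟨f, hf1, hf2⟩ := h.surj (.M s' i) (pp s) (by simp only [wP, wQ]; exact hpv)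
  have hint := h.int f
  rw [hf1, hf2] at hint
  have hs2 := s.2
  rcases f with i' | i' | ⟨s'', i'⟩ | ⟨s'', i'⟩ | s'' | s''
  · simp only [Intd] at hint
    exfalso; omega
  · simp only [Intd] at hint
    exfalso
    have h1 : ¬ (s : ℕ) % 2 = 0 := by omega
    have h2 : (5 : ℕ) = pp s := hf2
    unfold pp at h2; rw [if_neg h1] at h2; omega
  · simp only [Intd] at hint
    have hpar : pp (s'' : ℕ) = pp s := hf2
    rw [pp_eq_iff] at hpar
    obtain ⟨rfl, h1 | h1⟩ := hint
    · exfalso; omega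
    · left
      have : s'' = s := Fin.ext (by omega)
      subst this
      exact ⟨h1.2, hf1⟩
  · simp only [Intd] at hint
    have hpar : pp (s'' : ℕ) = pp s := hf2
    rw [pp_eq_iff] at hpar
    obtain ⟨rfl, h1 | h1⟩ := hint
    · exfalso; omega
    · right
      have : s'' = s := Fin.ext (by omega)
      subst this
      exact ⟨h1.2, hf1⟩
  · simp only [Intd] at hint
    exfalso
    have hpar : pp (s'' : ℕ) = pp s := hf2
    rw [pp_eq_iff] at hpar
    omega
  · simp only [Intd] at hint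

lemma tap_slot (s : Fin (2 * m)) (i : Fin n) (hi : (i : ℕ) = tv s) :
    (eb x (.T s) (pp s) = true ∧ τ (.O s i) = .T s) ∨
    (eb x (.T s) (pp s) = false ∧ τ (.C s) = .T s) := by
  have hpv := pp_val s
  obtain ⟨f, hf1, hf2⟩ := h.surj (.T s) (pp s) (by simp only [wP, wQ]; simp)
  have hint := h.int f
  rw [hf1, hf2] at hint
  rcases f with i' | i' | ⟨s'', i'⟩ | ⟨s'', i'⟩ | s'' | s''
  · simp only [Intd] at hint
  · simp only [Intd] at hint
  · simp only [Intd] at hint
  · simp only [Intd] at hint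
    left
    have : s'' = s := Fin.ext (by omega)
    subst this
    have : i' = i := Fin.ext (by omega)
    subst this
    exact ⟨hint.2.2, hf1⟩
  · simp only [Intd] at hint
    right
    have : s'' = s := Fin.ext (by omega)
    subst this
    exact ⟨hint.2, hf1⟩
  · exfalso
    have : (8 : ℕ) = pp s := hf2
    omega

lemma link (s : Fin (2 * m)) (s0 s1 : Fin (2 * m + 1)) (h0 : (s0 : ℕ) = s) (h1 : (s1 : ℕ) = s + 1)
    (i : Fin n) : eb x (.M s0 i) (pp s) = eb x (.M s1 i) (pp s) := by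
  have hne : (Wn.M s0 i : Wn n m) ≠ .M s1 i := by
    intro e
    injection e with e1 e2
    rw [e1] at h0; omega
  rcases open_slot h s s0 h0 i with ⟨a1, a2⟩ | ⟨a1, a3, a2⟩ | ⟨a1, a3, a2⟩ <;>
    rcases close_slot h s s1 h1 i with ⟨b1, b2⟩ | ⟨b1, b2⟩
  · exfalso; rw [a2] at b2; exact hne b2
  · rw [a1, b1]
  · rw [a1, b1]
  · exfalso; rw [a2] at b2; exact hne b2
  · rw [a1, b1]
  · exfalso
    rcases tap_slot h s i a3 with ⟨c1, c2⟩ | ⟨c1, c2⟩
    · rw [b2] at c2; exact absurd c2 (by simp)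
    · rw [a2] at c2; exact absurd c2 (by simp)

lemma tap_link (s : Fin (2 * m)) (s0 : Fin (2 * m + 1)) (h0 : (s0 : ℕ) = s) (i : Fin n)
    (hi : (i : ℕ) = tv s) : eb x (.T s) (pp s) = eb x (.M s0 i) (pp s) := by
  let s1 : Fin (2 * m + 1) := ⟨s + 1, by omega⟩
  have h1 : (s1 : ℕ) = s + 1 := rfl
  have hl := link h s s0 s1 h0 h1 i
  rcases open_slot h s s0 h0 i with ⟨a1, a2⟩ | ⟨a1, a3, a2⟩ | ⟨a1, a3, a2⟩ <;>
    rcases close_slot h s s1 h1 i with ⟨b1, b2⟩ | ⟨b1, b2⟩ <;>
    rcases tap_slot h s i hi with ⟨c1, c2⟩ | ⟨c1, c2⟩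
  all_goals first
    | (rw [a1, c1]; done)
    | (exfalso; exact a3 hi)
    | (exfalso; rw [b2] at c2; cases c2; done)
    | (exfalso; rw [a2] at c2; cases c2; done)
    | (exfalso; rw [a1, b1] at hl; cases hl; done)

lemma bit_M (s : ℕ) (hs : s ≤ 2 * m) (i : Fin n) :
    x (.M ⟨s, by omega⟩ i) = x (.M ⟨0, by omega⟩ i) := by
  induction s with
  | zero => rfl
  | succ k ih =>
    have hk : k < 2 * m := by omega
    rw [← ih (by omega)]
    have hl := link h ⟨k, hk⟩ ⟨k, by omega⟩ ⟨k + 1, by omega⟩ rfl rfl i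
    rcases Nat.mod_two_eq_zero_or_one k with hk2 | hk2
    · have e : pp k = 5 := by unfold pp; rw [if_pos hk2]
      simp only [e] at hl
      have e1 := eb_P x (.M ⟨k, by omega⟩ i)
      have e2 := eb_P x (.M ⟨k + 1, by omega⟩ i)
      simp only [wP] at e1 e2
      rw [e1, e2] at hl
      exact hl.symm
    · have e : pp k = 6 := by unfold pp; rw [if_neg (by omega)]
      simp only [e] at hl
      have e1 := eb_Q x (.M ⟨k, by omega⟩ i)
      have e2 := eb_Q x (.M ⟨k + 1, by omega⟩ i)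
      simp only [wQ] at e1 e2
      rw [e1, e2] at hl
      have := congrArg Bool.not hl
      simpa using this.symm

/-- the bit of length class 8 in the tap windows -/
lemma bit_T (s : Fin (2 * m)) (i : Fin n) (hi : (i : ℕ) = tv s) :
    eb x (.T s) 8 = if (s : ℕ) % 2 = 0 then !(x (.M ⟨0, by omega⟩ i)) else
      x (.M ⟨0, by omega⟩ i) := by
  have hb := bit_M h s (by omega) i
  have ht := tap_link h s ⟨s, by omega⟩ rfl i hi
  have e8 := eb_Q x (.T s)
  have e9 := eb_P x (.T s)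
  simp only [wP, wQ] at e8 e9
  rw [e8, ← e9, ht, ← hb]
  rcases Nat.mod_two_eq_zero_or_one (s : ℕ) with hk2 | hk2
  · have e : pp s = 5 := by unfold pp; rw [if_pos hk2]
    rw [e, if_pos hk2]
    have e1 := eb_P x (.M ⟨s, by omega⟩ i)
    simp only [wP] at e1
    rw [e1]
  · have e : pp s = 6 := by unfold pp; rw [if_neg (by omega)]
    rw [e, if_neg (by omega)]
    have e1 := eb_Q x (.M ⟨s, by omega⟩ i)
    simp only [wQ] at e1
    rw [e1]; simp

lemma gad_even (s s1 : Fin (2 * m)) (hs : (s : ℕ) % 2 = 0) (h1 : (s1 : ℕ) = s + 1) :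
    (eb x (.T s) 8 = true ∧ τ (.D s) = .T s) ∨ (eb x (.T s) 8 = false ∧ τ (.D s1) = .T s) := by
  obtain ⟨f, hf1, hf2⟩ := h.surj (.T s) 8 (by simp only [wP, wQ]; simp)
  have hint := h.int f
  rw [hf1, hf2] at hint
  rcases f with i' | i' | ⟨s'', i'⟩ | ⟨s'', i'⟩ | s'' | s''
  · simp only [Intd] at hint
  · simp only [Intd] at hint
  · simp only [Intd] at hint
  · exfalso; have : pp (s'' : ℕ) = 8 := hf2
    rcases pp_val s'' with h | h <;> omega
  · exfalso; have : pp (s'' : ℕ) = 8 := hf2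
    rcases pp_val s'' with h | h <;> omega
  · simp only [Intd] at hint
    rcases hint with ⟨h2, h3 | h3⟩ | ⟨h2, h3 | h3⟩
    · left
      have : s'' = s := Fin.ext (by omega)
      subst this
      exact ⟨h3.2, hf1⟩
    · exfalso; omega
    · right
      have : s'' = s1 := Fin.ext (by omega)
      subst this
      exact ⟨h3.2, hf1⟩
    · exfalso; omega

lemma gad_odd (s s1 : Fin (2 * m)) (hs : (s : ℕ) % 2 = 0) (h1 : (s1 : ℕ) = s + 1) :
    τ (.D s) = .T s1 ∨ τ (.D s1) = .T s1 := by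
  obtain ⟨f, hf1, hf2⟩ := h.surj (.T s1) 8 (by simp only [wP, wQ]; simp)
  have hint := h.int f
  rw [hf1, hf2] at hint
  rcases f with i' | i' | ⟨s'', i'⟩ | ⟨s'', i'⟩ | s'' | s''
  · simp only [Intd] at hint
  · simp only [Intd] at hint
  · simp only [Intd] at hint
  · exfalso; have : pp (s'' : ℕ) = 8 := hf2
    rcases pp_val s'' with h | h <;> omega
  · exfalso; have : pp (s'' : ℕ) = 8 := hf2
    rcases pp_val s'' with h | h <;> omega
  · simp only [Intd] at hint
    rcases hint with ⟨h2, h3 | h3⟩ | ⟨h2, h3 | h3⟩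
    · exfalso; omega
    · left
      have : s'' = s := Fin.ext (by omega)
      subst this
      exact hf1
    · exfalso; omega
    · right
      have : s'' = s1 := Fin.ext (by omega)
      subst this
      exact hf1

/-- an uncut edge costs 240 -/
lemma edge_pen (htv : ∀ s < 2 * m, tv s < n) (s s1 : Fin (2 * m)) (hs : (s : ℕ) % 2 = 0)
    (h1 : (s1 : ℕ) = s + 1)
    (hχ : x (.M ⟨0, by omega⟩ ⟨tv s, htv s s.2⟩) = x (.M ⟨0, by omega⟩ ⟨tv s1, htv s1 s1.2⟩)) :
    240 ≤ pen (.D s : Fl n m) (τ (.D s)) (eb x (τ (.D s)) 8) +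
      pen (.D s1 : Fl n m) (τ (.D s1)) (eb x (τ (.D s1)) 8) := by
  have b0 := bit_T h s ⟨tv s, htv s s.2⟩ rfl
  have b1 := bit_T h s1 ⟨tv s1, htv s1 s1.2⟩ rfl
  rw [if_pos hs] at b0
  rw [if_neg (by omega)] at b1
  have hne : (Wn.T s : Wn n m) ≠ .T s1 := by
    intro e; injection e with e1; rw [e1] at h1; omega
  have hp0 : ∀ (f : Fl n m) (w : Wn n m) (b : Bool), 0 ≤ pen f w b := by
    intro f w b
    unfold pen
    split
    · split_ifs <;> norm_num
    · norm_num
  rcases gad_even h s s1 hs h1 with ⟨a1, a2⟩ | ⟨a1, a2⟩ <;>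
    rcases gad_odd h s s1 hs h1 with c | c
  · exfalso; rw [a2] at c; exact hne c
  · -- bit of u false, both false
    rw [c, ← hχ.symm.symm] at *
    have hb : eb x (.T s1) 8 = false := by
      rw [b1, ← hχ]
      rw [a1] at b0
      cases hx : x (.M ⟨0, by omega⟩ ⟨tv s, htv s s.2⟩)
      · rfl
      · rw [hx] at b0; simp at b0
    rw [hb]
    have e1 : pen (.D s1 : Fl n m) (.T s1) false = 240 := by
      simp only [pen]; rw [if_pos (by right; exact ⟨by omega, trivial, trivial⟩)]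
    rw [e1]
    have := hp0 (.D s) (τ (.D s)) (eb x (τ (.D s)) 8)
    linarith
  · rw [c]
    have hb : eb x (.T s1) 8 = true := by
      rw [b1, ← hχ]
      rw [a1] at b0
      cases hx : x (.M ⟨0, by omega⟩ ⟨tv s, htv s s.2⟩)
      · rw [hx] at b0; simp at b0
      · rfl
    rw [hb]
    have e1 : pen (.D s : Fl n m) (.T s1) true = 240 := by
      simp only [pen]; rw [if_pos (by left; exact ⟨hs, h1, trivial⟩)]
    rw [e1]
    have := hp0 (.D s1) (τ (.D s1)) (eb x (τ (.D s1)) 8)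
    linarith
  · exfalso; rw [a2] at c; exact hne c

end

end Pool.Agent.H77.Tard.Inst
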