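import Mathlib
import Pool.Agent.H77.Tard.Lower
import Pool.Agent.H77.Tard.Intd

set_option autoImplicit false
set_option linter.unusedSectionVars false
set_option linter.unusedSimpArgs false
set_option linter.unusedVariables false

namespace Pool.Agent.H77.Tard.Inst

open Finset

variable {n m : ℕ} {tv : ℕ → ℕ}

lemma pen_nonneg (f : Fl n m) (w : Wn n m) (b : Bool) : 0 ≤ pen f w b := by
  unfold pen
  split
  · split_ifs <;> norm_num
  · norm_num

/-- property of the era weight `H` -/
def HProp (tv : ℕ → ℕ) (htv : ∀ s < 2 * m, tv s < n) (Lam : ℕ) (H : ℤ) : Prop :=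
  ∀ (f : Fl n m) (t : Wn n m) (b : Bool), (fp f = wP t ∨ fp f = wQ t) →
      fd tv f ≤ wslot tv t (fp f) b →
      (Intd tv f t b ∧ (lay htv Lam).rc (VH tv H) (cH tv H) f t b = pen f t b) ∨
      240 * (m : ℤ) + 1 ≤ (lay htv Lam).rc (VH tv H) (cH tv H) f t b

theorem lower (htv : ∀ s < 2 * m, tv s < n) (Lam : ℕ) {H : ℤ} (hH : HProp tv htv Lam H)
    {x : Wn n m → Bool} {τ : Fl n m → Wn n m} (hv : (lay htv Lam).Valid x τ) :
    (base (n := n) (m := m) tv H + (240 * m + 1) ≤ (lay htv Lam).fcost x τ) ∨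
    ∃ χ : ℕ → Bool, base (n := n) (m := m) tv H + 240 * (uncut m tv χ : ℤ) ≤
      (lay htv Lam).fcost x τ := by
  have hcase : ∀ f : Fl n m, (Intd tv f (τ f) ((lay htv Lam).ear x τ f) ∧
      (lay htv Lam).rc (VH tv H) (cH tv H) f (τ f) ((lay htv Lam).ear x τ f) =
        pen f (τ f) ((lay htv Lam).ear x τ f)) ∨
      240 * (m : ℤ) + 1 ≤
        (lay htv Lam).rc (VH tv H) (cH tv H) f (τ f) ((lay htv Lam).ear x τ f) := by
    intro f
    apply hH f (τ f) _ (hv.typ f)
    have := hv.rel f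
    rw [Layout.time_eq_slot] at this
    exact this
  have hm0 : (0 : ℤ) ≤ 240 * m + 1 := by positivity
  have hnn : ∀ f : Fl n m, 0 ≤
      (lay htv Lam).rc (VH tv H) (cH tv H) f (τ f) ((lay htv Lam).ear x τ f) := by
    intro f
    rcases hcase f with h | h
    · rw [h.2]; exact pen_nonneg _ _ _
    · linarith
  rw [fcost_eq' htv Lam H hv]
  by_cases hall : ∀ f : Fl n m, Intd tv f (τ f) ((lay htv Lam).ear x τ f) ∧
      (lay htv Lam).rc (VH tv H) (cH tv H) f (τ f) ((lay htv Lam).ear x τ f) =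
        pen f (τ f) ((lay htv Lam).ear x τ f)
  · right
    have hA : AllInt tv x τ := by
      refine ⟨?_, ?_, ?_⟩
      · intro f f' h1 h2; exact hv.inj f f' h1 h2
      · intro t a ha; exact hv.surj t ha
      · intro f; rw [← ear_eq htv Lam]; exact (hall f).1
    refine ⟨fun v => if hvv : v < n then x (.M ⟨0, by omega⟩ ⟨v, hvv⟩) else false, ?_⟩
    rw [add_le_add_iff_left, uncut_eq_sum]
    have e1 : ∑ f, (lay htv Lam).rc (VH tv H) (cH tv H) f (τ f) ((lay htv Lam).ear x τ f) =
        ∑ f, pen f (τ f) (eb x (τ f) (fp f)) := by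
      apply Finset.sum_congr rfl
      intro f _
      rw [(hall f).2, ear_eq]
    rw [e1, sum_Fl]
    let g : ℕ → ℤ := fun s => if hs : s < 2 * m then
      pen (.D ⟨s, hs⟩ : Fl n m) (τ (.D ⟨s, hs⟩)) (eb x (τ (.D ⟨s, hs⟩)) 8) else 0
    have e2 : ∑ s : Fin (2 * m), pen (.D s : Fl n m) (τ (.D s)) (eb x (τ (.D s)) (fp (.D s : Fl n m)))
        = ∑ s : Fin (2 * m), g s := by
      apply Finset.sum_congr rfl
      intro s _
      simp only [g, s.2, dif_pos, fp]
    have e3 : ∑ k ∈ Finset.range m, (if (if hvv : tv (2 * k) < n then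
          x (.M ⟨0, by omega⟩ ⟨tv (2 * k), hvv⟩) else false) =
        (if hvv : tv (2 * k + 1) < n then x (.M ⟨0, by omega⟩ ⟨tv (2 * k + 1), hvv⟩) else false)
        then (240 : ℤ) else 0) ≤ ∑ s : Fin (2 * m), g s := by
      rw [sum_pairs]
      apply Finset.sum_le_sum
      intro k hk
      rw [Finset.mem_range] at hk
      have h1 := htv (2 * k) (by omega)
      have h2 := htv (2 * k + 1) (by omega)
      have hg1 : 0 ≤ g (2 * k) := by
        simp only [g]; rw [dif_pos (by omega)]; exact pen_nonneg _ _ _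
      have hg2 : 0 ≤ g (2 * k + 1) := by
        simp only [g]; rw [dif_pos (by omega)]; exact pen_nonneg _ _ _
      rw [dif_pos h1, dif_pos h2]
      split_ifs with hc
      · have := edge_pen hA htv ⟨2 * k, by omega⟩ ⟨2 * k + 1, by omega⟩ (by simp) rfl hc
        simp only [g]
        rw [dif_pos (by omega), dif_pos (by omega)]
        exact this
      · linarith
    have s1 : 0 ≤ ∑ i : Fin n, pen (.L0 i : Fl n m) (τ (.L0 i)) (eb x (τ (.L0 i)) (fp (.L0 i : Fl n m))) :=
      Finset.sum_nonneg (fun _ _ => pen_nonneg _ _ _)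
    have s2 : 0 ≤ ∑ i : Fin n, pen (.LL i : Fl n m) (τ (.LL i)) (eb x (τ (.LL i)) (fp (.LL i : Fl n m))) :=
      Finset.sum_nonneg (fun _ _ => pen_nonneg _ _ _)
    have s3 : 0 ≤ ∑ s : Fin (2 * m), ∑ i : Fin n, pen (.I s i : Fl n m) (τ (.I s i)) (eb x (τ (.I s i)) (fp (.I s i : Fl n m))) :=
      Finset.sum_nonneg (fun _ _ => Finset.sum_nonneg (fun _ _ => pen_nonneg _ _ _))
    have s4 : 0 ≤ ∑ s : Fin (2 * m), ∑ i : Fin n, pen (.O s i : Fl n m) (τ (.O s i)) (eb x (τ (.O s i)) (fp (.O s i : Fl n m))) :=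
      Finset.sum_nonneg (fun _ _ => Finset.sum_nonneg (fun _ _ => pen_nonneg _ _ _))
    have s5 : 0 ≤ ∑ s : Fin (2 * m), pen (.C s : Fl n m) (τ (.C s)) (eb x (τ (.C s)) (fp (.C s : Fl n m))) :=
      Finset.sum_nonneg (fun _ _ => pen_nonneg _ _ _)
    rw [e2]
    linarith
  · left
    push Not at hall
    obtain ⟨f, hf⟩ := hall
    have hf2 : 240 * (m : ℤ) + 1 ≤
        (lay htv Lam).rc (VH tv H) (cH tv H) f (τ f) ((lay htv Lam).ear x τ f) := by
      rcases hcase f with h | h
      · exact absurd h.2 (hf h.1)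
      · exact h
    rw [add_le_add_iff_left]
    refine hf2.trans ?_
    exact Finset.single_le_sum
      (f := fun f => (lay htv Lam).rc (VH tv H) (cH tv H) f (τ f) ((lay htv Lam).ear x τ f))
      (fun f _ => hnn f) (mem_univ f)

/-! ### the filling of a cut -/

/-- is length class `pp s` first in the windows of the wire of `v`? -/
def pe (χ : ℕ → Bool) (s v : ℕ) : Bool := if s % 2 = 0 then χ v else !(χ v)

def cx (tv : ℕ → ℕ) (χ : ℕ → Bool) : Wn n m → Bool
  | .M _ i => χ i
  | .T s => pe χ s (tv s)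

def cτ (tv : ℕ → ℕ) (htv : ∀ s < 2 * m, tv s < n) (χ : ℕ → Bool) : Fl n m → Wn n m
  | .L0 i => .M ⟨0, by omega⟩ i
  | .LL i => .M ⟨2 * m, by omega⟩ i
  | .I s i => if pe χ s i then .M ⟨s + 1, by omega⟩ i else .M ⟨s, by omega⟩ i
  | .O s i => if pe χ s i then (if (i : ℕ) = tv s then .T s else .M ⟨s, by omega⟩ i)
      else .M ⟨s + 1, by omega⟩ i
  | .C s => if pe χ s (tv s) then .M ⟨s, by omega⟩ ⟨tv s, htv s s.2⟩ else .T s
  | .D s => if h : (s : ℕ) % 2 = 0 then (if χ (tv s) then .T ⟨s + 1, by omega⟩ else .T s)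
      else (if χ (tv (s - 1)) then .T ⟨s - 1, by omega⟩ else .T s)

lemma eb_cx_M (χ : ℕ → Bool) (s' : Fin (2 * m + 1)) (i : Fin n) (s : ℕ) :
    eb (cx tv χ) (.M s' i : Wn n m) (pp s) = pe χ s i := by
  unfold pe pp
  split_ifs with h
  · have := eb_P (cx tv χ) (.M s' i : Wn n m)
    simp only [wP] at this; rw [this]; rfl
  · have := eb_Q (cx tv χ) (.M s' i : Wn n m)
    simp only [wQ] at this; rw [this]; rfl

lemma eb_cx_T (χ : ℕ → Bool) (s : Fin (2 * m)) :
    eb (cx tv χ) (.T s : Wn n m) (pp s) = pe χ s (tv s) := by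
  have := eb_P (cx tv χ) (.T s : Wn n m)
  simp only [wP] at this; rw [this]; rfl

lemma eb_cx_T8 (χ : ℕ → Bool) (s : Fin (2 * m)) :
    eb (cx tv χ) (.T s : Wn n m) 8 = !(pe χ s (tv s)) := by
  have := eb_Q (cx tv χ) (.T s : Wn n m)
  simp only [wQ] at this; rw [this]; rfl

lemma cut_int (htv : ∀ s < 2 * m, tv s < n) (χ : ℕ → Bool) (f : Fl n m) :
    Intd tv f (cτ tv htv χ f) (eb (cx tv χ) (cτ tv htv χ f) (fp f)) := by
  rcases f with i | i | ⟨s, i⟩ | ⟨s, i⟩ | s | s
  · simp only [cτ, Intd]; simp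
  · simp only [cτ, Intd]; simp
  · simp only [cτ, fp]
    cases hp : pe χ s i
    · simp only [Bool.false_eq_true, if_false, Intd]
      rw [eb_cx_M, hp]; simp
    · simp only [if_true, Intd]
      rw [eb_cx_M, hp]; simp
  · simp only [cτ, fp]
    cases hp : pe χ s i
    · simp only [Bool.false_eq_true, if_false, Intd]
      rw [eb_cx_M, hp]; simp
    · simp only [if_true]
      by_cases hi : (i : ℕ) = tv s
      · rw [if_pos hi]
        simp only [Intd]
        rw [eb_cx_T, ← hi, hp]; simp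
      · rw [if_neg hi]
        simp only [Intd]
        rw [eb_cx_M, hp]; simp [hi]
  · simp only [cτ, fp]
    cases hp : pe χ s (tv s)
    · simp only [Bool.false_eq_true, if_false, Intd]
      rw [eb_cx_T, hp]; simp
    · simp only [if_true, Intd]
      rw [eb_cx_M]
      simp [hp]
  · simp only [cτ, fp]
    by_cases hs : (s : ℕ) % 2 = 0
    · rw [dif_pos hs]
      cases hχ : χ (tv s)
      · simp only [Bool.false_eq_true, if_false, Intd]
        left
        refine ⟨hs, Or.inl ⟨trivial, ?_⟩⟩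
        rw [eb_cx_T8]
        unfold pe; rw [if_pos hs, hχ]; rfl
      · simp only [if_true, Intd]
        left
        exact ⟨hs, Or.inr trivial⟩
    · rw [dif_neg hs]
      cases hχ : χ (tv (s - 1))
      · simp only [Bool.false_eq_true, if_false, Intd]
        right
        exact ⟨by omega, Or.inr trivial⟩
      · simp only [if_true, Intd]
        right
        refine ⟨by omega, Or.inl ⟨by omega, ?_⟩⟩
        rw [eb_cx_T8]
        unfold pe
        rw [if_pos (by simp only []; omega), hχ]; rfl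

/-- the job in a slot of the filling of a cut -/
def cinv (tv : ℕ → ℕ) (htv : ∀ s < 2 * m, tv s < n) (χ : ℕ → Bool) (w : Wn n m) (a : ℕ)
    (b : Bool) : Option (Fl n m) :=
  match w with
  | .M s i =>
    if a = 6 ∧ (s : ℕ) = 0 then some (.L0 i)
    else if a = 5 ∧ (s : ℕ) = 2 * m then some (.LL i)
    else if a = pp s then
      (if h : (s : ℕ) < 2 * m then
        some (if b then (if (i : ℕ) = tv s then .C ⟨s, h⟩ else .O ⟨s, h⟩ i) else .I ⟨s, h⟩ i)
      else none)
    else (if h : 1 ≤ (s : ℕ) then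
        some (if b then .I ⟨s - 1, by omega⟩ i else .O ⟨s - 1, by omega⟩ i)
      else none)
  | .T s =>
    if a = 8 then
      (if h : (s : ℕ) % 2 = 0 then some (if b then .D s else .D ⟨s + 1, by omega⟩)
      else some (if χ (tv (s - 1)) then .D ⟨s - 1, by omega⟩ else .D s))
    else some (if b then .O s ⟨tv s, htv s s.2⟩ else .C s)

lemma cinv_cτ (htv : ∀ s < 2 * m, tv s < n) (χ : ℕ → Bool) (f : Fl n m) :
    cinv tv htv χ (cτ tv htv χ f) (fp f) (eb (cx tv χ) (cτ tv htv χ f) (fp f)) = some f := by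
  rcases f with i | i | ⟨s, i⟩ | ⟨s, i⟩ | s | s
  · simp [cτ, fp, cinv]
  · have h1 : ¬ (5 = 6 ∧ 2 * m = 0) := by omega
    simp [cτ, fp, cinv]
  · have hs := s.2
    have hpv := pp_val s
    have hpar : ¬ pp (s : ℕ) = pp (s + 1) := by rw [pp_eq_iff]; omega
    simp only [cτ, fp]
    cases hp : pe χ s i
    · simp only [Bool.false_eq_true, if_false]
      rw [eb_cx_M, hp]
      simp only [cinv]
      rw [if_neg, if_neg, if_pos trivial, dif_pos hs]
      · simp
      · rintro ⟨h1, h2⟩; omega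
      · rintro ⟨h1, h2⟩; rw [h2] at h1; revert h1; decide
    · simp only [if_true]
      rw [eb_cx_M, hp]
      simp only [cinv]
      rw [if_neg, if_neg, if_neg hpar, dif_pos (by omega)]
      · simp
      · rintro ⟨h1, h2⟩
        have : ¬ (s : ℕ) % 2 = 0 := by omega
        unfold pp at h1; rw [if_neg this] at h1; omega
      · rintro ⟨h1, h2⟩; omega
  · have hs := s.2
    have hpv := pp_val s
    have hpar : ¬ pp (s : ℕ) = pp (s + 1) := by rw [pp_eq_iff]; omega
    simp only [cτ, fp]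
    cases hp : pe χ s i
    · simp only [Bool.false_eq_true, if_false]
      rw [eb_cx_M, hp]
      simp only [cinv]
      rw [if_neg, if_neg, if_neg hpar, dif_pos (by omega)]
      · simp
      · rintro ⟨h1, h2⟩
        have : ¬ (s : ℕ) % 2 = 0 := by omega
        unfold pp at h1; rw [if_neg this] at h1; omega
      · rintro ⟨h1, h2⟩; omega
    · simp only [if_true]
      by_cases hi : (i : ℕ) = tv s
      · rw [if_pos hi, eb_cx_T, ← hi, hp]
        simp only [cinv]
        rw [if_neg (by omega)]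
        simp only [if_true, ← hi]
      · rw [if_neg hi, eb_cx_M, hp]
        simp only [cinv]
        rw [if_neg, if_neg, if_pos trivial, dif_pos hs]
        · simp [hi]
        · rintro ⟨h1, h2⟩; omega
        · rintro ⟨h1, h2⟩; rw [h2] at h1; revert h1; decide
  · have hs := s.2
    have hpv := pp_val s
    simp only [cτ, fp]
    cases hp : pe χ s (tv s)
    · simp only [Bool.false_eq_true, if_false]
      rw [eb_cx_T, hp]
      simp only [cinv]
      rw [if_neg (by omega)]
      simp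
    · simp only [if_true]
      rw [eb_cx_M]
      simp only [cinv, hp]
      rw [if_neg, if_neg, if_pos trivial, dif_pos hs]
      · simp
      · rintro ⟨h1, h2⟩; omega
      · rintro ⟨h1, h2⟩; rw [h2] at h1; revert h1; decide
  · have hs := s.2
    simp only [cτ, fp]
    by_cases hs2 : (s : ℕ) % 2 = 0
    · rw [dif_pos hs2]
      cases hχ : χ (tv s)
      · simp only [Bool.false_eq_true, if_false]
        rw [eb_cx_T8]
        have hpe : pe χ s (tv s) = false := by unfold pe; rw [if_pos hs2, hχ]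
        rw [hpe]
        simp only [cinv, if_true]
        rw [dif_pos hs2]; simp
      · simp only [if_true]
        simp only [cinv, if_true]
        have h2 : ¬ ((s : ℕ) + 1) % 2 = 0 := by omega
        rw [dif_neg h2]
        simp [hχ]
    · rw [dif_neg hs2]
      cases hχ : χ (tv (s - 1))
      · simp only [Bool.false_eq_true, if_false]
        simp only [cinv, if_true]
        rw [dif_neg hs2]
        simp [hχ]
      · simp only [if_true]
        rw [eb_cx_T8]
        have h2 : ((s : ℕ) - 1) % 2 = 0 := by omega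
        have hpe : pe χ ((⟨(s : ℕ) - 1, by omega⟩ : Fin (2 * m)) : ℕ)
            (tv ((⟨(s : ℕ) - 1, by omega⟩ : Fin (2 * m)) : ℕ)) = true := by
          simp only []
          unfold pe; rw [if_pos h2, hχ]
        rw [hpe]
        simp only [cinv, if_true]
        rw [dif_pos h2]
        have h3 : (s : ℕ) - 1 + 1 = s := by omega
        simp [h3]

lemma cut_valid (htv : ∀ s < 2 * m, tv s < n) (Lam : ℕ) (χ : ℕ → Bool) :
    (lay htv Lam).Valid (cx tv χ) (cτ tv htv χ) := by
  refine ⟨?_, ?_, ?_⟩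
  · intro f
    show fp f = wP (cτ tv htv χ f) ∨ fp f = wQ (cτ tv htv χ f)
    rcases f with i | i | ⟨s, i⟩ | ⟨s, i⟩ | s | s
    · simp [cτ, fp, wP, wQ]
    · simp [cτ, fp, wP, wQ]
    · have hpv := pp_val s
      simp only [cτ, fp]; split_ifs <;> simp only [wP, wQ] <;> exact hpv
    · have hpv := pp_val s
      simp only [cτ, fp]; split_ifs <;> simp only [wP, wQ] <;> first | exact hpv | (left; trivial)
    · have hpv := pp_val s
      simp only [cτ, fp]; split_ifs <;> simp only [wP, wQ] <;> first | exact hpv | (left; trivial)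
    · simp only [cτ, fp]; split_ifs <;> simp only [wP, wQ] <;> (right; trivial)
  · intro f f' h1 h2
    have h2' : fp f = fp f' := h2
    have e1 := cinv_cτ htv χ f
    have e2 := cinv_cτ htv χ f'
    rw [h1, h2'] at e1
    rw [e1] at e2
    exact Option.some.inj e2
  · intro f
    rw [Layout.time_eq_slot, ear_eq, slot_eq]
    show fd tv f ≤ wslot tv (cτ tv htv χ f) (fp f) (eb (cx tv χ) (cτ tv htv χ f) (fp f))
    have hint := cut_int htv χ f
    generalize eb (cx tv χ) (cτ tv htv χ f) (fp f) = b at hint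
    generalize cτ tv htv χ f = w at hint
    have hNN := NN_ge n m
    rcases f with i | i | ⟨s, i⟩ | ⟨s, i⟩ | s | s <;> rcases w with ⟨s', i'⟩ | s' <;>
      simp only [Intd] at hint
    · obtain ⟨h1, rfl⟩ := hint
      simp only [fd, fp, wslot, wS, wP, wQ, h1]; split_ifs <;> omega
    · obtain ⟨h1, rfl⟩ := hint
      simp only [fd, fp, wslot, wS, wP, wQ, h1]; split_ifs <;> omega
    · have hpv := pp_val s
      have hlt := pos_lt (s := (s : ℕ)) i.2
      obtain ⟨rfl, ⟨h1, rfl⟩ | ⟨h1, rfl⟩⟩ := hint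
      · simp only [fd, fp, wslot, wS, wP, wQ, h1]; simp
      · simp only [fd, fp, wslot, wS, wP, wQ, h1, if_true]
        unfold St
        have : ((s : ℕ) + 1) * NN n m = s * NN n m + NN n m := by ring
        omega
    · have hpv := pp_val s
      have hlt := pos_lt (s := (s : ℕ)) i.2
      obtain ⟨rfl, ⟨h0, h1, rfl⟩ | ⟨h1, rfl⟩⟩ := hint
      · simp only [fd, fp, wslot, wS, wP, wQ, h1, if_true]; rw [if_neg h0]
      · simp only [fd, fp, wslot, wS, wP, wQ, h1]
        unfold St
        have : ((s : ℕ) + 1) * NN n m = s * NN n m + NN n m := by ring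
        split_ifs <;> omega
    · obtain ⟨h0, h1, rfl⟩ := hint
      simp only [fd, fp, wslot, wS, wP, wQ, h1, if_true]
      rw [if_pos h0, ← h0]
    · obtain ⟨h0, h1, rfl⟩ := hint
      simp only [fd, fp, wslot, wS, wP, wQ, h1, if_true, h0]
      unfold St; omega
    · obtain ⟨h1, rfl⟩ := hint
      simp only [fd, fp, wslot, wS, wP, wQ, h1]
      unfold St
      simp
      omega
    · have hst := htv s s.2
      have hlt := pos_lt (s := (s : ℕ)) hst
      rcases hint with ⟨h0, ⟨h1, rfl⟩ | h1⟩ | ⟨h0, ⟨h1, rfl⟩ | h1⟩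
      · simp only [fd, fp, wslot, wS, wP, wQ, h1, if_true]
        rw [if_pos h0]; unfold St; omega
      · have hst' := htv s' s'.2
        have hlt' := pos_lt (s := (s' : ℕ)) hst'
        simp only [fd, fp, wslot, wS, wP, wQ]
        rw [if_pos h0]
        unfold St
        have : (s' : ℕ) * NN n m = s * NN n m + NN n m := by rw [h1]; ring
        split_ifs <;> omega
      · have h2 : (s' : ℕ) = s - 1 := by omega
        have hpp : pp ((s : ℕ) - 1) = 5 := by unfold pp; rw [if_pos (by omega)]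
        simp only [fd, fp, wslot, wS, wP, wQ, h2]
        rw [if_neg (by omega), hpp]
        unfold St
        simp
      · have h2 : (s' : ℕ) = (s - 1) + 1 := by omega
        have hlt' := pos_lt (s := (s : ℕ) - 1) (htv ((s : ℕ) - 1) (by omega))
        simp only [fd, fp, wslot, wS, wP, wQ, h1]
        rw [if_neg (by omega)]
        unfold St
        have : (s : ℕ) * NN n m = ((s : ℕ) - 1) * NN n m + NN n m := by
          obtain ⟨k, hk⟩ : ∃ k, (s : ℕ) = k + 1 := ⟨s - 1, by omega⟩
          rw [hk]; simp; ring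
        split_ifs <;> omega

theorem upper (htv : ∀ s < 2 * m, tv s < n) (Lam : ℕ) (H : ℤ) (χ : ℕ → Bool) :
    (lay htv Lam).fcost (cx tv χ) (cτ tv htv χ) =
      base (n := n) (m := m) tv H + 240 * (uncut m tv χ : ℤ) := by
  have hv := cut_valid htv Lam χ
  rw [fcost_eq' htv Lam H hv]
  congr 1
  have e1 : ∑ f, (lay htv Lam).rc (VH tv H) (cH tv H) f (cτ tv htv χ f)
      ((lay htv Lam).ear (cx tv χ) (cτ tv htv χ) f) =
      ∑ f, pen f (cτ tv htv χ f) (eb (cx tv χ) (cτ tv htv χ f) (fp f)) := by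
    apply Finset.sum_congr rfl
    intro f _
    rw [ear_eq]
    apply intd_rc htv Lam H f _ _ (cut_int htv χ f) (hv.typ f)
    have := hv.rel f
    rw [Layout.time_eq_slot, ear_eq] at this
    exact this
  rw [e1, sum_Fl, uncut_eq_sum]
  have z1 : ∀ i : Fin n, pen (.L0 i : Fl n m) (cτ tv htv χ (.L0 i))
      (eb (cx tv χ) (cτ tv htv χ (.L0 i)) (fp (.L0 i : Fl n m))) = 0 := by
    intro i; simp only [cτ, pen]
  have z2 : ∀ i : Fin n, pen (.LL i : Fl n m) (cτ tv htv χ (.LL i))
      (eb (cx tv χ) (cτ tv htv χ (.LL i)) (fp (.LL i : Fl n m))) = 0 := by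
    intro i; simp only [cτ, pen]
  have z3 : ∀ (s : Fin (2 * m)) (i : Fin n), pen (.I s i : Fl n m) (cτ tv htv χ (.I s i))
      (eb (cx tv χ) (cτ tv htv χ (.I s i)) (fp (.I s i : Fl n m))) = 0 := by
    intro s i; simp only [pen]
  have z4 : ∀ (s : Fin (2 * m)) (i : Fin n), pen (.O s i : Fl n m) (cτ tv htv χ (.O s i))
      (eb (cx tv χ) (cτ tv htv χ (.O s i)) (fp (.O s i : Fl n m))) = 0 := by
    intro s i; simp only [pen]
  have z5 : ∀ (s : Fin (2 * m)), pen (.C s : Fl n m) (cτ tv htv χ (.C s))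
      (eb (cx tv χ) (cτ tv htv χ (.C s)) (fp (.C s : Fl n m))) = 0 := by
    intro s; simp only [pen]
  simp only [z1, z2, z3, z4, z5, Finset.sum_const_zero, zero_add]
  let g : ℕ → ℤ := fun s => if hs : s < 2 * m then
    pen (.D ⟨s, hs⟩ : Fl n m) (cτ tv htv χ (.D ⟨s, hs⟩))
      (eb (cx tv χ) (cτ tv htv χ (.D ⟨s, hs⟩)) 8) else 0
  have e2 : ∑ s : Fin (2 * m), pen (.D s : Fl n m) (cτ tv htv χ (.D s))
      (eb (cx tv χ) (cτ tv htv χ (.D s)) (fp (.D s : Fl n m))) = ∑ s : Fin (2 * m), g s := by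
    apply Finset.sum_congr rfl
    intro s _
    simp only [g, s.2, dif_pos, fp]
  rw [e2, sum_pairs]
  apply Finset.sum_congr rfl
  intro k hk
  rw [Finset.mem_range] at hk
  have hk1 : 2 * k < 2 * m := by omega
  have hk2 : 2 * k + 1 < 2 * m := by omega
  have p1 : (2 * k) % 2 = 0 := by omega
  have p2 : ¬ (2 * k + 1) % 2 = 0 := by omega
  simp only [g]
  rw [dif_pos hk1, dif_pos hk2]
  simp only [cτ]
  rw [dif_pos p1, dif_neg p2]
  simp only [Nat.add_sub_cancel]
  cases h1 : χ (tv (2 * k)) <;> cases h2 : χ (tv (2 * k + 1)) <;>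
    simp only [Bool.false_eq_true, if_false, if_true, eb_cx_T8, pe, pen, p1, p2, h1, h2] <;>
    simp

end Pool.Agent.H77.Tard.Inst
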