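import Mathlib
import Pool.Agent.H77.Tard.Upper

set_option autoImplicit false
set_option linter.unusedSectionVars false
set_option linter.unusedSimpArgs false
set_option linter.unusedVariables false

namespace Pool.Agent.H77.Tard.Inst

open Finset

variable {n m : ℕ} {tv : ℕ → ℕ}

/-- amount by which the flexible jobs are late in the filling of the empty cut -/
def lateR (tv : ℕ → ℕ) : Fl n m → ℕ
  | .L0 _ => 0
  | .LL _ => 6
  | .I s i => if (s : ℕ) % 2 = 0 then 0 else St n m (s + 1) i + pp s - (St n m s i + 11)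
  | .O s i => if (s : ℕ) % 2 = 0 then
      St n m (s + 1) i + 11 - (if (i : ℕ) = tv s then St n m s i - 16 + pp s
        else St n m s i + pp s) else 0
  | .C s => if (s : ℕ) % 2 = 0 then 0 else 8
  | .D s => if (s : ℕ) % 2 = 0 then 0 else
      St n m s (tv s) - 2 - (St n m (s - 1) (tv (s - 1)) - 3)

/-- the empty cut -/
def χ0 : ℕ → Bool := fun _ => false

lemma pe0 (s v : ℕ) : pe χ0 s v = if s % 2 = 0 then false else true := by
  unfold pe χ0; split_ifs <;> rfl

lemma late_ref (htv : ∀ s < 2 * m, tv s < n) (f : Fl n m) :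
    wslot tv (cτ tv htv χ0 f) (fp f) (eb (cx tv χ0) (cτ tv htv χ0 f) (fp f)) - fd tv f =
      lateR tv f := by
  rcases f with i | i | ⟨s, i⟩ | ⟨s, i⟩ | s | s
  · have h : eb (cx tv χ0) (.M ⟨0, by omega⟩ i : Wn n m) 6 = true := by
      unfold eb; simp [cx, wP, χ0]
    simp only [cτ, fp]
    rw [h]
    simp [wslot, wS, fd, lateR]
  · have h : eb (cx tv χ0) (.M ⟨2 * m, by omega⟩ i : Wn n m) 5 = false := by
      unfold eb; simp [cx, wP, χ0]
    simp only [cτ, fp]
    rw [h]
    simp only [wslot, wS, fd, lateR, wP, wQ, Bool.false_eq_true, if_false]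
    omega
  · simp only [cτ, fp]
    by_cases hs : (s : ℕ) % 2 = 0
    · have hp : pe χ0 s i = false := by rw [pe0, if_pos hs]
      simp only [hp, Bool.false_eq_true, if_false]
      rw [eb_cx_M, hp]
      simp only [wslot, wS, fd, lateR, wP, wQ, Bool.false_eq_true, if_false]
      rw [if_pos hs]; omega
    · have hp : pe χ0 s i = true := by rw [pe0, if_neg hs]
      simp only [hp, if_true]
      rw [eb_cx_M, hp]
      simp only [wslot, wS, fd, lateR, wP, wQ, if_true]
      rw [if_neg hs]
  · simp only [cτ, fp]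
    by_cases hs : (s : ℕ) % 2 = 0
    · have hp : pe χ0 s i = false := by rw [pe0, if_pos hs]
      simp only [hp, Bool.false_eq_true, if_false]
      rw [eb_cx_M, hp]
      simp only [wslot, wS, fd, lateR, wP, wQ, Bool.false_eq_true, if_false]
      rw [if_pos hs]
    · have hp : pe χ0 s i = true := by rw [pe0, if_neg hs]
      simp only [hp, if_true]
      simp only [lateR]
      rw [if_neg hs]
      by_cases hi : (i : ℕ) = tv s
      · rw [if_pos hi, eb_cx_T, ← hi, hp]
        simp only [wslot, wS, fd, wP, wQ, if_true]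
        rw [if_pos hi, ← hi]; omega
      · rw [if_neg hi, eb_cx_M, hp]
        simp only [wslot, wS, fd, wP, wQ, if_true]
        rw [if_neg hi]; omega
  · simp only [cτ, fp]
    have hge : 16 ≤ St n m s (tv s) := by unfold St; omega
    by_cases hs : (s : ℕ) % 2 = 0
    · have hp : pe χ0 s (tv s) = false := by rw [pe0, if_pos hs]
      simp only [hp, Bool.false_eq_true, if_false]
      rw [eb_cx_T, hp]
      simp only [wslot, wS, fd, lateR, wP, wQ, Bool.false_eq_true, if_false]
      rw [if_pos hs]; omega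
    · have hp : pe χ0 s (tv s) = true := by rw [pe0, if_neg hs]
      simp only [hp, if_true]
      rw [eb_cx_M]
      simp only [hp]
      simp only [wslot, wS, fd, lateR, wP, wQ, if_true]
      rw [if_neg hs]; omega
  · simp only [cτ, fp]
    have hge : 16 ≤ St n m s (tv s) := by unfold St; omega
    have h0 : ∀ v, χ0 v = false := fun _ => rfl
    by_cases hs : (s : ℕ) % 2 = 0
    · have hp : pe χ0 s (tv s) = false := by rw [pe0, if_pos hs]
      rw [dif_pos hs]
      simp only [h0, Bool.false_eq_true, if_false]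
      rw [eb_cx_T8, hp]
      simp only [Bool.not_false, wslot, wS, fd, lateR, wP, wQ, if_true]
      rw [if_pos hs, if_pos hs]; omega
    · have hp : pe χ0 s (tv s) = true := by rw [pe0, if_neg hs]
      have hpp : pp (s : ℕ) = 6 := by unfold pp; rw [if_neg hs]
      rw [dif_neg hs]
      simp only [h0, Bool.false_eq_true, if_false]
      rw [eb_cx_T8, hp]
      simp only [Bool.not_true, wslot, wS, fd, lateR, wP, wQ, Bool.false_eq_true, if_false]
      rw [if_neg hs, if_neg hs, hpp]; omega

/-- extra weight of a flexible job -/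
def ew (tv : ℕ → ℕ) (f : Fl n m) : ℕ := (fw tv f).toNat

/-- reference cost (modified) -/
def refE (n m : ℕ) (tv : ℕ → ℕ) : ℕ := ∑ f : Fl n m, ew tv f * lateR tv f

/-- the large weight -/
def LamR (n m : ℕ) (tv : ℕ → ℕ) : ℕ := 1 + refE n m tv

/-- the total weighted tardiness of the reference schedule -/
def kref (n m : ℕ) (tv : ℕ → ℕ) : ℕ :=
  ∑ f : Fl n m, (LamR n m tv * fp f + ew tv f) * lateR tv f

lemma fcost_ref (htv : ∀ s < 2 * m, tv s < n) (Lam : ℕ) :
    (lay htv Lam).fcost (cx tv χ0) (cτ tv htv χ0) = (refE n m tv : ℤ) := by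
  have hv := cut_valid htv Lam χ0
  unfold Layout.fcost refE
  push_cast
  apply Finset.sum_congr rfl
  intro f _
  have h1 := hv.rel f
  have h2 := late_ref htv f
  have h3 : (lay htv Lam).time (cx tv χ0) (cτ tv htv χ0) f =
    wslot tv (cτ tv htv χ0 f) (fp f) (eb (cx tv χ0) (cτ tv htv χ0 f) (fp f)) := by
    rw [Layout.time_eq_slot, ear_eq, slot_eq]
    rfl
  rw [h3] at h1 ⊢
  have h4 : (lay htv Lam).df f = fd tv f := rfl
  rw [h4] at h1 ⊢
  rw [← h2, Nat.cast_sub h1]
  rfl

lemma two_kref (htv : ∀ s < 2 * m, tv s < n) :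
    2 * (kref n m tv : ℤ) = (lay htv (LamR n m tv)).D2 + 2 * (refE n m tv : ℤ) := by
  have hv := cut_valid htv (LamR n m tv) χ0
  obtain ⟨pos, hinj, hl, hr, hc⟩ := (lay htv (LamR n m tv)).complete hv
  rw [fcost_ref] at hc
  rw [← hc]
  congr 1
  norm_cast
  rw [Fintype.sum_sum_type]
  have z : ∑ u, (lay htv (LamR n m tv)).w (Sum.inr u) *
      (comp (lay htv (LamR n m tv)).p pos (Sum.inr u) -
        (lay htv (LamR n m tv)).d (Sum.inr u)) = 0 := by
    apply Finset.sum_eq_zero
    intro u _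
    rw [hr, Layout.d_inr]; simp
  rw [z, add_zero]
  unfold kref
  apply Finset.sum_congr rfl
  intro f _
  rw [hl]
  have h2 := late_ref htv f
  have h3 : (lay htv (LamR n m tv)).time (cx tv χ0) (cτ tv htv χ0) f =
    wslot tv (cτ tv htv χ0 f) (fp f) (eb (cx tv χ0) (cτ tv htv χ0 f) (fp f)) := by
    rw [Layout.time_eq_slot, ear_eq, slot_eq]
    rfl
  rw [h3, ← h2]
  rfl

lemma kref_ge (htv : ∀ s < 2 * m, tv s < n) : 240 * m ≤ kref n m tv := by
  have hNN := NN_ge n m
  let g : ℕ → ℤ := fun s => if s % 2 = 0 then (0 : ℤ) else 240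
  have h1 : (240 * (m : ℤ)) ≤ ∑ s : Fin (2 * m), g s := by
    rw [sum_pairs m g]
    have : ∀ k ∈ Finset.range m, (g (2 * k) + g (2 * k + 1)) = 240 := by
      intro k _
      have h1 : (2 * k) % 2 = 0 := by omega
      have h2 : ¬ (2 * k + 1) % 2 = 0 := by omega
      simp [g, h1, h2]
    rw [Finset.sum_congr rfl this]; simp; linarith
  have h2 : ∑ s : Fin (2 * m), g s ≤
      ∑ s : Fin (2 * m), (((LamR n m tv * fp (.D s : Fl n m) + ew tv (.D s : Fl n m)) *
        lateR tv (.D s : Fl n m) : ℕ) : ℤ) := by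
    apply Finset.sum_le_sum
    intro s _
    have hst := htv s s.2
    by_cases hs : (s : ℕ) % 2 = 0
    · simp only [g, hs, if_true]; positivity
    · simp only [g, hs, if_false]
      have e1 : 240 ≤ ew tv (.D s : Fl n m) := by
        simp only [ew, fw, wD]; rw [if_neg hs]; omega
      have e2 : 1 ≤ lateR tv (.D s : Fl n m) := by
        simp only [lateR]; rw [if_neg hs]
        have hlt := pos_lt (s := (s : ℕ) - 1) (htv ((s : ℕ) - 1) (by omega))
        have : (s : ℕ) * NN n m = ((s : ℕ) - 1) * NN n m + NN n m := by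
          obtain ⟨k, hk⟩ : ∃ k, (s : ℕ) = k + 1 := ⟨s - 1, by omega⟩
          rw [hk]; simp; ring
        unfold St; omega
      have e3 : 240 ≤ (LamR n m tv * fp (.D s : Fl n m) + ew tv (.D s : Fl n m)) *
          lateR tv (.D s : Fl n m) := by
        calc 240 ≤ ew tv (.D s : Fl n m) * 1 := by omega
          _ ≤ _ := Nat.mul_le_mul (Nat.le_add_left _ _) e2
      exact_mod_cast e3
  have h3 : ∑ s : Fin (2 * m), (LamR n m tv * fp (.D s : Fl n m) + ew tv (.D s : Fl n m)) *
      lateR tv (.D s : Fl n m) ≤ kref n m tv := by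
    unfold kref
    rw [sum_Fl n m]
    omega
  have h4 : (∑ s : Fin (2 * m), (((LamR n m tv * fp (.D s : Fl n m) + ew tv (.D s : Fl n m)) *
        lateR tv (.D s : Fl n m) : ℕ) : ℤ)) ≤ (kref n m tv : ℤ) := by
    exact_mod_cast h3
  have : (240 * (m : ℤ)) ≤ kref n m tv := h1.trans (h2.trans h4)
  exact_mod_cast this

/-- number of cut edges -/
def cut (m : ℕ) (tv : ℕ → ℕ) (χ : ℕ → Bool) : ℕ :=
  ((List.range m).filter (fun k => χ (tv (2 * k)) != χ (tv (2 * k + 1)))).length

lemma cut_add_uncut (m : ℕ) (tv : ℕ → ℕ) (χ : ℕ → Bool) : cut m tv χ + uncut m tv χ = m := by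
  unfold cut uncut
  have h := List.length_eq_length_filter_add
    (l := List.range m) (fun k => χ (tv (2 * k)) == χ (tv (2 * k + 1)))
  rw [List.length_range] at h
  rw [add_comm]
  exact h.symm

/-- the family of jobs -/
def jb (tv : ℕ → ℕ) : Fl n m ⊕ Fin (fixL n m tv).length → Job
  | .inl f => ⟨fp f, fd tv f, LamR n m tv * fp f + ew tv f⟩
  | .inr x => ⟨1, (fixL n m tv)[x] + 1, 2 * LamR n m tv⟩

theorem main_family (htv : ∀ s < 2 * m, tv s < n) {K : ℕ} (hK : K ≤ m) :
    (∃ pos : Fl n m ⊕ Fin (fixL n m tv).length → ℕ, Function.Injective pos ∧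
      ∑ j, (jb tv j).w * (comp (fun i => (jb tv i).p) pos j - (jb tv j).d) ≤
        kref n m tv - 240 * K) ↔
    ∃ χ : ℕ → Bool, K ≤ cut m tv χ := by
  set L := lay htv (LamR n m tv) with hL
  have hp : (fun i => (jb tv i).p) = L.p := by
    funext j; rcases j with f | x <;> rfl
  have hcost : ∀ pos : Fl n m ⊕ Fin (fixL n m tv).length → ℕ,
      ∑ j, (jb tv j).w * (comp (fun i => (jb tv i).p) pos j - (jb tv j).d) =
      ∑ j, L.w j * (comp L.p pos j - L.d j) := by
    intro pos
    apply Finset.sum_congr rfl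
    intro j _
    rw [hp]
    rcases j with f | x <;> rfl
  have hk0 := kref_ge (n := n) (m := m) htv
  have hk2 := two_kref htv
  rw [← hL] at hk2
  have hkc : ((kref n m tv - 240 * K : ℕ) : ℤ) = kref n m tv - 240 * K := by
    rw [Nat.cast_sub (by omega)]; push_cast; ring
  obtain ⟨H, hH⟩ := exists_H (n := n) (m := m) htv (LamR n m tv)
  have hHP : HProp tv htv (LamR n m tv) H := hH
  have hrefE := upper (n := n) (m := m) htv (LamR n m tv) H χ0
  rw [fcost_ref] at hrefE
  have hun0 : uncut m tv χ0 = m := by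
    unfold uncut χ0; simp
  rw [hun0] at hrefE
  constructor
  · rintro ⟨pos, hinj, hle⟩
    rw [hcost] at hle
    have hle' : ((∑ j, L.w j * (comp L.p pos j - L.d j) : ℕ) : ℤ) ≤ kref n m tv - 240 * K := by
      rw [← hkc]; exact_mod_cast hle
    have hlt : 2 * ((∑ j, L.w j * (comp L.p pos j - L.d j) : ℕ) : ℤ) < L.D2 + 2 * L.Λ := by
      have : (L.Λ : ℤ) = 1 + refE n m tv := by
        show ((LamR n m tv : ℕ) : ℤ) = _
        unfold LamR; push_cast; ring
      rw [this]
      have : (0 : ℤ) ≤ K := by positivity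
      linarith
    obtain ⟨x, τ, hv, he⟩ := L.sound pos hinj hlt
    rcases lower htv (LamR n m tv) hHP hv with h | ⟨χ, h⟩
    · exfalso
      have : (0 : ℤ) ≤ K := by positivity
      linarith
    · refine ⟨χ, ?_⟩
      have h5 : 240 * (uncut m tv χ : ℤ) ≤ 240 * (m : ℤ) - 240 * K := by linarith
      have h6 := cut_add_uncut m tv χ
      omega
  · rintro ⟨χ, hχ⟩
    have hv := cut_valid htv (LamR n m tv) χ
    obtain ⟨pos, hinj, _, _, hc⟩ := L.complete hv
    refine ⟨pos, hinj, ?_⟩
    rw [hcost]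
    rw [upper (n := n) (m := m) htv (LamR n m tv) H χ] at hc
    have h6 := cut_add_uncut m tv χ
    have h7 : (uncut m tv χ : ℤ) ≤ m - K := by omega
    have h8 : ((∑ j, L.w j * (comp L.p pos j - L.d j) : ℕ) : ℤ) ≤
        ((kref n m tv - 240 * K : ℕ) : ℤ) := by
      rw [hkc]; linarith
    exact_mod_cast h8

end Pool.Agent.H77.Tard.Inst
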