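import Mathlib
import Pool.Agent.H77.Tard.Main

set_option autoImplicit false
set_option linter.unusedSectionVars false
set_option linter.unusedSimpArgs false
set_option linter.unusedVariables false

namespace Pool.Agent.H77.Tard.Inst

open Finset

section lists

lemma sum_coe_fin {α : Type} (a : ℕ) (L : ℕ → List α) :
    ∑ s : Fin a, ((L s : List α) : Multiset α) = (((List.range a).flatMap L : List α) : Multiset α) := by
  rw [Fin.sum_univ_eq_sum_range (fun s => ((L s : List α) : Multiset α)) a]
  induction a with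
  | zero => simp
  | succ k ih =>
    rw [Finset.sum_range_succ, ih, List.range_succ, List.flatMap_append]
    simp

lemma sum_single_fin {α : Type} (a : ℕ) (h : ℕ → α) :
    ∑ s : Fin a, ({h s} : Multiset α) = (((List.range a).map h : List α) : Multiset α) := by
  have := sum_coe_fin a (fun s => [h s])
  simp only [Multiset.coe_singleton] at this
  rw [this]
  congr 1
  induction a with
  | zero => simp
  | succ k ih => 
    rw [List.range_succ, List.flatMap_append, List.map_append]
    congr 1
    · apply ih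
      have := sum_coe_fin k (fun s => [h s])
      simp only [Multiset.coe_singleton] at this
      exact this

end lists

/-- the flexible jobs: (length, due date, extra weight, lateness in the reference schedule) -/
def flexL (n m : ℕ) (tv : ℕ → ℕ) : List (ℕ × ℕ × ℕ × ℕ) :=
  (List.range n).map (fun i => (6, St n m 0 i + 6, (6 * om n m 0 i).toNat, 0)) ++
  ((List.range n).map (fun i => (5, St n m (2 * m) i + 5, (5 * om n m (2 * m) i).toNat, 6)) ++
  ((List.range (2 * m)).flatMap (fun s => (List.range n).map (fun i =>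
    (pp s, St n m s i + 11, (wI n m s i).toNat,
      if s % 2 = 0 then 0 else St n m (s + 1) i + pp s - (St n m s i + 11)))) ++
  ((List.range (2 * m)).flatMap (fun s => (List.range n).map (fun i =>
    (pp s, if i = tv s then St n m s i - 16 + pp s else St n m s i + pp s,
      (wO n m tv s i).toNat,
      if s % 2 = 0 then St n m (s + 1) i + 11 -
        (if i = tv s then St n m s i - 16 + pp s else St n m s i + pp s) else 0))) ++
  ((List.range (2 * m)).map (fun s =>
    (pp s, St n m s (tv s) - 8 + pp s, (wC n m tv s).toNat, if s % 2 = 0 then 0 else 8)) ++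
  (List.range (2 * m)).map (fun s =>
    (8, if s % 2 = 0 then St n m s (tv s) - 8 else St n m (s - 1) (tv (s - 1)) - 3,
      (wD n m s).toNat,
      if s % 2 = 0 then 0 else St n m s (tv s) - 2 - (St n m (s - 1) (tv (s - 1)) - 3)))))))

variable {n m : ℕ} {tv : ℕ → ℕ}

lemma map_univ_eq_sum {F α : Type} [Fintype F] (g : F → α) :
    (univ : Finset F).val.map g = ∑ f : F, ({g f} : Multiset α) := by
  have h := Multiset.sum_map_singleton ((univ : Finset F).val.map g)
  rw [Multiset.map_map] at h
  exact h.symm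

lemma flexL_eq : (univ : Finset (Fl n m)).val.map
    (fun f => (fp f, fd tv f, ew tv f, lateR tv f)) = (flexL n m tv : Multiset _) := by
  rw [map_univ_eq_sum, sum_Fl]
  unfold flexL
  simp only [← Multiset.coe_add]
  congr 1
  · rw [← sum_single_fin]; rfl
  congr 1
  · rw [← sum_single_fin]; rfl
  congr 1
  · rw [← sum_coe_fin]
    apply Finset.sum_congr rfl
    intro s _
    rw [← sum_single_fin]; rfl
  congr 1
  · rw [← sum_coe_fin]
    apply Finset.sum_congr rfl
    intro s _
    rw [← sum_single_fin]; rfl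
  congr 1
  · rw [← sum_single_fin]; rfl
  · rw [← sum_single_fin]; rfl

lemma sum_flex (h : ℕ × ℕ × ℕ × ℕ → ℕ) :
    ((flexL n m tv).map h).sum = ∑ f : Fl n m, h (fp f, fd tv f, ew tv f, lateR tv f) := by
  have h1 : (((flexL n m tv : Multiset _)).map h).sum = ((flexL n m tv).map h).sum := by simp
  rw [← h1, ← flexL_eq, Multiset.map_map]
  rfl

/-- the large weight of the instance -/
def bigW (n m : ℕ) (tv : ℕ → ℕ) : ℕ := 1 + ((flexL n m tv).map (fun q => q.2.2.1 * q.2.2.2)).sum

/-- the jobs of the instance -/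
def jobs (n m : ℕ) (tv : ℕ → ℕ) : List Job :=
  (flexL n m tv).map (fun q => ⟨q.1, q.2.1, bigW n m tv * q.1 + q.2.2.1⟩) ++
  (fixL n m tv).map (fun y => ⟨1, y + 1, 2 * bigW n m tv⟩)

/-- the threshold of the instance -/
def thr (n m : ℕ) (tv : ℕ → ℕ) (K : ℕ) : ℕ :=
  ((flexL n m tv).map (fun q => (bigW n m tv * q.1 + q.2.2.1) * q.2.2.2)).sum - 240 * K

lemma bigW_eq : bigW n m tv = LamR n m tv := by
  unfold bigW LamR refE
  rw [sum_flex]

lemma thr_eq (K : ℕ) : thr n m tv K = kref n m tv - 240 * K := by
  unfold thr kref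
  rw [sum_flex, bigW_eq]

lemma jobs_eq : (univ : Finset (Fl n m ⊕ Fin (fixL n m tv).length)).val.map (jb tv) =
    (jobs n m tv : Multiset Job) := by
  rw [map_univ_eq_sum, Fintype.sum_sum_type]
  unfold jobs
  rw [← Multiset.coe_add]
  congr 1
  · rw [← map_univ_eq_sum, bigW_eq, ← Multiset.map_coe, ← flexL_eq, Multiset.map_map]
    rfl
  · rw [bigW_eq]
    have h1 : ∀ (l : List ℕ) (g : ℕ → Job), ∑ x : Fin l.length, ({g l[x]} : Multiset Job) =
        ((l.map g : List Job) : Multiset Job) := by
      intro l g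
      rw [← map_univ_eq_sum]
      have : (univ : Finset (Fin l.length)).val = ((List.finRange l.length : List _) : Multiset _) := rfl
      rw [this, Multiset.map_coe]
      congr 1
      have h2 : l.map g = List.ofFn (fun i : Fin l.length => g l[i]) := by
        apply List.ext_getElem <;> simp
      rw [h2, List.ofFn_eq_map]
    exact h1 (fixL n m tv) (fun y => ⟨1, y + 1, 2 * LamR n m tv⟩)

theorem main_list (htv : ∀ s < 2 * m, tv s < n) {K : ℕ} (hK : K ≤ m) :
    Tardy (jobs n m tv) (thr n m tv K) ↔ ∃ χ : ℕ → Bool, K ≤ cut m tv χ := by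
  rw [tardy_iff (jobs n m tv) (jb tv) jobs_eq, thr_eq]
  exact main_family htv hK

lemma flexL_p {q : ℕ × ℕ × ℕ × ℕ} (hq : q ∈ flexL n m tv) : q.1 = 5 ∨ q.1 = 6 ∨ q.1 = 8 := by
  have : q ∈ (flexL n m tv : Multiset _) := hq
  rw [← flexL_eq, Multiset.mem_map] at this
  obtain ⟨f, _, rfl⟩ := this
  rcases f with i | i | ⟨s, i⟩ | ⟨s, i⟩ | s | s <;> simp only [fp]
  · simp
  · simp
  · rcases pp_val s with h | h <;> simp [h]
  · rcases pp_val s with h | h <;> simp [h]
  · rcases pp_val s with h | h <;> simp [h]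
  · simp

lemma jobs_p {j : Job} (hj : j ∈ jobs n m tv) : j.p = 1 ∨ j.p = 5 ∨ j.p = 6 ∨ j.p = 8 := by
  unfold jobs at hj
  rw [List.mem_append, List.mem_map, List.mem_map] at hj
  rcases hj with ⟨q, hq, rfl⟩ | ⟨y, _, rfl⟩
  · right; exact flexL_p hq
  · left; rfl

end Pool.Agent.H77.Tard.Inst
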