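import Mathlib
import Pool.Agent.H77.Tard.Red

set_option autoImplicit false
set_option linter.unusedSectionVars false
set_option linter.unusedSimpArgs false
set_option linter.unusedVariables false

namespace Pool.Agent.H77.Tard.Inst

open Finset

variable {n m : ℕ} {tv : ℕ → ℕ}

lemma sc_le (n m : ℕ) : sc n m ≤ 50 * (n + m + 1) ^ 2 := by
  unfold sc
  nlinarith [Nat.zero_le (n * m), Nat.zero_le n, Nat.zero_le m]

lemma NN_le (n m : ℕ) : NN n m ≤ 2500 * (n + m + 1) ^ 2 := by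
  unfold NN
  have := sc_le n m
  omega

lemma St_le {s i : ℕ} (hs : s ≤ 2 * m) (hi : i < n) : St n m s i + 100 ≤ 6000 * (n + m + 1) ^ 3 := by
  have h1 := pos_lt (s := s) hi
  have h2 := NN_le n m
  have h3 : s * NN n m ≤ (2 * m) * NN n m := Nat.mul_le_mul_right _ hs
  have h4 : (2 * m) * NN n m ≤ (2 * m) * (2500 * (n + m + 1) ^ 2) := Nat.mul_le_mul_left _ h2
  have h5 : (2 * m) * (2500 * (n + m + 1) ^ 2) + 5000 * (n + m + 1) ^ 2 ≤
      5000 * (n + m + 1) ^ 3 := by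
    have : (2 * m) * (2500 * (n + m + 1) ^ 2) + 5000 * (n + m + 1) ^ 2 =
      5000 * ((m + 1) * (n + m + 1) ^ 2) := by ring
    rw [this]
    have h6 : (m + 1) * (n + m + 1) ^ 2 ≤ (n + m + 1) * (n + m + 1) ^ 2 :=
      Nat.mul_le_mul_right _ (by omega)
    have h7 : (n + m + 1) * (n + m + 1) ^ 2 = (n + m + 1) ^ 3 := by ring
    omega
  have h8 : n + m + 1 ≤ (n + m + 1) ^ 2 := Nat.le_self_pow two_ne_zero _
  have h9 : 1 ≤ (n + m + 1) ^ 3 := Nat.one_le_pow _ _ (by omega)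
  unfold St
  omega

lemma HH_le (n m : ℕ) : HH n m ≤ 6000 * (n + m + 1) ^ 3 := by
  have h2 := NN_le n m
  have h4 : (2 * m) * NN n m ≤ (2 * m) * (2500 * (n + m + 1) ^ 2) := Nat.mul_le_mul_left _ h2
  have h5 : (2 * m) * (2500 * (n + m + 1) ^ 2) + 5000 * (n + m + 1) ^ 2 ≤
      5000 * (n + m + 1) ^ 3 := by
    have : (2 * m) * (2500 * (n + m + 1) ^ 2) + 5000 * (n + m + 1) ^ 2 =
      5000 * ((m + 1) * (n + m + 1) ^ 2) := by ring
    rw [this]
    have h6 : (m + 1) * (n + m + 1) ^ 2 ≤ (n + m + 1) * (n + m + 1) ^ 2 :=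
      Nat.mul_le_mul_right _ (by omega)
    have h7 : (n + m + 1) * (n + m + 1) ^ 2 = (n + m + 1) ^ 3 := by ring
    omega
  have h8 : n + m + 1 ≤ (n + m + 1) ^ 2 := Nat.le_self_pow two_ne_zero _
  unfold HH
  omega

lemma AA_le {s : ℕ} (hs : s ≤ 2 * m) : AA n m s ≤ 500000 * ((n : ℤ) + m + 1) ^ 5 ∧
    AA n m (s + 1) ≤ 500000 * ((n : ℤ) + m + 1) ^ 5 := by
  have hc0 : (0 : ℤ) ≤ sc n m := by positivity
  have h1 : (sc n m : ℤ) ≤ 50 * ((n : ℤ) + m + 1) ^ 2 := by exact_mod_cast sc_le n m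
  have h2 : (sc n m : ℤ) ^ 2 ≤ (50 * ((n : ℤ) + m + 1) ^ 2) ^ 2 := pow_le_pow_left₀ hc0 h1 2
  have h3 : (s : ℤ) ≤ 2 * m := by exact_mod_cast hs
  have hX : (0 : ℤ) ≤ (n : ℤ) + m + 1 := by positivity
  have hn : (0 : ℤ) ≤ n := by positivity
  have hm : (0 : ℤ) ≤ m := by positivity
  have h4 : ∀ y : ℤ, 0 ≤ y → y ≤ 4 * ((n : ℤ) + m + 1) →
      50 * (sc n m : ℤ) ^ 2 * y ≤ 500000 * ((n : ℤ) + m + 1) ^ 5 := by
    intro y hy hy'
    calc 50 * (sc n m : ℤ) ^ 2 * y ≤ 50 * (50 * ((n : ℤ) + m + 1) ^ 2) ^ 2 *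
          (4 * ((n : ℤ) + m + 1)) := by
          apply mul_le_mul _ hy' hy (by positivity)
          linarith
      _ = 500000 * ((n : ℤ) + m + 1) ^ 5 := by ring
  unfold AA
  constructor
  · apply h4 <;> linarith
  · push_cast
    apply h4 <;> linarith

lemma cz_le {z : ℤ} (hz : |z| ≤ n) : |18 * (sc n m : ℤ) * z| ≤ 900 * ((n : ℤ) + m + 1) ^ 3 := by
  have hc0 : (0 : ℤ) ≤ sc n m := by positivity
  have h1 : (sc n m : ℤ) ≤ 50 * ((n : ℤ) + m + 1) ^ 2 := by exact_mod_cast sc_le n m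
  have hn : (0 : ℤ) ≤ n := by positivity
  have hm : (0 : ℤ) ≤ m := by positivity
  rw [abs_mul, abs_of_nonneg (by positivity : (0 : ℤ) ≤ 18 * (sc n m : ℤ))]
  calc 18 * (sc n m : ℤ) * |z| ≤ 18 * (50 * ((n : ℤ) + m + 1) ^ 2) * ((n : ℤ) + m + 1) := by
        apply mul_le_mul (by linarith) (by linarith) (abs_nonneg _) (by positivity)
    _ = 900 * ((n : ℤ) + m + 1) ^ 3 := by ring

lemma pow_mono_X (a b : ℕ) (h : a ≤ b) : ((n : ℤ) + m + 1) ^ a ≤ ((n : ℤ) + m + 1) ^ b := by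
  have hn : (0 : ℤ) ≤ n := by positivity
  have hm : (0 : ℤ) ≤ m := by positivity
  exact pow_le_pow_right₀ (by linarith) h

lemma fw_le (htv : ∀ s < 2 * m, tv s < n) (f : Fl n m) :
    fw tv f ≤ 10 ^ 7 * ((n : ℤ) + m + 1) ^ 5 := by
  have hn : (0 : ℤ) ≤ n := by positivity
  have hm : (0 : ℤ) ≤ m := by positivity
  have p35 := pow_mono_X (n := n) (m := m) 3 5 (by norm_num)
  have p25 := pow_mono_X (n := n) (m := m) 2 5 (by norm_num)
  have p15 := pow_mono_X (n := n) (m := m) 1 5 (by norm_num)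
  have p05 := pow_mono_X (n := n) (m := m) 0 5 (by norm_num)
  rw [pow_one] at p15
  rw [pow_zero] at p05
  have hc1 : (sc n m : ℤ) ≤ 50 * ((n : ℤ) + m + 1) ^ 2 := by exact_mod_cast sc_le n m
  have hN : (NN n m : ℤ) ≤ 2500 * ((n : ℤ) + m + 1) ^ 2 := by exact_mod_cast NN_le n m
  rcases f with i | i | ⟨s, i⟩ | ⟨s, i⟩ | s | s
  · simp only [fw, om]
    have h1 := (AA_le (n := n) (m := m) (s := 0) (by omega)).1
    have h2 := abs_le.1 (cz_le (m := m) (zz_abs (s := 0) i.2))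
    linarith
  · simp only [fw, om]
    have h1 := (AA_le (n := n) (m := m) (s := 2 * m) (by omega)).1
    have h2 := abs_le.1 (cz_le (m := m) (zz_abs (s := 2 * m) i.2))
    linarith
  · simp only [fw, wI, Core.wb]
    have h1 := (AA_le (n := n) (m := m) (s := (s : ℕ)) (by omega)).2
    have hz := zz_abs (s := (s : ℕ)) i.2
    have h2 := abs_le.1 (cz_le (m := m) hz)
    have h3 := Core.r'_le (par (n := n) (m := m) s) hz
    rcases pp_val s with h | h <;> rw [h] <;> push_cast <;> linarith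
  · simp only [fw, wO, Core.wb]
    have h1 := (AA_le (n := n) (m := m) (s := (s : ℕ)) (by omega)).2
    have hz := zz_abs (s := (s : ℕ)) i.2
    have h2 := abs_le.1 (cz_le (m := m) hz)
    have h3 := Core.le_r (δ := 0) (par (n := n) (m := m) s) hz (le_refl 0)
    have h4 : 0 ≤ dl tv s i := by unfold dl; split_ifs <;> norm_num
    have hc0 : (0 : ℤ) ≤ sc n m := by positivity
    rcases pp_val s with h | h <;> rw [h] <;> push_cast <;> linarith
  · simp only [fw, wC, Core.sC, Core.wb]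
    have h1 := (AA_le (n := n) (m := m) (s := (s : ℕ)) (by omega)).2
    have hz := zz_abs (s := (s : ℕ)) (htv s s.2)
    have h2 := abs_le.1 (cz_le (m := m) hz)
    have h3 := Core.le_r (δ := 0) (par (n := n) (m := m) s) hz (le_refl 0)
    have h4 := wT_nonneg htv s.2
    have h5 := abs_le.1 hz
    have h6 := sc_n n m
    have hc0 : (0 : ℤ) ≤ sc n m := by positivity
    have hq : (0 : ℤ) ≤ qq s := by positivity
    rcases pp_val s with h | h <;> rw [h] <;> push_cast <;> linarith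
  · simp only [fw, wD]
    split_ifs <;> linarith

lemma ew_le (htv : ∀ s < 2 * m, tv s < n) (f : Fl n m) :
    ew tv f ≤ 10 ^ 7 * (n + m + 1) ^ 5 := by
  have h := fw_le htv f
  have h0 := fw_nonneg htv f
  unfold ew
  have : ((fw tv f).toNat : ℤ) = fw tv f := Int.toNat_of_nonneg h0
  have h2 : (((fw tv f).toNat : ℕ) : ℤ) ≤ ((10 ^ 7 * (n + m + 1) ^ 5 : ℕ) : ℤ) := by
    rw [this]; push_cast; exact h
  exact_mod_cast h2

lemma fd_le (htv : ∀ s < 2 * m, tv s < n) (f : Fl n m) : fd tv f ≤ 6000 * (n + m + 1) ^ 3 := by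
  rcases f with i | i | ⟨s, i⟩ | ⟨s, i⟩ | s | s
  · simp only [fd]
    have := St_le (n := n) (m := m) (s := 0) (by omega) i.2
    omega
  · simp only [fd]
    have := St_le (n := n) (m := m) (s := 2 * m) (by omega) i.2
    omega
  · simp only [fd]
    have := St_le (n := n) (m := m) (s := s) (by omega) i.2
    omega
  · simp only [fd]
    have := St_le (n := n) (m := m) (s := s) (by omega) i.2
    have := pp_val s
    split_ifs <;> omega
  · simp only [fd]
    have := St_le (n := n) (m := m) (s := s) (by omega) (htv s s.2)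
    have := pp_val s
    omega
  · simp only [fd]
    have := St_le (n := n) (m := m) (s := s) (by omega) (htv s s.2)
    have := St_le (n := n) (m := m) (s := (s : ℕ) - 1) (by omega) (htv (s - 1) (by omega))
    split_ifs <;> omega

lemma lateR_le (htv : ∀ s < 2 * m, tv s < n) (f : Fl n m) :
    lateR tv f ≤ 6000 * (n + m + 1) ^ 3 := by
  rcases f with i | i | ⟨s, i⟩ | ⟨s, i⟩ | s | s
  · simp only [lateR]; omega
  · simp only [lateR]
    have := St_le (n := n) (m := m) (s := 2 * m) (by omega) i.2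
    omega
  · simp only [lateR]
    have := St_le (n := n) (m := m) (s := s + 1) (by omega) i.2
    have := pp_val s
    split_ifs <;> omega
  · simp only [lateR]
    have := St_le (n := n) (m := m) (s := s + 1) (by omega) i.2
    split_ifs <;> omega
  · simp only [lateR]
    have := St_le (n := n) (m := m) (s := s) (by omega) (htv s s.2)
    split_ifs <;> omega
  · simp only [lateR]
    have := St_le (n := n) (m := m) (s := s) (by omega) (htv s s.2)
    split_ifs <;> omega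

lemma card_Fl_le (n m : ℕ) : Fintype.card (Fl n m) ≤ 8 * (n + m + 1) ^ 2 := by
  rw [card_Fl, card_Wn]
  nlinarith [Nat.zero_le (n * m), Nat.zero_le (n * n), Nat.zero_le (m * m)]

lemma refE_le (htv : ∀ s < 2 * m, tv s < n) : refE n m tv ≤ 48 * 10 ^ 10 * (n + m + 1) ^ 10 := by
  unfold refE
  calc ∑ f : Fl n m, ew tv f * lateR tv f ≤
      ∑ _f : Fl n m, (10 ^ 7 * (n + m + 1) ^ 5) * (6000 * (n + m + 1) ^ 3) :=
        Finset.sum_le_sum (fun f _ => Nat.mul_le_mul (ew_le htv f) (lateR_le htv f))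
    _ = Fintype.card (Fl n m) * ((10 ^ 7 * (n + m + 1) ^ 5) * (6000 * (n + m + 1) ^ 3)) := by
        rw [Finset.sum_const, Finset.card_univ, smul_eq_mul]
    _ ≤ (8 * (n + m + 1) ^ 2) * ((10 ^ 7 * (n + m + 1) ^ 5) * (6000 * (n + m + 1) ^ 3)) :=
        Nat.mul_le_mul_right _ (card_Fl_le n m)
    _ = 48 * 10 ^ 10 * (n + m + 1) ^ 10 := by ring

lemma LamR_le (htv : ∀ s < 2 * m, tv s < n) : LamR n m tv ≤ 5 * 10 ^ 11 * (n + m + 1) ^ 10 := by
  have h := refE_le htv
  have h1 : 1 ≤ (n + m + 1) ^ 10 := Nat.one_le_pow _ _ (by omega)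
  unfold LamR
  omega

lemma fp_le (f : Fl n m) : fp f ≤ 8 := by
  rcases f with i | i | ⟨s, i⟩ | ⟨s, i⟩ | s | s <;> simp only [fp]
  · omega
  · omega
  · have := pp_val s; omega
  · have := pp_val s; omega
  · have := pp_val s; omega
  · omega

lemma wt_le (htv : ∀ s < 2 * m, tv s < n) (f : Fl n m) :
    LamR n m tv * fp f + ew tv f ≤ 5 * 10 ^ 12 * (n + m + 1) ^ 10 := by
  have h1 := LamR_le htv
  have h2 := ew_le htv f
  have h3 := fp_le f
  have h4 : (n + m + 1) ^ 5 ≤ (n + m + 1) ^ 10 := Nat.pow_le_pow_right (by omega) (by norm_num)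
  have h5 : LamR n m tv * fp f ≤ (5 * 10 ^ 11 * (n + m + 1) ^ 10) * 8 := Nat.mul_le_mul h1 h3
  omega

lemma kref_le (htv : ∀ s < 2 * m, tv s < n) : kref n m tv ≤ 10 ^ 18 * (n + m + 1) ^ 15 := by
  unfold kref
  calc ∑ f : Fl n m, (LamR n m tv * fp f + ew tv f) * lateR tv f ≤
      ∑ _f : Fl n m, (5 * 10 ^ 12 * (n + m + 1) ^ 10) * (6000 * (n + m + 1) ^ 3) :=
        Finset.sum_le_sum (fun f _ => Nat.mul_le_mul (wt_le htv f) (lateR_le htv f))
    _ = Fintype.card (Fl n m) * ((5 * 10 ^ 12 * (n + m + 1) ^ 10) * (6000 * (n + m + 1) ^ 3)) := by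
        rw [Finset.sum_const, Finset.card_univ, smul_eq_mul]
    _ ≤ (8 * (n + m + 1) ^ 2) * ((5 * 10 ^ 12 * (n + m + 1) ^ 10) * (6000 * (n + m + 1) ^ 3)) :=
        Nat.mul_le_mul_right _ (card_Fl_le n m)
    _ = 24 * 10 ^ 16 * (n + m + 1) ^ 15 := by ring
    _ ≤ 10 ^ 18 * (n + m + 1) ^ 15 := by
        apply Nat.mul_le_mul_right; norm_num

lemma jobs_bound (htv : ∀ s < 2 * m, tv s < n) {j : Job} (hj : j ∈ jobs n m tv) :
    j.d ≤ 10 ^ 18 * (n + m + 1) ^ 15 ∧ j.w ≤ 10 ^ 18 * (n + m + 1) ^ 15 := by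
  have e1 : (n + m + 1) ^ 3 ≤ (n + m + 1) ^ 15 := Nat.pow_le_pow_right (by omega) (by norm_num)
  have e2 : (n + m + 1) ^ 10 ≤ (n + m + 1) ^ 15 := Nat.pow_le_pow_right (by omega) (by norm_num)
  unfold jobs at hj
  rw [List.mem_append, List.mem_map, List.mem_map] at hj
  rcases hj with ⟨q, hq, rfl⟩ | ⟨y, hy, rfl⟩
  · have : q ∈ (flexL n m tv : Multiset _) := hq
    rw [← flexL_eq, Multiset.mem_map] at this
    obtain ⟨f, _, rfl⟩ := this
    simp only [bigW_eq]
    have h1 := fd_le htv f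
    have h2 := wt_le htv f
    omega
  · rw [mem_fixL] at hy
    have h1 := HH_le n m
    have h2 := LamR_le htv
    simp only [bigW_eq]
    omega

lemma jobs_length (htv : ∀ s < 2 * m, tv s < n) :
    (jobs n m tv).length ≤ 10 ^ 18 * (n + m + 1) ^ 15 := by
  have e1 : (n + m + 1) ^ 3 ≤ (n + m + 1) ^ 15 := Nat.pow_le_pow_right (by omega) (by norm_num)
  have e2 : (n + m + 1) ^ 2 ≤ (n + m + 1) ^ 15 := Nat.pow_le_pow_right (by omega) (by norm_num)
  have h1 : (flexL n m tv).length = Fintype.card (Fl n m) := by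
    have : Multiset.card ((flexL n m tv : List _) : Multiset (ℕ × ℕ × ℕ × ℕ)) =
        Fintype.card (Fl n m) := by
      rw [← flexL_eq, Multiset.card_map]; rfl
    simpa using this
  have h2 : (fixL n m tv).length ≤ HH n m := by
    unfold fixL
    calc _ ≤ (List.range (HH n m)).length := List.length_filter_le _ _
      _ = HH n m := List.length_range
  unfold jobs
  rw [List.length_append, List.length_map, List.length_map, h1]
  have h3 := card_Fl_le n m
  have h4 := HH_le n m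
  omega

lemma thr_le (htv : ∀ s < 2 * m, tv s < n) (K : ℕ) :
    thr n m tv K ≤ 10 ^ 18 * (n + m + 1) ^ 15 := by
  rw [thr_eq]
  have := kref_le htv
  omega

end Pool.Agent.H77.Tard.Inst
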