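import Mathlib
import Pool.Agent.H77.Tard.Bounds

set_option autoImplicit false
set_option linter.unusedSectionVars false
set_option linter.unusedSimpArgs false
set_option linter.unusedVariables false

namespace Pool.Agent.H77.Tard.Inst

open Finset

/-- the end points of the edges, one after the other -/
def ends (E : List (ℕ × ℕ)) : List ℕ := E.flatMap (fun e => [e.1, e.2])

/-- the `s`-th end point -/
def tvE (E : List (ℕ × ℕ)) (s : ℕ) : ℕ := (ends E).getD s 0

/-- There is a subset of the vertices that cuts at least `K` of the edges in the list. -/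
def MaxCut (E : List (ℕ × ℕ)) (K : ℕ) : Prop :=
  ∃ χ : ℕ → Bool, K ≤ (E.filter (fun e => χ e.1 != χ e.2)).length

/-- The reduction. -/
def red (n : ℕ) (E : List (ℕ × ℕ)) (K : ℕ) : List Job × ℕ :=
  if K ≤ E.length then (jobs n E.length (tvE E), thr n E.length (tvE E) K)
  else ([⟨1, 0, 1⟩], 0)

lemma ends_length (E : List (ℕ × ℕ)) : (ends E).length = 2 * E.length := by
  induction E with
  | nil => rfl
  | cons e E ih =>
    unfold ends at ih ⊢
    rw [List.flatMap_cons, List.length_append, ih, List.length_cons]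
    simp; omega

lemma mem_ends {n : ℕ} {E : List (ℕ × ℕ)} (hE : ∀ e ∈ E, e.1 < n ∧ e.2 < n) {v : ℕ}
    (hv : v ∈ ends E) : v < n := by
  unfold ends at hv
  rw [List.mem_flatMap] at hv
  obtain ⟨e, he, hv⟩ := hv
  have := hE e he
  simp only [List.mem_cons, List.not_mem_nil, or_false] at hv
  rcases hv with rfl | rfl
  · exact this.1
  · exact this.2

lemma tvE_lt {n : ℕ} {E : List (ℕ × ℕ)} (hE : ∀ e ∈ E, e.1 < n ∧ e.2 < n) :
    ∀ s < 2 * E.length, tvE E s < n := by
  intro s hs
  rw [← ends_length] at hs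
  unfold tvE
  rw [List.getD_eq_getElem _ _ hs]
  exact mem_ends hE (List.getElem_mem hs)

lemma cut_cons (m : ℕ) (tv : ℕ → ℕ) (χ : ℕ → Bool) :
    cut (m + 1) tv χ = (if χ (tv 0) != χ (tv 1) then 1 else 0) + cut m (fun s => tv (s + 2)) χ := by
  unfold cut
  rw [List.range_succ_eq_map, List.filter_cons, List.filter_map]
  have h : ((List.range m).filter ((fun k => χ (tv (2 * k)) != χ (tv (2 * k + 1))) ∘ Nat.succ)) =
      ((List.range m).filter (fun k => χ ((fun s => tv (s + 2)) (2 * k)) !=
        χ ((fun s => tv (s + 2)) (2 * k + 1)))) := by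
    apply List.filter_congr
    intro k _
    simp only [Function.comp]
    rw [show 2 * Nat.succ k = 2 * k + 2 by omega, show 2 * k + 2 + 1 = 2 * k + 1 + 2 by omega]
  rw [h]
  simp only [Nat.mul_zero, Nat.zero_add]
  split_ifs with h1
  · rw [List.length_cons, List.length_map]; omega
  · rw [List.length_map]; omega

lemma cut_eq (E : List (ℕ × ℕ)) (χ : ℕ → Bool) :
    cut E.length (tvE E) χ = (E.filter (fun e => χ e.1 != χ e.2)).length := by
  induction E with
  | nil => rfl
  | cons e E ih =>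
    rw [List.length_cons, cut_cons, List.filter_cons]
    have h0 : tvE (e :: E) 0 = e.1 := rfl
    have h1 : tvE (e :: E) 1 = e.2 := rfl
    have h2 : (fun s => tvE (e :: E) (s + 2)) = tvE E := by
      funext s; rfl
    rw [h0, h1, h2, ih]
    split_ifs with h
    · rw [List.length_cons]; omega
    · omega

lemma not_tardy_dummy : ¬ Tardy [⟨1, 0, 1⟩] 0 := by
  rintro ⟨l, hl, hk⟩
  rw [List.perm_singleton] at hl
  subst hl
  revert hk
  decide

theorem red_correct (n : ℕ) (E : List (ℕ × ℕ)) (hE : ∀ e ∈ E, e.1 < n ∧ e.2 < n) (K : ℕ) :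
    MaxCut E K ↔ Tardy (red n E K).1 (red n E K).2 := by
  unfold red MaxCut
  by_cases hK : K ≤ E.length
  · rw [if_pos hK]
    rw [main_list (tvE_lt hE) hK]
    simp only [cut_eq]
  · rw [if_neg hK]
    constructor
    · rintro ⟨χ, h⟩
      exfalso
      have := List.length_filter_le (fun e : ℕ × ℕ => χ e.1 != χ e.2) E
      omega
    · intro h
      exact absurd h not_tardy_dummy

theorem red_p (n : ℕ) (E : List (ℕ × ℕ)) (K : ℕ) {j : Job} (hj : j ∈ (red n E K).1) :
    j.p = 1 ∨ j.p = 5 ∨ j.p = 6 ∨ j.p = 8 := by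
  unfold red at hj
  split_ifs at hj with h
  · exact jobs_p hj
  · simp only [List.mem_singleton] at hj
    subst hj; simp

theorem red_bound (n : ℕ) (E : List (ℕ × ℕ)) (hE : ∀ e ∈ E, e.1 < n ∧ e.2 < n) (K : ℕ) :
    (red n E K).1.length ≤ 10 ^ 18 * (n + E.length + 1) ^ 15 ∧
    (∀ j ∈ (red n E K).1, j.d ≤ 10 ^ 18 * (n + E.length + 1) ^ 15 ∧
      j.w ≤ 10 ^ 18 * (n + E.length + 1) ^ 15) ∧
    (red n E K).2 ≤ 10 ^ 18 * (n + E.length + 1) ^ 15 := by
  have h1 : 1 ≤ (n + E.length + 1) ^ 15 := Nat.one_le_pow _ _ (by omega)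
  unfold red
  split_ifs with h
  · exact ⟨jobs_length (tvE_lt hE), fun j hj => jobs_bound (tvE_lt hE) hj, thr_le (tvE_lt hE) K⟩
  · refine ⟨?_, ?_, ?_⟩
    · simp only [List.length_singleton]; omega
    · intro j hj
      simp only [List.mem_singleton] at hj
      subst hj
      simp only []
      omega
    · simp only []; omega

end Pool.Agent.H77.Tard.Inst
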