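import Mathlib
import Pool.Agent.H77.Tard.Edges
import Pool.Agent.H78.NP.PNP

set_option autoImplicit false
set_option linter.unusedSectionVars false
set_option linter.unusedSimpArgs false
set_option linter.unusedVariables false

namespace Pool.Agent.H77.Tard.Inst

open Finset Pool.Agent.H79.Cx

section basic

variable {α : Type} [Enc α]

@[fun_prop]
theorem PT_sc {n m : α → ℕ} (hn : PT n) (hm : PT m) : PT (fun x => sc (n x) (m x)) := by
  unfold sc; fun_prop

@[fun_prop]
theorem PT_NN {n m : α → ℕ} (hn : PT n) (hm : PT m) : PT (fun x => NN (n x) (m x)) := by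
  unfold NN; fun_prop

@[fun_prop]
theorem PT_HH {n m : α → ℕ} (hn : PT n) (hm : PT m) : PT (fun x => HH (n x) (m x)) := by
  unfold HH; fun_prop

@[fun_prop]
theorem PT_pos {n s i : α → ℕ} (hn : PT n) (hs : PT s) (hi : PT i) :
    PT (fun x => pos (n x) (s x) (i x)) := by
  unfold pos; fun_prop

@[fun_prop]
theorem PT_St {n m s i : α → ℕ} (hn : PT n) (hm : PT m) (hs : PT s) (hi : PT i) :
    PT (fun x => St (n x) (m x) (s x) (i x)) := by
  unfold St; fun_prop

@[fun_prop]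
theorem PT_pp {s : α → ℕ} (hs : PT s) : PT (fun x => pp (s x)) := by
  unfold pp; fun_prop

@[fun_prop]
theorem PT_qq {s : α → ℕ} (hs : PT s) : PT (fun x => qq (s x)) := by
  unfold qq; fun_prop

@[fun_prop]
theorem PT_zz {n s i : α → ℕ} (hn : PT n) (hs : PT s) (hi : PT i) :
    PT (fun x => zz (n x) (s x) (i x)) := by
  unfold zz; fun_prop

@[fun_prop]
theorem PT_AA {n m s : α → ℕ} (hn : PT n) (hm : PT m) (hs : PT s) :
    PT (fun x => AA (n x) (m x) (s x)) := by
  unfold AA; fun_prop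

@[fun_prop]
theorem PT_om {n m s i : α → ℕ} (hn : PT n) (hm : PT m) (hs : PT s) (hi : PT i) :
    PT (fun x => om (n x) (m x) (s x) (i x)) := by
  unfold om; fun_prop

@[fun_prop]
theorem PT_tvE {E : α → List (ℕ × ℕ)} {s : α → ℕ} (hE : PT E) (hs : PT s) :
    PT (fun x => tvE (E x) (s x)) := by
  unfold tvE ends; fun_prop

@[fun_prop]
theorem PT_wb {A c z : α → ℤ} (hA : PT A) (hc : PT c) (hz : PT z) :
    PT (fun x => Core.wb (A x) (c x) (z x)) := by
  unfold Core.wb; fun_prop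

@[fun_prop]
theorem PT_r {c q z : α → ℤ} (hc : PT c) (hq : PT q) (hz : PT z) :
    PT (fun x => Core.r (c x) (q x) (z x)) := by
  unfold Core.r; fun_prop

@[fun_prop]
theorem PT_r' {c q z : α → ℤ} (hc : PT c) (hq : PT q) (hz : PT z) :
    PT (fun x => Core.r' (c x) (q x) (z x)) := by
  unfold Core.r'; fun_prop

@[fun_prop]
theorem PT_sC {A c p q w z : α → ℤ} (hA : PT A) (hc : PT c) (hp : PT p) (hq : PT q) (hw : PT w)
    (hz : PT z) : PT (fun x => Core.sC (A x) (c x) (p x) (q x) (w x) (z x)) := by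
  unfold Core.sC; fun_prop

@[fun_prop]
theorem PT_wT {n m s : α → ℕ} {E : α → List (ℕ × ℕ)} (hn : PT n) (hm : PT m) (hs : PT s)
    (hE : PT E) : PT (fun x => wT (n x) (m x) (tvE (E x)) (s x)) := by
  unfold wT; fun_prop

@[fun_prop]
theorem PT_dl {s i : α → ℕ} {E : α → List (ℕ × ℕ)} (hs : PT s) (hi : PT i)
    (hE : PT E) : PT (fun x => dl (tvE (E x)) (s x) (i x)) := by
  unfold dl; fun_prop

@[fun_prop]
theorem PT_wI {n m s i : α → ℕ} (hn : PT n) (hm : PT m) (hs : PT s) (hi : PT i) :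
    PT (fun x => wI (n x) (m x) (s x) (i x)) := by
  unfold wI; fun_prop

@[fun_prop]
theorem PT_wO {n m s i : α → ℕ} {E : α → List (ℕ × ℕ)} (hn : PT n) (hm : PT m) (hs : PT s)
    (hi : PT i) (hE : PT E) : PT (fun x => wO (n x) (m x) (tvE (E x)) (s x) (i x)) := by
  unfold wO; fun_prop

@[fun_prop]
theorem PT_wC {n m s : α → ℕ} {E : α → List (ℕ × ℕ)} (hn : PT n) (hm : PT m) (hs : PT s)
    (hE : PT E) : PT (fun x => wC (n x) (m x) (tvE (E x)) (s x)) := by
  unfold wC; fun_prop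

@[fun_prop]
theorem PT_wD {n m s : α → ℕ} (hn : PT n) (hm : PT m) (hs : PT s) :
    PT (fun x => wD (n x) (m x) (s x)) := by
  unfold wD; fun_prop

end basic

/-- truncation at zero -/
def tz (z : ℤ) : ℤ := if z < 0 then 0 else z

lemma tz_eq (z : ℤ) : ((z.toNat : ℕ) : ℤ) = tz z := by
  unfold tz; split_ifs <;> omega

/-- the flexible jobs with integer extra weights -/
def flexZ (n m : ℕ) (tv : ℕ → ℕ) : List (ℕ × ℕ × ℤ × ℕ) :=
  (List.range n).map (fun i => (6, St n m 0 i + 6, tz (6 * om n m 0 i), 0)) ++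
  ((List.range n).map (fun i => (5, St n m (2 * m) i + 5, tz (5 * om n m (2 * m) i), 6)) ++
  ((List.range (2 * m)).flatMap (fun s => (List.range n).map (fun i =>
    (pp s, St n m s i + 11, tz (wI n m s i),
      if s % 2 = 0 then 0 else St n m (s + 1) i + pp s - (St n m s i + 11)))) ++
  ((List.range (2 * m)).flatMap (fun s => (List.range n).map (fun i =>
    (pp s, if i = tv s then St n m s i - 16 + pp s else St n m s i + pp s,
      tz (wO n m tv s i),
      if s % 2 = 0 then St n m (s + 1) i + 11 -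
        (if i = tv s then St n m s i - 16 + pp s else St n m s i + pp s) else 0))) ++
  ((List.range (2 * m)).map (fun s =>
    (pp s, St n m s (tv s) - 8 + pp s, tz (wC n m tv s), if s % 2 = 0 then 0 else 8)) ++
  (List.range (2 * m)).map (fun s =>
    (8, if s % 2 = 0 then St n m s (tv s) - 8 else St n m (s - 1) (tv (s - 1)) - 3,
      tz (wD n m s),
      if s % 2 = 0 then 0 else St n m s (tv s) - 2 - (St n m (s - 1) (tv (s - 1)) - 3)))))))

lemma flexZ_eq (n m : ℕ) (tv : ℕ → ℕ) : flexZ n m tv =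
    (flexL n m tv).map (fun q => (q.1, q.2.1, (q.2.2.1 : ℤ), q.2.2.2)) := by
  unfold flexZ flexL
  simp only [List.map_append, List.map_flatMap, List.map_map, Function.comp_def, tz_eq]

/-- the large weight -/
def bigZ (n m : ℕ) (tv : ℕ → ℕ) : ℤ :=
  1 + ((flexZ n m tv).map (fun q => q.2.2.1 * (q.2.2.2 : ℤ))).sum

lemma list_sum_cast {β : Type} (l : List β) (f : β → ℕ) :
    (((l.map f).sum : ℕ) : ℤ) = (l.map (fun q => (f q : ℤ))).sum := by
  induction l with
  | nil => simp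
  | cons a l ih => simp [ih]

lemma bigZ_eq (n m : ℕ) (tv : ℕ → ℕ) : (bigW n m tv : ℤ) = bigZ n m tv := by
  unfold bigW bigZ
  rw [flexZ_eq, Nat.cast_add, Nat.cast_one, list_sum_cast, List.map_map]
  simp only [Function.comp_def, Nat.cast_mul]

/-- the jobs, with binary numbers -/
def jobsZ (n m : ℕ) (tv : ℕ → ℕ) : List (ℤ × ℤ × ℤ) :=
  (flexZ n m tv).map (fun q => ((q.1 : ℤ), (q.2.1 : ℤ), bigZ n m tv * q.1 + q.2.2.1)) ++
  (fixL n m tv).map (fun y : ℕ => ((1 : ℤ), (y : ℤ) + 1, 2 * bigZ n m tv))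

/-- binary representation of jobs -/
def jobRep (j : Job) : ℤ × ℤ × ℤ := ((j.p : ℤ), (j.d : ℤ), (j.w : ℤ))

lemma jobsZ_eq (n m : ℕ) (tv : ℕ → ℕ) : (jobs n m tv).map jobRep = jobsZ n m tv := by
  unfold jobs jobsZ jobRep
  rw [flexZ_eq, List.map_append, List.map_map, List.map_map, List.map_map]
  simp only [Function.comp_def]
  push_cast
  rw [bigZ_eq]

/-- the threshold -/
def thrZ (n m : ℕ) (tv : ℕ → ℕ) (K : ℕ) : ℤ :=
  tz (((flexZ n m tv).map (fun q => (bigZ n m tv * q.1 + q.2.2.1) * (q.2.2.2 : ℤ))).sum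
    - 240 * K)

lemma thrZ_eq (n m : ℕ) (tv : ℕ → ℕ) (K : ℕ) : (thr n m tv K : ℤ) = thrZ n m tv K := by
  unfold thr thrZ
  rw [← tz_eq, flexZ_eq, List.map_map]
  simp only [Function.comp_def]
  rw [← bigZ_eq]
  have h := list_sum_cast (flexL n m tv) (fun q => (bigW n m tv * q.1 + q.2.2.1) * q.2.2.2)
  simp only [Nat.cast_mul, Nat.cast_add] at h
  rw [← h, ← Int.toNat_sub, Nat.cast_mul]
  rfl

section pt

variable {α : Type} [Enc α]

@[fun_prop]
theorem PT_tz {z : α → ℤ} (hz : PT z) : PT (fun x => tz (z x)) := by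
  unfold tz; fun_prop

@[fun_prop]
theorem PT_any {β : Type} [Enc β] {f : α → β → Bool} {l : α → List β}
    (hf : PT (fun p : α × β => f p.1 p.2)) (hl : PT l) : PT (fun a => (l a).any (f a)) := by
  have h : PT (fun a => !(((l a).filter (f a)).isEmpty)) := by
    apply PT.not'
    apply PT.isEmpty
    exact PT.filter hf hl
  refine PT.congr h fun a => ?_
  induction l a with
  | nil => rfl
  | cons b l ih =>
    rw [List.filter_cons, List.any_cons]
    cases hb : f a b
    · simpa using ih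
    · simp

@[fun_prop]
theorem PT_inWin {n m y : α → ℕ} {E : α → List (ℕ × ℕ)} (hn : PT n) (hm : PT m) (hy : PT y)
    (hE : PT E) : PT (fun x => inWin (n x) (m x) (tvE (E x)) (y x)) := by
  unfold inWin; fun_prop

@[fun_prop]
theorem PT_fixL {n m : α → ℕ} {E : α → List (ℕ × ℕ)} (hn : PT n) (hm : PT m)
    (hE : PT E) : PT (fun x => fixL (n x) (m x) (tvE (E x))) := by
  unfold fixL; fun_prop

@[fun_prop]
theorem PT_flexZ {n m : α → ℕ} {E : α → List (ℕ × ℕ)} (hn : PT n) (hm : PT m)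
    (hE : PT E) : PT (fun x => flexZ (n x) (m x) (tvE (E x))) := by
  unfold flexZ; fun_prop

@[fun_prop]
theorem PT_bigZ {n m : α → ℕ} {E : α → List (ℕ × ℕ)} (hn : PT n) (hm : PT m)
    (hE : PT E) : PT (fun x => bigZ (n x) (m x) (tvE (E x))) := by
  unfold bigZ; fun_prop

@[fun_prop]
theorem PT_jobsZ {n m : α → ℕ} {E : α → List (ℕ × ℕ)} (hn : PT n) (hm : PT m)
    (hE : PT E) : PT (fun x => jobsZ (n x) (m x) (tvE (E x))) := by
  unfold jobsZ; fun_prop

@[fun_prop]
theorem PT_thrZ {n m K : α → ℕ} {E : α → List (ℕ × ℕ)} (hn : PT n) (hm : PT m) (hK : PT K)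
    (hE : PT E) : PT (fun x => thrZ (n x) (m x) (tvE (E x)) (K x)) := by
  unfold thrZ; fun_prop

end pt

/-- binary representation of instances -/
def instRep (x : List Job × ℕ) : List (ℤ × ℤ × ℤ) × ℤ := (x.1.map jobRep, (x.2 : ℤ))

theorem PT_red : PT (fun a : ℕ × List (ℕ × ℕ) × ℕ => instRep (red a.1 a.2.1 a.2.2)) := by
  have h : PT (fun a : ℕ × List (ℕ × ℕ) × ℕ =>
      if a.2.2 ≤ a.2.1.length then
        (jobsZ a.1 a.2.1.length (tvE a.2.1), thrZ a.1 a.2.1.length (tvE a.2.1) a.2.2)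
      else ([((1 : ℤ), (0 : ℤ), (1 : ℤ))], (0 : ℤ))) := by
    fun_prop
  refine PT.congr h fun a => ?_
  unfold instRep red
  split_ifs with hK
  · simp only [jobsZ_eq, thrZ_eq]
  · rfl

end Pool.Agent.H77.Tard.Inst
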