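import Mathlib
import Pool.Agent.H77.Tard.PTRed

set_option autoImplicit false
set_option linter.unusedSectionVars false
set_option linter.unusedSimpArgs false
set_option linter.unusedVariables false

namespace Pool.Agent.H77.Tard

open Pool.Agent.H79.Cx Pool.Agent.H78.NP Turing Computability

/-! ### the code as a tree code -/

/-- an instance, all numbers replaced by their lists of binary digits -/
def bitRep (x : List Job × ℕ) : List (List Bool × List Bool × List Bool) × List Bool :=
  (x.1.map (fun j => (j.p.bits, j.d.bits, j.w.bits)), x.2.bits)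

lemma cd_bool (b : Bool) : cd b = digit b := by cases b <;> rfl

lemma cd_pair {α β : Type} [Enc α] [Enc β] (a : α) (b : β) : cd (a, b) = true :: (cd a ++ cd b) :=
  rfl

lemma cd_list {α : Type} [Enc α] (l : List α) :
    cd l = l.flatMap (fun a => true :: cd a) ++ [false] := by
  induction l with
  | nil => rfl
  | cons a l ih =>
    have h : cd (a :: l) = true :: (cd a ++ cd l) := rfl
    rw [h, ih, List.flatMap_cons]
    simp

lemma cd_bits (n : ℕ) : cd n.bits = num n := by
  rw [cd_list]
  unfold num
  simp only [cd_bool]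

lemma code_eq (x : List Job × ℕ) : code x = cd (bitRep x) := by
  unfold code bitRep
  rw [cd_pair, cd_bits, cd_list, List.flatMap_map]
  simp only [cd_pair, cd_bits]
  rfl

lemma enc_inj : ∀ (x y : D) (r s : List Bool), x.enc ++ r = y.enc ++ s → x = y ∧ r = s := by
  intro x
  induction x with
  | nil =>
    intro y r s h
    cases y with
    | nil => simpa using h
    | cons a b => simp at h
  | cons x1 x2 ih1 ih2 =>
    intro y r s h
    cases y with
    | nil => simp at h
    | cons a b =>
      simp only [D.enc_cons, List.cons_append, List.append_assoc, List.cons.injEq, true_and] at h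
      obtain ⟨h1, h2⟩ := ih1 _ _ _ h
      obtain ⟨h3, h4⟩ := ih2 _ _ _ h2
      exact ⟨by rw [h1, h3], h4⟩

lemma cd_inj_of {α : Type} [Enc α] (h : Function.Injective (Enc.enc : α → D)) :
    Function.Injective (cd : α → List Bool) := by
  intro x y hxy
  apply h
  have := enc_inj (Enc.enc x) (Enc.enc y) [] [] (by simpa [cd] using hxy)
  exact this.1

lemma enc_bool_inj : Function.Injective (Enc.enc : Bool → D) := by
  intro a b h; cases a <;> cases b <;> simp_all [Enc.enc]

lemma enc_pair_inj {α β : Type} [Enc α] [Enc β] (h1 : Function.Injective (Enc.enc : α → D))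
    (h2 : Function.Injective (Enc.enc : β → D)) : Function.Injective (Enc.enc : α × β → D) := by
  rintro ⟨a, b⟩ ⟨c, d⟩ h
  simp only [enc_pair, D.cons.injEq] at h
  rw [h1 h.1, h2 h.2]

lemma enc_list_inj {α : Type} [Enc α] (h1 : Function.Injective (Enc.enc : α → D)) :
    Function.Injective (Enc.enc : List α → D) := by
  intro l
  induction l with
  | nil =>
    intro l' h
    cases l' with
    | nil => rfl
    | cons a l' => simp at h
  | cons a l ih =>
    intro l' h
    cases l' with
    | nil => simp at h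
    | cons b l' =>
      simp only [enc_cons', D.cons.injEq] at h
      rw [h1 h.1, ih h.2]

lemma bits_inj : Function.Injective Nat.bits := by
  intro a b h
  rw [← val_bits a, ← val_bits b, h]

lemma bitRep_inj : Function.Injective bitRep := by
  rintro ⟨l, k⟩ ⟨l', k'⟩ h
  simp only [bitRep, Prod.mk.injEq] at h
  have h1 : Function.Injective (fun j : Job => (j.p.bits, j.d.bits, j.w.bits)) := by
    rintro ⟨p, d, w⟩ ⟨p', d', w'⟩ h
    simp only [Prod.mk.injEq] at h
    rw [bits_inj h.1, bits_inj h.2.1, bits_inj h.2.2]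
  rw [List.map_injective_iff.2 h1 h.1, bits_inj h.2]

/-- Different instances have different codes. -/
theorem code_injective : Function.Injective code := by
  have h : code = cd ∘ bitRep := funext code_eq
  rw [h]
  have hb := enc_list_inj enc_bool_inj
  exact (cd_inj_of (enc_pair_inj (enc_list_inj (enc_pair_inj hb (enc_pair_inj hb hb))) hb)).comp
    bitRep_inj

/-- numbers in an instance produced by the reduction -/
def bound (x : List Job × ℕ) : ℕ := 10 ^ 18 * (x.1.length + 1) ^ 15

/-- the post-processing from integers to digits -/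
theorem PT_bitRep_red :
    PT (fun a : ℕ × List (ℕ × ℕ) × ℕ => bitRep (Inst.red a.1 a.2.1 a.2.2)) := by
  have h1 : PT (fun y : List (ℤ × ℤ × ℤ) × ℤ =>
      (y.1.map (fun q => (q.1.natAbs.bits, q.2.1.natAbs.bits, q.2.2.natAbs.bits)),
        y.2.natAbs.bits)) := by
    fun_prop
  refine PT.congr (PT.comp h1 Inst.PT_red) fun a => ?_
  simp only [Inst.instRep, bitRep, Inst.jobRep, List.map_map, Function.comp_def, Int.natAbs_natCast]

lemma le_length_jobs (n m : ℕ) (tv : ℕ → ℕ) : n + m ≤ (Inst.jobs n m tv).length := by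
  have h1 : (Inst.flexL n m tv).length = Fintype.card (Inst.Fl n m) := by
    have : Multiset.card ((Inst.flexL n m tv : List _) : Multiset (ℕ × ℕ × ℕ × ℕ)) =
        Fintype.card (Inst.Fl n m) := by
      rw [← Inst.flexL_eq, Multiset.card_map]; rfl
    simpa using this
  unfold Inst.jobs
  rw [List.length_append, List.length_map, h1, Inst.card_Fl, Inst.card_Wn]
  nlinarith [Nat.zero_le (m * n)]

lemma red_good (n : ℕ) (E : List (ℕ × ℕ)) (hE : ∀ e ∈ E, e.1 < n ∧ e.2 < n) (K : ℕ) :
    (∀ j ∈ (Inst.red n E K).1, 1 ≤ j.p ∧ j.p ≤ 8 ∧ j.d ≤ bound (Inst.red n E K) ∧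
      j.w ≤ bound (Inst.red n E K)) ∧ (Inst.red n E K).2 ≤ bound (Inst.red n E K) := by
  unfold Inst.red
  split_ifs with h
  · have h1 : (n + E.length + 1) ^ 15 ≤ ((Inst.jobs n E.length (Inst.tvE E)).length + 1) ^ 15 :=
      Nat.pow_le_pow_left (by have := le_length_jobs n E.length (Inst.tvE E); omega) 15
    have h2 : 10 ^ 18 * (n + E.length + 1) ^ 15 ≤
        10 ^ 18 * ((Inst.jobs n E.length (Inst.tvE E)).length + 1) ^ 15 :=
      Nat.mul_le_mul_left _ h1
    refine ⟨?_, ?_⟩
    · intro j hj
      have h3 := Inst.jobs_p hj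
      have h4 := Inst.jobs_bound (Inst.tvE_lt hE) hj
      refine ⟨by omega, by omega, ?_, ?_⟩
      · exact h4.1.trans h2
      · exact h4.2.trans h2
    · exact (Inst.thr_le (Inst.tvE_lt hE) K).trans h2
  · refine ⟨?_, ?_⟩
    · intro j hj
      simp only [List.mem_singleton] at hj
      subst hj
      simp [bound]
    · simp [bound]

theorem npHard :
    NPHardOn code
      (fun x => (∀ j ∈ x.1, 1 ≤ j.p ∧ j.p ≤ 8 ∧ j.d ≤ bound x ∧ j.w ≤ bound x) ∧ x.2 ≤ bound x)
      (fun x => Tardy x.1 x.2) := by
  have h := NPHP.npHardOn_rep nphp_maxCut (fun a : Graph => Inst.red a.1 a.2.1 a.2.2) bitRep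
    PT_bitRep_red (G' := fun x => (∀ j ∈ x.1, 1 ≤ j.p ∧ j.p ≤ 8 ∧ j.d ≤ bound x ∧
      j.w ≤ bound x) ∧ x.2 ≤ bound x) (Q' := fun x => Tardy x.1 x.2)
    (fun a ha => red_good a.1 a.2.1 ha a.2.2)
    (fun a ha => Inst.red_correct a.1 a.2.1 ha a.2.2)
  have e : (fun x => cd (bitRep x)) = code := funext fun x => (code_eq x).symm
  rw [e] at h
  exact h

lemma pmax_le {I : List Job} {b : ℕ} (h : ∀ j ∈ I, j.p ≤ b) : pmax I ≤ b := by
  unfold pmax
  induction I with
  | nil => simp
  | cons j I ih =>
    simp only [List.map_cons, List.foldr_cons]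
    exact max_le (h j (by simp)) (ih (fun i hi => h i (by simp [hi])))

end Pool.Agent.H77.Tard
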